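import Mathlib

set_option autoImplicit false

open Finset

namespace Pool.Agent.Lib.SidonDis

/-- Sidon sets of integers. -/
def Sid (S : Finset ℤ) : Prop :=
  ∀ a ∈ S, ∀ b ∈ S, ∀ c ∈ S, ∀ d ∈ S, a + b = c + d → (a = c ∧ b = d) ∨ (a = d ∧ b = c)

lemma hel_pt {p q : ℝ} (hp : 0 ≤ p) (hq : 0 ≤ q) (h : 0 < p → 0 < q) :
    (Real.sqrt p - Real.sqrt q) ^ 2 ≤ p * Real.log (p / q) - p + q := by
  rcases hp.eq_or_lt with h0 | hp'
  · subst h0
    simp [Real.sq_sqrt hq]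
  · have hq' := h hp'
    set a := Real.sqrt p with ha
    set b := Real.sqrt q with hb
    have ha0 : 0 < a := Real.sqrt_pos.2 hp'
    have hb0 : 0 < b := Real.sqrt_pos.2 hq'
    have hpa : p = a ^ 2 := (Real.sq_sqrt hp).symm
    have hqb : q = b ^ 2 := (Real.sq_sqrt hq).symm
    have h1 : Real.log (p / q) = 2 * Real.log (a / b) := by
      rw [hpa, hqb, ← div_pow, Real.log_pow]; norm_num
    have h2 : 1 - b / a ≤ Real.log (a / b) := by
      have := Real.one_sub_inv_le_log_of_pos (div_pos ha0 hb0)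
      rwa [inv_div] at this
    have h3 : a ^ 2 * (1 - b / a) = a ^ 2 - a * b := by field_simp
    have h4 : a ^ 2 * (1 - b / a) ≤ a ^ 2 * Real.log (a / b) :=
      mul_le_mul_of_nonneg_left h2 (by positivity)
    rw [h1]
    rw [hpa, hqb]
    nlinarith

lemma le_two_hel {p q : ℝ} (hp : 0 ≤ p) (hq : 0 ≤ q) :
    q ≤ 2 * p + 2 * (Real.sqrt p - Real.sqrt q) ^ 2 := by
  have h1 := Real.sq_sqrt hp
  have h2 := Real.sq_sqrt hq
  nlinarith [sq_nonneg (2 * Real.sqrt p - Real.sqrt q)]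

/-- relative entropy of two weight functions on a finset -/
noncomputable def kl {α : Type*} (Z : Finset α) (p q : α → ℝ) : ℝ :=
  ∑ z ∈ Z, p z * Real.log (p z / q z)

lemma hel_le_kl {α : Type*} (Z : Finset α) (p q : α → ℝ) (hp : ∀ z ∈ Z, 0 ≤ p z)
    (hq : ∀ z ∈ Z, 0 ≤ q z) (h : ∀ z ∈ Z, 0 < p z → 0 < q z)
    (sp : ∑ z ∈ Z, p z = 1) (sq : ∑ z ∈ Z, q z = 1) :
    ∑ z ∈ Z, (Real.sqrt (p z) - Real.sqrt (q z)) ^ 2 ≤ kl Z p q := by
  have : ∑ z ∈ Z, (Real.sqrt (p z) - Real.sqrt (q z)) ^ 2 ≤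
      ∑ z ∈ Z, (p z * Real.log (p z / q z) - p z + q z) :=
    sum_le_sum fun z hz => hel_pt (hp z hz) (hq z hz) (h z hz)
  rw [sum_add_distrib, sum_sub_distrib, sp, sq] at this
  unfold kl; linarith

lemma kl_nonneg {α : Type*} (Z : Finset α) (p q : α → ℝ) (hp : ∀ z ∈ Z, 0 ≤ p z)
    (hq : ∀ z ∈ Z, 0 ≤ q z) (h : ∀ z ∈ Z, 0 < p z → 0 < q z)
    (sp : ∑ z ∈ Z, p z = 1) (sq : ∑ z ∈ Z, q z = 1) : 0 ≤ kl Z p q :=
  le_trans (sum_nonneg fun _ _ => sq_nonneg _) (hel_le_kl Z p q hp hq h sp sq)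

lemma transfer_aux {α : Type*} (Z : Finset α) (p q : α → ℝ) (hp : ∀ z ∈ Z, 0 ≤ p z)
    (hq : ∀ z ∈ Z, 0 ≤ q z) (g : α → ℝ) (M D : ℝ) (hM : 0 ≤ M) (g0 : ∀ z ∈ Z, 0 ≤ g z)
    (gM : ∀ z ∈ Z, g z ≤ M)
    (hD : ∑ z ∈ Z, (Real.sqrt (p z) - Real.sqrt (q z)) ^ 2 ≤ D) :
    ∑ z ∈ Z, q z * g z ≤ 2 * ∑ z ∈ Z, p z * g z + 2 * M * D := by
  have h1 : ∑ z ∈ Z, q z * g z ≤
      ∑ z ∈ Z, (2 * (p z * g z) + 2 * M * (Real.sqrt (p z) - Real.sqrt (q z)) ^ 2) := by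
    refine sum_le_sum fun z hz => ?_
    have a1 := le_two_hel (hp z hz) (hq z hz)
    have a2 := mul_le_mul_of_nonneg_right a1 (g0 z hz)
    have a3 := mul_le_mul_of_nonneg_left (gM z hz)
      (sq_nonneg (Real.sqrt (p z) - Real.sqrt (q z)))
    nlinarith
  rw [sum_add_distrib, ← mul_sum, ← mul_sum] at h1
  have := mul_le_mul_of_nonneg_left hD (by positivity : 0 ≤ 2 * M)
  linarith

section PE
variable {κ : Type*} [Fintype κ] [DecidableEq κ]

/-- expectation under independent samples with weights `μ` on `V` -/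
noncomputable def PE (V : Finset ℤ) (μ : ℤ → ℝ) (F : (κ → ℤ) → ℝ) : ℝ :=
  ∑ z ∈ Fintype.piFinset (fun _ : κ => V), (∏ j, μ (z j)) * F z

lemma PE_const (V : Finset ℤ) (μ : ℤ → ℝ) (hμ : ∑ x ∈ V, μ x = 1) (c : ℝ) :
    PE V μ (fun _ : κ → ℤ => c) = c := by
  unfold PE
  rw [← sum_mul, ← prod_univ_sum (fun _ : κ => V) (fun _ x => μ x)]
  simp [hμ]

lemma PE_mono (V : Finset ℤ) (μ : ℤ → ℝ) (h0 : ∀ x ∈ V, 0 ≤ μ x) {F G : (κ → ℤ) → ℝ}
    (h : ∀ z ∈ Fintype.piFinset (fun _ : κ => V), F z ≤ G z) : PE V μ F ≤ PE V μ G := by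
  unfold PE
  refine sum_le_sum fun z hz => mul_le_mul_of_nonneg_left (h z hz) ?_
  exact prod_nonneg fun j _ => h0 _ (Fintype.mem_piFinset.1 hz j)

lemma PE_congr (V : Finset ℤ) (μ : ℤ → ℝ) {F G : (κ → ℤ) → ℝ}
    (h : ∀ z ∈ Fintype.piFinset (fun _ : κ => V), F z = G z) : PE V μ F = PE V μ G := by
  unfold PE
  exact sum_congr rfl fun z hz => by rw [h z hz]

lemma PE_add (V : Finset ℤ) (μ : ℤ → ℝ) (F G : (κ → ℤ) → ℝ) :
    PE V μ (fun z => F z + G z) = PE V μ F + PE V μ G := by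
  unfold PE; rw [← sum_add_distrib]; exact sum_congr rfl fun z _ => by ring

lemma PE_sub (V : Finset ℤ) (μ : ℤ → ℝ) (F G : (κ → ℤ) → ℝ) :
    PE V μ (fun z => F z - G z) = PE V μ F - PE V μ G := by
  unfold PE; rw [← sum_sub_distrib]; exact sum_congr rfl fun z _ => by ring

lemma PE_mul (V : Finset ℤ) (μ : ℤ → ℝ) (c : ℝ) (F : (κ → ℤ) → ℝ) :
    PE V μ (fun z => c * F z) = c * PE V μ F := by
  unfold PE; rw [mul_sum]; exact sum_congr rfl fun z _ => by ring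

lemma PE_sum {β : Type*} (V : Finset ℤ) (μ : ℤ → ℝ) (s : Finset β) (F : β → (κ → ℤ) → ℝ) :
    PE V μ (fun z => ∑ b ∈ s, F b z) = ∑ b ∈ s, PE V μ (F b) := by
  unfold PE; rw [sum_comm]; exact sum_congr rfl fun z _ => by rw [mul_sum]

lemma PE_resample (V : Finset ℤ) (μ : ℤ → ℝ) (hμ : ∑ x ∈ V, μ x = 1) (j : κ)
    (F : (κ → ℤ) → ℝ) :
    PE V μ F = PE V μ (fun z => ∑ a ∈ V, μ a * F (Function.update z j a)) := by
  unfold PE
  have h1 : ∀ z : κ → ℤ, (∏ i, μ (z i)) * F z = ∑ a ∈ V, (∏ i, μ (z i)) * μ a * F z := by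
    intro z
    rw [← sum_mul, ← mul_sum, hμ, mul_one]
  have h2 : ∀ z : κ → ℤ, (∏ i, μ (z i)) * ∑ a ∈ V, μ a * F (Function.update z j a) =
      ∑ a ∈ V, (∏ i, μ (z i)) * μ a * F (Function.update z j a) := by
    intro z
    rw [mul_sum]; exact sum_congr rfl fun a _ => by ring
  simp_rw [h1, h2]
  rw [← sum_product', ← sum_product']
  symm
  refine sum_nbij' (fun x => (Function.update x.1 j x.2, x.1 j))
    (fun x => (Function.update x.1 j x.2, x.1 j)) ?_ ?_ ?_ ?_ ?_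
  · intro x hx
    simp only [mem_product, Fintype.mem_piFinset] at hx ⊢
    refine ⟨fun i => ?_, hx.1 j⟩
    by_cases hi : i = j
    · subst hi; simpa using hx.2
    · simpa [Function.update_of_ne hi] using hx.1 i
  · intro x hx
    simp only [mem_product, Fintype.mem_piFinset] at hx ⊢
    refine ⟨fun i => ?_, hx.1 j⟩
    by_cases hi : i = j
    · subst hi; simpa using hx.2
    · simpa [Function.update_of_ne hi] using hx.1 i
  · intro x _; simp
  · intro x _; simp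
  · intro x _
    congr 1
    have e1 : ∀ y : κ → ℤ, ∏ i, μ (y i) = μ (y j) * ∏ i ∈ univ.erase j, μ (y i) := fun y =>
      (mul_prod_erase univ (fun i => μ (y i)) (mem_univ j)).symm
    rw [e1 x.1, e1 (Function.update x.1 j x.2)]
    have e2 : ∏ i ∈ univ.erase j, μ (Function.update x.1 j x.2 i) =
        ∏ i ∈ univ.erase j, μ (x.1 i) :=
      prod_congr rfl fun i hi => by rw [Function.update_of_ne (ne_of_mem_erase hi)]
    simp only [Function.update_self, e2]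
    ring

lemma PE_one (V : Finset ℤ) (μ : ℤ → ℝ) (hμ : ∑ x ∈ V, μ x = 1) (j : κ) (g : ℤ → ℝ) :
    PE V μ (fun z : κ → ℤ => g (z j)) = ∑ a ∈ V, μ a * g a := by
  rw [PE_resample V μ hμ j]
  simp only [Function.update_self]
  exact PE_const V μ hμ _

lemma PE_two (V : Finset ℤ) (μ : ℤ → ℝ) (hμ : ∑ x ∈ V, μ x = 1) {j l : κ} (hjl : j ≠ l)
    (g : ℤ → ℤ → ℝ) :
    PE V μ (fun z : κ → ℤ => g (z j) (z l)) = ∑ a ∈ V, μ a * ∑ c ∈ V, μ c * g a c := by
  rw [PE_resample V μ hμ l]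
  simp only [Function.update_self, Function.update_of_ne hjl]
  exact PE_one V μ hμ j (fun a => ∑ c ∈ V, μ c * g a c)

lemma PE_equiv {ι : Type*} [Fintype ι] [DecidableEq ι] (V : Finset ℤ) (μ : ℤ → ℝ) (e : ι ≃ κ)
    (F : (ι → ℤ) → ℝ) : PE V μ (fun z : κ → ℤ => F (z ∘ e)) = PE V μ F := by
  unfold PE
  refine sum_nbij' (fun z => z ∘ e) (fun y => y ∘ e.symm) ?_ ?_ ?_ ?_ ?_
  · intro z hz
    simp only [Fintype.mem_piFinset] at hz ⊢
    exact fun i => hz _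
  · intro z hz
    simp only [Fintype.mem_piFinset] at hz ⊢
    exact fun i => hz _
  · intro z _; funext i; simp
  · intro z _; funext i; simp
  · intro z _
    congr 1
    exact (Equiv.prod_comp e (fun j => μ (z j))).symm

lemma PE_sumType {ι : Type*} [Fintype ι] [DecidableEq ι] (V : Finset ℤ) (μ : ℤ → ℝ)
    (G : (ι → ℤ) → (κ → ℤ) → ℝ) :
    PE V μ (fun y : ι ⊕ κ → ℤ => G (y ∘ Sum.inl) (y ∘ Sum.inr)) =
      PE V μ (fun T : ι → ℤ => PE V μ (G T)) := by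
  unfold PE
  simp_rw [mul_sum]
  rw [← sum_product']
  refine sum_nbij' (fun y => (y ∘ Sum.inl, y ∘ Sum.inr)) (fun x => Sum.elim x.1 x.2) ?_ ?_ ?_ ?_ ?_
  · intro z hz
    simp only [mem_product, Fintype.mem_piFinset] at hz ⊢
    exact ⟨fun i => hz _, fun i => hz _⟩
  · intro x hx
    simp only [mem_product, Fintype.mem_piFinset] at hx ⊢
    rintro (i | i)
    · exact hx.1 i
    · exact hx.2 i
  · intro z _; funext i; rcases i with i | i <;> rfl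
  · intro x _; rfl
  · intro z _
    rw [Fintype.prod_sum_type]
    simp only [Function.comp]
    ring

end PE

end Pool.Agent.Lib.SidonDis
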