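import Pool.Agent.Lib.MP_ef4e97_co.Dis1

set_option autoImplicit false

open Finset

namespace Pool.Agent.Lib.SidonDis

/-- A family of subsets of `V`, each with a chosen Sidon subset of size `t`. -/
structure Fam (V : Finset ℤ) (t : ℕ) where
  Ω : Finset (Finset ℤ)
  S : Finset ℤ → Finset ℤ
  sub : ∀ A ∈ Ω, S A ⊆ A
  subV : ∀ A ∈ Ω, A ⊆ V
  card : ∀ A ∈ Ω, (S A).card = t
  sid : ∀ A ∈ Ω, Sid (S A)
  tpos : 0 < t

def im {κ : Type*} [Fintype κ] (z : κ → ℤ) : Finset ℤ := univ.image z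

lemma mem_im {κ : Type*} [Fintype κ] (z : κ → ℤ) (j : κ) : z j ∈ im z :=
  mem_image.2 ⟨j, mem_univ _, rfl⟩

lemma im_subset {κ : Type*} [Fintype κ] {z : κ → ℤ} {S : Finset ℤ} :
    im z ⊆ S ↔ ∀ j, z j ∈ S := by
  simp [im, image_subset_iff]

lemma im_sum {ι κ : Type*} [Fintype ι] [Fintype κ] (y : ι ⊕ κ → ℤ) :
    im y = im (y ∘ Sum.inl) ∪ im (y ∘ Sum.inr) := by
  ext x
  simp [im]

lemma im_equiv {ι κ : Type*} [Fintype ι] [Fintype κ] (e : ι ≃ κ) (y : κ → ℤ) :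
    im (y ∘ e) = im y := by
  ext x
  simp only [im, mem_image, mem_univ, true_and, Function.comp]
  exact ⟨fun ⟨i, h⟩ => ⟨_, h⟩, fun ⟨j, h⟩ => ⟨e.symm j, by simpa using h⟩⟩

lemma im_unit (z : Unit → ℤ) : im z = {z ()} := by
  ext x; simp [im]

lemma card_im_le {κ : Type*} [Fintype κ] (z : κ → ℤ) : (im z).card ≤ Fintype.card κ :=
  card_image_le

namespace Fam

variable {V : Finset ℤ} {t : ℕ} (F : Fam V t)

def Om (U : Finset ℤ) : Finset (Finset ℤ) := F.Ω.filter (fun A => U ⊆ F.S A)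

noncomputable def N (U : Finset ℤ) : ℝ := (F.Om U).card

noncomputable def mu (U : Finset ℤ) (x : ℤ) : ℝ := F.N (insert x U) / (t * F.N U)

include F in
lemma tpos' : (0 : ℝ) < t := by exact_mod_cast F.tpos

lemma mem_Om {U A : Finset ℤ} : A ∈ F.Om U ↔ A ∈ F.Ω ∧ U ⊆ F.S A := mem_filter

lemma N_nonneg (U : Finset ℤ) : 0 ≤ F.N U := Nat.cast_nonneg _

lemma N_anti {U W : Finset ℤ} (h : U ⊆ W) : F.N W ≤ F.N U := by
  unfold N
  exact_mod_cast card_le_card fun A hA => by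
    rw [mem_Om] at hA ⊢; exact ⟨hA.1, h.trans hA.2⟩

lemma SV {A : Finset ℤ} (hA : A ∈ F.Ω) : F.S A ⊆ V := (F.sub A hA).trans (F.subV A hA)

lemma N_union (U W : Finset ℤ) :
    F.N (U ∪ W) = ∑ A ∈ F.Om U, if W ⊆ F.S A then (1 : ℝ) else 0 := by
  rw [sum_boole]
  unfold N
  congr 2
  ext A
  simp only [mem_filter, mem_Om, union_subset_iff]
  tauto

lemma exists_of_N_pos {U : Finset ℤ} (h : 0 < F.N U) : ∃ A ∈ F.Ω, U ⊆ F.S A := by
  unfold N at h
  obtain ⟨A, hA⟩ := card_pos.1 (by exact_mod_cast h : 0 < (F.Om U).card)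
  exact ⟨A, (F.mem_Om.1 hA).1, (F.mem_Om.1 hA).2⟩

lemma one_le_N {U : Finset ℤ} (h : 0 < F.N U) : 1 ≤ F.N U := by
  unfold N at *
  exact_mod_cast h

lemma mu_nonneg (U : Finset ℤ) (x : ℤ) : 0 ≤ F.mu U x :=
  div_nonneg (F.N_nonneg _) (mul_nonneg F.tpos'.le (F.N_nonneg _))

lemma mu_le (U : Finset ℤ) (x : ℤ) : F.mu U x ≤ 1 / t := by
  unfold mu
  rcases (F.N_nonneg U).eq_or_lt with h | h
  · rw [← h]; simp
  · rw [div_le_div_iff₀ (mul_pos F.tpos' h) F.tpos']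
    have := F.N_anti (subset_insert x U)
    nlinarith [F.tpos']

lemma sum_S_eq (U : Finset ℤ) (g : ℤ → ℝ) :
    ∑ A ∈ F.Om U, ∑ a ∈ F.S A, g a = ∑ x ∈ V, F.N (insert x U) * g x := by
  have h1 : ∀ A ∈ F.Om U, ∑ a ∈ F.S A, g a =
      ∑ x ∈ V, (if {x} ⊆ F.S A then (1 : ℝ) else 0) * g x := by
    intro A hA
    have hs := F.SV (F.mem_Om.1 hA).1
    simp only [singleton_subset_iff, ite_mul, one_mul, zero_mul]
    rw [← sum_filter, filter_mem_eq_inter, inter_eq_right.2 hs]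
  rw [sum_congr rfl h1, sum_comm]
  refine sum_congr rfl fun x _ => ?_
  rw [← sum_mul, ← F.N_union, union_comm, ← insert_eq]

lemma hsum {A : Finset ℤ} (hA : A ∈ F.Ω) : ∑ _x ∈ F.S A, (1 / t : ℝ) = 1 := by
  rw [sum_const, F.card A hA, nsmul_eq_mul]
  field_simp [F.tpos'.ne']

lemma sum_mu {U : Finset ℤ} (h : 0 < F.N U) : ∑ x ∈ V, F.mu U x = 1 := by
  have h1 := F.sum_S_eq U (fun _ => (1 / t : ℝ))
  rw [sum_congr rfl (fun A hA => F.hsum (F.mem_Om.1 hA).1)] at h1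
  simp only [sum_const, nsmul_eq_mul, mul_one] at h1
  have h2 : ∑ x ∈ V, F.mu U x = (∑ x ∈ V, F.N (insert x U) * (1 / t)) / F.N U := by
    rw [sum_div]
    refine sum_congr rfl fun x _ => ?_
    unfold mu
    field_simp
  rw [h2, ← h1]
  exact div_self h.ne'

section Ex
variable {κ : Type*} [Fintype κ] [DecidableEq κ]

noncomputable def Ex (U : Finset ℤ) (G : (κ → ℤ) → ℝ) : ℝ :=
  (∑ A ∈ F.Om U, PE (F.S A) (fun _ => (1 / t : ℝ)) G) / F.N U

noncomputable def rho (U : Finset ℤ) (z : κ → ℤ) : ℝ :=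
  F.N (U ∪ im z) / ((t : ℝ) ^ Fintype.card κ * F.N U)

lemma sum_PE_eq (U : Finset ℤ) (G : (κ → ℤ) → ℝ) :
    ∑ A ∈ F.Om U, PE (F.S A) (fun _ => (1 / t : ℝ)) G =
      ∑ z ∈ Fintype.piFinset (fun _ : κ => V),
        F.N (U ∪ im z) / (t : ℝ) ^ Fintype.card κ * G z := by
  have h1 : ∀ A ∈ F.Om U, PE (F.S A) (fun _ => (1 / t : ℝ)) G =
      ∑ z ∈ Fintype.piFinset (fun _ : κ => V),
        (if im z ⊆ F.S A then (1 : ℝ) else 0) * (1 / (t : ℝ) ^ Fintype.card κ * G z) := by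
    intro A hA
    have hs := F.SV (F.mem_Om.1 hA).1
    simp only [ite_mul, one_mul, zero_mul]
    rw [← sum_filter]
    unfold PE
    refine sum_congr ?_ fun z _ => ?_
    · ext z
      simp only [Fintype.mem_piFinset, mem_filter, im_subset]
      exact ⟨fun h => ⟨fun j => hs (h j), h⟩, fun h => h.2⟩
    · simp [prod_const]
  rw [sum_congr rfl h1, sum_comm]
  refine sum_congr rfl fun z _ => ?_
  rw [← sum_mul, ← F.N_union]
  ring

lemma Ex_eq (U : Finset ℤ) (G : (κ → ℤ) → ℝ) :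
    F.Ex U G = ∑ z ∈ Fintype.piFinset (fun _ : κ => V), F.rho U z * G z := by
  unfold Ex
  rw [sum_PE_eq, sum_div]
  refine sum_congr rfl fun z _ => ?_
  unfold rho
  rw [← div_div]
  ring

lemma rho_nonneg (U : Finset ℤ) (z : κ → ℤ) : 0 ≤ F.rho U z :=
  div_nonneg (F.N_nonneg _) (mul_nonneg (pow_nonneg F.tpos'.le _) (F.N_nonneg _))

lemma rho_pos {U : Finset ℤ} {z : κ → ℤ} (h : 0 < F.rho U z) : 0 < F.N (U ∪ im z) := by
  rcases (F.N_nonneg (U ∪ im z)).eq_or_lt with h0 | h0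
  · unfold rho at h; rw [← h0] at h; simp at h
  · exact h0

lemma Ex_const {U : Finset ℤ} (h : 0 < F.N U) (c : ℝ) : F.Ex U (fun _ : κ → ℤ => c) = c := by
  unfold Ex
  rw [sum_congr rfl (fun A hA => PE_const _ _ (F.hsum (F.mem_Om.1 hA).1) c)]
  simp only [sum_const, nsmul_eq_mul]
  unfold N at *
  field_simp

lemma sum_rho {U : Finset ℤ} (h : 0 < F.N U) :
    ∑ z ∈ Fintype.piFinset (fun _ : κ => V), F.rho U z = 1 := by
  have := F.Ex_const (κ := κ) h 1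
  rw [Ex_eq] at this
  simpa using this

lemma Ex_mono (U : Finset ℤ) {G H : (κ → ℤ) → ℝ}
    (h : ∀ z ∈ Fintype.piFinset (fun _ : κ => V), 0 < F.N (U ∪ im z) → G z ≤ H z) :
    F.Ex U G ≤ F.Ex U H := by
  rw [Ex_eq, Ex_eq]
  refine sum_le_sum fun z hz => ?_
  rcases (F.rho_nonneg U z).eq_or_lt with h0 | h0
  · rw [← h0]; simp
  · exact mul_le_mul_of_nonneg_left (h z hz (F.rho_pos h0)) h0.le

lemma Ex_congr (U : Finset ℤ) {G H : (κ → ℤ) → ℝ}
    (h : ∀ z ∈ Fintype.piFinset (fun _ : κ => V), 0 < F.N (U ∪ im z) → G z = H z) :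
    F.Ex U G = F.Ex U H :=
  le_antisymm (F.Ex_mono U fun z hz h0 => (h z hz h0).le)
    (F.Ex_mono U fun z hz h0 => (h z hz h0).ge)

lemma Ex_add (U : Finset ℤ) (G H : (κ → ℤ) → ℝ) :
    F.Ex U (fun z => G z + H z) = F.Ex U G + F.Ex U H := by
  simp only [Ex_eq, ← sum_add_distrib]; exact sum_congr rfl fun z _ => by ring

lemma Ex_sub (U : Finset ℤ) (G H : (κ → ℤ) → ℝ) :
    F.Ex U (fun z => G z - H z) = F.Ex U G - F.Ex U H := by
  simp only [Ex_eq, ← sum_sub_distrib]; exact sum_congr rfl fun z _ => by ring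

lemma Ex_mul (U : Finset ℤ) (c : ℝ) (G : (κ → ℤ) → ℝ) :
    F.Ex U (fun z => c * G z) = c * F.Ex U G := by
  simp only [Ex_eq, mul_sum]; exact sum_congr rfl fun z _ => by ring

lemma Ex_sum {β : Type*} (U : Finset ℤ) (s : Finset β) (G : β → (κ → ℤ) → ℝ) :
    F.Ex U (fun z => ∑ b ∈ s, G b z) = ∑ b ∈ s, F.Ex U (G b) := by
  simp only [Ex_eq, mul_sum]; rw [sum_comm]

lemma Ex_one (U : Finset ℤ) (j : κ) (g : ℤ → ℝ) :
    F.Ex U (fun z : κ → ℤ => g (z j)) = ∑ x ∈ V, F.mu U x * g x := by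
  unfold Ex
  rw [sum_congr rfl (fun A hA => PE_one _ _ (F.hsum (F.mem_Om.1 hA).1) j g), sum_S_eq, sum_div]
  refine sum_congr rfl fun x _ => ?_
  unfold mu
  rw [← div_div]
  ring

lemma Ex_equiv {ι : Type*} [Fintype ι] [DecidableEq ι] (U : Finset ℤ) (e : ι ≃ κ)
    (G : (ι → ℤ) → ℝ) : F.Ex U (fun z : κ → ℤ => G (z ∘ e)) = F.Ex U G := by
  unfold Ex
  simp only [PE_equiv]

lemma tower {ι : Type*} [Fintype ι] [DecidableEq ι] (U : Finset ℤ)
    (G : (ι → ℤ) → (κ → ℤ) → ℝ) :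
    F.Ex U (fun y : ι ⊕ κ → ℤ => G (y ∘ Sum.inl) (y ∘ Sum.inr)) =
      F.Ex U (fun T : ι → ℤ => F.Ex (U ∪ im T) (G T)) := by
  have key : ∑ A ∈ F.Om U, PE (F.S A) (fun _ => (1 / t : ℝ))
      (fun T : ι → ℤ => PE (F.S A) (fun _ => (1 / t : ℝ)) (G T)) =
      ∑ T ∈ Fintype.piFinset (fun _ : ι => V), 1 / (t : ℝ) ^ Fintype.card ι *
        ∑ A ∈ F.Om (U ∪ im T), PE (F.S A) (fun _ => (1 / t : ℝ)) (G T) := by
    have h1 : ∀ A ∈ F.Om U, PE (F.S A) (fun _ => (1 / t : ℝ))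
        (fun T : ι → ℤ => PE (F.S A) (fun _ => (1 / t : ℝ)) (G T)) =
        ∑ T ∈ Fintype.piFinset (fun _ : ι => V), if im T ⊆ F.S A then
          1 / (t : ℝ) ^ Fintype.card ι * PE (F.S A) (fun _ => (1 / t : ℝ)) (G T) else 0 := by
      intro A hA
      have hs := F.SV (F.mem_Om.1 hA).1
      rw [← sum_filter]
      conv_lhs => unfold PE
      refine sum_congr ?_ fun z _ => ?_
      · ext z
        simp only [Fintype.mem_piFinset, mem_filter, im_subset]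
        exact ⟨fun h => ⟨fun j => hs (h j), h⟩, fun h => h.2⟩
      · simp [prod_const, PE]
    rw [sum_congr rfl h1, sum_comm]
    refine sum_congr rfl fun T _ => ?_
    rw [← sum_filter, mul_sum]
    refine sum_congr ?_ fun _ _ => rfl
    ext A
    simp only [mem_filter, mem_Om, union_subset_iff]
    tauto
  conv_lhs => unfold Ex
  simp only [PE_sumType]
  rw [key]
  conv_rhs => unfold Ex
  rw [sum_PE_eq]
  congr 1
  refine sum_congr rfl fun T _ => ?_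
  rcases (F.N_nonneg (U ∪ im T)).eq_or_lt with h0 | h0
  · have : F.Om (U ∪ im T) = ∅ := by
      unfold N at h0
      exact card_eq_zero.1 (by exact_mod_cast h0.symm)
    rw [this]; simp
  · field_simp

lemma exists_le {U : Finset ℤ} (h : 0 < F.N U) (G : (κ → ℤ) → ℝ) (c : ℝ)
    (hc : F.Ex U G ≤ c) : ∃ z : κ → ℤ, 0 < F.N (U ∪ im z) ∧ G z ≤ c := by
  by_contra hn
  push Not at hn
  have h1 : ∑ z ∈ Fintype.piFinset (fun _ : κ => V), F.rho U z * c <
      ∑ z ∈ Fintype.piFinset (fun _ : κ => V), F.rho U z * G z := by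
    apply sum_lt_sum
    · intro z _
      rcases (F.rho_nonneg U z).eq_or_lt with h0 | h0
      · rw [← h0]; simp
      · exact mul_le_mul_of_nonneg_left (hn z (F.rho_pos h0)).le h0.le
    · have := F.sum_rho (κ := κ) h
      obtain ⟨z, hz, h0⟩ : ∃ z ∈ Fintype.piFinset (fun _ : κ => V), 0 < F.rho U z := by
        by_contra h2
        push Not at h2
        have := sum_nonpos h2
        linarith
      exact ⟨z, hz, mul_lt_mul_of_pos_left (hn z (F.rho_pos h0)) h0⟩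
  rw [← sum_mul, F.sum_rho h, ← Ex_eq] at h1
  linarith

end Ex

end Fam

end Pool.Agent.Lib.SidonDis
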