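import Pool.Agent.Lib.MP_ef4e97_co.Dis2

set_option autoImplicit false

open Finset

namespace Pool.Agent.Lib.SidonDis

namespace Fam

variable {V : Finset ℤ} {t : ℕ} (F : Fam V t)

noncomputable def KLb (κ : Type) [Fintype κ] [DecidableEq κ] (U : Finset ℤ) : ℝ :=
  kl (Fintype.piFinset (fun _ : κ => V)) (F.rho U) (fun z => ∏ j, F.mu U (z j))

noncomputable def KL1 (U Y : Finset ℤ) : ℝ := kl V (F.mu (U ∪ Y)) (F.mu U)

noncomputable def l1 (U W : Finset ℤ) : ℝ := ∑ x ∈ V, F.mu W x * Real.log (F.N (insert x U))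

noncomputable def L (m : ℕ) : ℝ := F.Ex ∅ (fun y : Fin m → ℤ => Real.log (F.N (im y)))

lemma mu_pos_iff {U : Finset ℤ} {x : ℤ} : 0 < F.mu U x ↔ 0 < F.N (insert x U) := by
  constructor
  · intro h
    rcases (F.N_nonneg (insert x U)).eq_or_lt with h0 | h0
    · unfold mu at h; rw [← h0] at h; simp at h
    · exact h0
  · intro h
    exact div_pos h (mul_pos F.tpos' (lt_of_lt_of_le h (F.N_anti (subset_insert _ _))))

section B
variable {κ : Type} [Fintype κ] [DecidableEq κ]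

omit [DecidableEq κ] in
lemma N_insert_pos {U : Finset ℤ} {z : κ → ℤ} (h : 0 < F.N (U ∪ im z)) (j : κ) :
    0 < F.N (insert (z j) U) := by
  refine lt_of_lt_of_le h (F.N_anti ?_)
  exact insert_subset (mem_union_right _ (mem_im z j)) subset_union_left

lemma sum_prod_mu {U : Finset ℤ} (h : 0 < F.N U) :
    ∑ z ∈ Fintype.piFinset (fun _ : κ => V), ∏ j, F.mu U (z j) = 1 := by
  have := PE_const (κ := κ) V (F.mu U) (F.sum_mu h) 1
  simpa [PE] using this

lemma hel_KLb {U : Finset ℤ} (h : 0 < F.N U) :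
    ∑ z ∈ Fintype.piFinset (fun _ : κ => V),
      (Real.sqrt (F.rho U z) - Real.sqrt (∏ j, F.mu U (z j))) ^ 2 ≤ F.KLb κ U :=
  hel_le_kl _ _ _ (fun z _ => F.rho_nonneg U z)
    (fun _ _ => prod_nonneg fun _ _ => F.mu_nonneg _ _)
    (fun _ _ h0 => prod_pos fun j _ => F.mu_pos_iff.2 (F.N_insert_pos (F.rho_pos h0) j))
    (F.sum_rho h) (F.sum_prod_mu h)

lemma KLb_nonneg {U : Finset ℤ} (h : 0 < F.N U) : 0 ≤ F.KLb κ U :=
  le_trans (sum_nonneg fun _ _ => sq_nonneg _) (F.hel_KLb h)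

lemma transfer1 {U : Finset ℤ} (h : 0 < F.N U) (g : (κ → ℤ) → ℝ) (M : ℝ) (hM : 0 ≤ M)
    (g0 : ∀ z ∈ Fintype.piFinset (fun _ : κ => V), 0 ≤ g z)
    (gM : ∀ z ∈ Fintype.piFinset (fun _ : κ => V), g z ≤ M) :
    PE V (F.mu U) g ≤ 2 * F.Ex U g + 2 * M * F.KLb κ U := by
  rw [Ex_eq]
  exact transfer_aux _ _ _ (fun z _ => F.rho_nonneg U z)
    (fun _ _ => prod_nonneg fun _ _ => F.mu_nonneg _ _) g M _ hM g0 gM (F.hel_KLb h)

lemma transfer2 {U : Finset ℤ} (h : 0 < F.N U) (g : (κ → ℤ) → ℝ) (M : ℝ) (hM : 0 ≤ M)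
    (g0 : ∀ z ∈ Fintype.piFinset (fun _ : κ => V), 0 ≤ g z)
    (gM : ∀ z ∈ Fintype.piFinset (fun _ : κ => V), g z ≤ M) :
    F.Ex U g ≤ 2 * PE V (F.mu U) g + 2 * M * F.KLb κ U := by
  rw [Ex_eq]
  refine transfer_aux _ _ _ (fun _ _ => prod_nonneg fun _ _ => F.mu_nonneg _ _)
    (fun z _ => F.rho_nonneg U z) g M _ hM g0 gM ?_
  refine le_trans (le_of_eq ?_) (F.hel_KLb h)
  exact sum_congr rfl fun z _ => by ring

lemma KLb_eq {U : Finset ℤ} (h : 0 < F.N U) :
    F.KLb κ U = F.Ex U (fun z : κ → ℤ => Real.log (F.N (U ∪ im z))) +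
      ((Fintype.card κ : ℝ) - 1) * Real.log (F.N U) - Fintype.card κ * F.l1 U U := by
  have h1 : F.KLb κ U = F.Ex U (fun z : κ → ℤ =>
      Real.log (F.rho U z / ∏ j, F.mu U (z j))) := by
    rw [Ex_eq]; rfl
  have h2 : F.Ex U (fun z : κ → ℤ => Real.log (F.rho U z / ∏ j, F.mu U (z j))) =
      F.Ex U (fun z : κ → ℤ => (Real.log (F.N (U ∪ im z)) +
        ((Fintype.card κ : ℝ) - 1) * Real.log (F.N U)) -
        ∑ j : κ, Real.log (F.N (insert (z j) U))) := by
    refine F.Ex_congr U fun z _ h0 => ?_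
    have hp : ∀ j, 0 < F.mu U (z j) := fun j => F.mu_pos_iff.2 (F.N_insert_pos h0 j)
    have ht := F.tpos'
    have hr : 0 < F.rho U z := div_pos h0 (by positivity)
    rw [Real.log_div hr.ne' (prod_pos fun j _ => hp j).ne', Real.log_prod (fun j _ => (hp j).ne')]
    have e1 : ∀ j, Real.log (F.mu U (z j)) =
        Real.log (F.N (insert (z j) U)) - (Real.log t + Real.log (F.N U)) := by
      intro j
      unfold mu
      rw [Real.log_div (F.N_insert_pos h0 j).ne' (by positivity), Real.log_mul ht.ne' h.ne']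
    have e2 : Real.log (F.rho U z) = Real.log (F.N (U ∪ im z)) -
        (Fintype.card κ * Real.log t + Real.log (F.N U)) := by
      unfold rho
      rw [Real.log_div h0.ne' (by positivity), Real.log_mul (by positivity) h.ne', Real.log_pow]
    simp only [e1, e2, sum_sub_distrib, sum_const, card_univ, nsmul_eq_mul]
    ring
  rw [h1, h2, Ex_sub, Ex_add, F.Ex_const h, Ex_sum]
  have e3 : ∀ j : κ, F.Ex U (fun z : κ → ℤ => Real.log (F.N (insert (z j) U))) = F.l1 U U :=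
    fun j => F.Ex_one U j (fun x => Real.log (F.N (insert x U)))
  simp only [e3, sum_const, card_univ, nsmul_eq_mul]

end B

lemma hel_KL1 {U Y : Finset ℤ} (h : 0 < F.N (U ∪ Y)) :
    ∑ x ∈ V, (Real.sqrt (F.mu (U ∪ Y) x) - Real.sqrt (F.mu U x)) ^ 2 ≤ F.KL1 U Y :=
  hel_le_kl _ _ _ (fun _ _ => F.mu_nonneg _ _) (fun _ _ => F.mu_nonneg _ _)
    (fun _ _ h0 => F.mu_pos_iff.2 (lt_of_lt_of_le (F.mu_pos_iff.1 h0)
      (F.N_anti (insert_subset_insert _ subset_union_left))))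
    (F.sum_mu h) (F.sum_mu (lt_of_lt_of_le h (F.N_anti subset_union_left)))

lemma KL1_eq {U Y : Finset ℤ} (h : 0 < F.N (U ∪ Y)) :
    F.KL1 U Y = F.l1 (U ∪ Y) (U ∪ Y) - Real.log (F.N (U ∪ Y)) - F.l1 U (U ∪ Y) +
      Real.log (F.N U) := by
  have hU : 0 < F.N U := lt_of_lt_of_le h (F.N_anti subset_union_left)
  have ht := F.tpos'
  have h1 : F.KL1 U Y = ∑ x ∈ V, (F.mu (U ∪ Y) x * Real.log (F.N (insert x (U ∪ Y))) -
      F.mu (U ∪ Y) x * Real.log (F.N (insert x U)) +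
      F.mu (U ∪ Y) x * (Real.log (F.N U) - Real.log (F.N (U ∪ Y)))) := by
    unfold KL1 kl
    refine sum_congr rfl fun x _ => ?_
    rcases (F.mu_nonneg (U ∪ Y) x).eq_or_lt with h0 | h0
    · rw [← h0]; simp
    · have p1 := F.mu_pos_iff.1 h0
      have p2 : 0 < F.N (insert x U) :=
        lt_of_lt_of_le p1 (F.N_anti (insert_subset_insert _ subset_union_left))
      rw [Real.log_div h0.ne' (F.mu_pos_iff.2 p2).ne']
      have e1 : Real.log (F.mu (U ∪ Y) x) =
          Real.log (F.N (insert x (U ∪ Y))) - (Real.log t + Real.log (F.N (U ∪ Y))) := by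
        unfold mu
        rw [Real.log_div p1.ne' (by positivity), Real.log_mul ht.ne' h.ne']
      have e2 : Real.log (F.mu U x) =
          Real.log (F.N (insert x U)) - (Real.log t + Real.log (F.N U)) := by
        unfold mu
        rw [Real.log_div p2.ne' (by positivity), Real.log_mul ht.ne' hU.ne']
      rw [e1, e2]; ring
  rw [h1, sum_add_distrib, sum_sub_distrib, ← sum_mul, F.sum_mu h]
  unfold l1
  ring

section T
variable {ι : Type} [Fintype ι] [DecidableEq ι] {κ : Type} [Fintype κ] [DecidableEq κ]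

lemma L_eq : F.Ex ∅ (fun y : ι → ℤ => Real.log (F.N (im y))) = F.L (Fintype.card ι) := by
  unfold L
  rw [← F.Ex_equiv ∅ (Fintype.equivFin ι) (fun y : ι → ℤ => Real.log (F.N (im y)))]
  simp only [im_equiv]

lemma Ex_union_log : F.Ex ∅ (fun T : ι → ℤ => F.Ex (im T)
    (fun z : κ → ℤ => Real.log (F.N (im T ∪ im z)))) =
    F.L (Fintype.card ι + Fintype.card κ) := by
  have := F.tower (κ := κ) (ι := ι) ∅ (fun T z => Real.log (F.N (im T ∪ im z)))
  simp only [empty_union, ← im_sum] at this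
  rw [← this, L_eq, Fintype.card_sum]

lemma l1_eq_Ex (U W : Finset ℤ) :
    F.l1 U W = F.Ex W (fun z : Unit → ℤ => Real.log (F.N (U ∪ im z))) := by
  unfold l1
  rw [← F.Ex_one W () (fun x => Real.log (F.N (insert x U)))]
  congr 1
  funext z
  rw [im_unit, union_comm, ← insert_eq]

lemma Ex_l1 : F.Ex ∅ (fun T : ι → ℤ => F.l1 (im T) (im T)) = F.L (Fintype.card ι + 1) := by
  simp only [l1_eq_Ex]
  rw [Ex_union_log]; simp

lemma Ex_l1' (U : Finset ℤ) :
    F.Ex U (fun Y : κ → ℤ => F.l1 U (U ∪ im Y)) = F.l1 U U := by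
  have h1 := F.tower (ι := κ) (κ := Unit) U
    (fun _ z => Real.log (F.N (insert (z ()) U)))
  have h2 := F.Ex_one (κ := κ ⊕ Unit) U (Sum.inr ()) (fun x => Real.log (F.N (insert x U)))
  have h3 : ∀ Y : κ → ℤ, F.Ex (U ∪ im Y) (fun z : Unit → ℤ => Real.log (F.N (insert (z ()) U))) =
      F.l1 U (U ∪ im Y) := fun Y => F.Ex_one _ () (fun x => Real.log (F.N (insert x U)))
  simp only [h3] at h1
  rw [← h1]
  exact h2

lemma Ex_KLb : F.Ex ∅ (fun T : ι → ℤ => F.KLb κ (im T)) =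
    F.L (Fintype.card ι + Fintype.card κ) + ((Fintype.card κ : ℝ) - 1) * F.L (Fintype.card ι) -
      Fintype.card κ * F.L (Fintype.card ι + 1) := by
  rw [F.Ex_congr ∅ (fun T _ h0 => F.KLb_eq (κ := κ) (by simpa using h0))]
  rw [Ex_sub, Ex_add, Ex_mul, Ex_mul, Ex_union_log, L_eq, Ex_l1]

lemma Ex_KL1 : F.Ex ∅ (fun T : ι → ℤ => F.Ex (im T) (fun Y : κ → ℤ => F.KL1 (im T) (im Y))) =
    F.L (Fintype.card ι + Fintype.card κ + 1) - F.L (Fintype.card ι + Fintype.card κ) -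
      F.L (Fintype.card ι + 1) + F.L (Fintype.card ι) := by
  have h1 : ∀ T ∈ Fintype.piFinset (fun _ : ι => V), 0 < F.N (∅ ∪ im T) →
      F.Ex (im T) (fun Y : κ → ℤ => F.KL1 (im T) (im Y)) =
      F.Ex (im T) (fun Y : κ → ℤ => F.l1 (im T ∪ im Y) (im T ∪ im Y)) -
        F.Ex (im T) (fun Y : κ → ℤ => Real.log (F.N (im T ∪ im Y))) - F.l1 (im T) (im T) +
        Real.log (F.N (im T)) := by
    intro T _ h0
    rw [empty_union] at h0
    rw [F.Ex_congr (im T) (fun Y _ h2 => F.KL1_eq h2), Ex_add, Ex_sub, Ex_sub, F.Ex_const h0,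
      Ex_l1']
  rw [F.Ex_congr ∅ h1, Ex_add, Ex_sub, Ex_sub, Ex_union_log, Ex_l1, L_eq]
  have := F.tower (κ := κ) (ι := ι) ∅ (fun T z => F.l1 (im T ∪ im z) (im T ∪ im z))
  simp only [empty_union, ← im_sum] at this
  rw [← this, Ex_l1, Fintype.card_sum]

end T

noncomputable def a (j : ℕ) : ℝ := F.L j - F.L (j + 1)

lemma Ex_nonneg {κ : Type} [Fintype κ] [DecidableEq κ] (U : Finset ℤ) {G : (κ → ℤ) → ℝ}
    (h : ∀ z ∈ Fintype.piFinset (fun _ : κ => V), 0 < F.N (U ∪ im z) → 0 ≤ G z) :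
    0 ≤ F.Ex U G := by
  have := F.Ex_mono U (G := fun _ => 0) h
  rw [Ex_eq] at this
  simpa using this

lemma a_anti (j : ℕ) : F.a (j + 1) ≤ F.a j := by
  have h1 := F.Ex_KLb (ι := Fin j) (κ := Fin 2)
  have h2 : 0 ≤ F.Ex ∅ (fun T : Fin j → ℤ => F.KLb (Fin 2) (im T)) :=
    F.Ex_nonneg ∅ fun T _ h0 => F.KLb_nonneg (by simpa using h0)
  simp only [Fintype.card_fin] at h1
  unfold a
  push_cast at h1
  linarith

lemma a_anti' {i j : ℕ} (h : i ≤ j) : F.a j ≤ F.a i := antitone_nat_of_succ_le F.a_anti h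

lemma a_nonneg (j : ℕ) : 0 ≤ F.a j := by
  have h1 := F.Ex_l1 (ι := Fin j)
  have h2 := F.L_eq (ι := Fin j)
  simp only [Fintype.card_fin] at h1 h2
  unfold a
  rw [← h1, ← h2, ← Ex_sub]
  refine F.Ex_nonneg ∅ fun T _ h0 => ?_
  rw [empty_union] at h0
  have : F.l1 (im T) (im T) ≤ ∑ x ∈ V, F.mu (im T) x * Real.log (F.N (im T)) := by
    unfold l1
    refine sum_le_sum fun x _ => ?_
    rcases (F.mu_nonneg (im T) x).eq_or_lt with h3 | h3
    · rw [← h3]; simp
    · exact mul_le_mul_of_nonneg_left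
        (Real.log_le_log (F.mu_pos_iff.1 h3) (F.N_anti (subset_insert _ _))) h3.le
  rw [← sum_mul, F.sum_mu h0] at this
  linarith

lemma L_zero (h : 0 < F.N ∅) : F.L 0 = Real.log (F.N ∅) := by
  unfold L
  have : ∀ y : Fin 0 → ℤ, im y = ∅ := fun y => by simp [im]
  simp only [this]
  exact F.Ex_const h _

lemma a_zero_le (h : 0 < F.N ∅) : F.a 0 ≤ Real.log V.card := by
  have hL1 : F.L 1 = F.l1 ∅ ∅ := by
    have h1 := F.Ex_l1 (ι := Fin 0)
    have : ∀ y : Fin 0 → ℤ, im y = ∅ := fun y => by simp [im]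
    simp only [this, Fintype.card_fin] at h1
    rw [F.Ex_const h] at h1
    exact h1.symm
  have hV : (0 : ℝ) < V.card := by
    obtain ⟨A, hA, _⟩ := F.exists_of_N_pos h
    have := card_le_card (F.SV hA)
    rw [F.card A hA] at this
    exact_mod_cast lt_of_lt_of_le F.tpos this
  have ht := F.tpos'
  have ht1 : (1 : ℝ) ≤ t := by exact_mod_cast F.tpos
  have hk := kl_nonneg V (F.mu ∅) (fun _ => 1 / (V.card : ℝ)) (fun _ _ => F.mu_nonneg _ _)
    (fun _ _ => by positivity) (fun _ _ _ => by positivity) (F.sum_mu h)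
    (by rw [sum_const, nsmul_eq_mul]; field_simp)
  have h2 : kl V (F.mu ∅) (fun _ => 1 / (V.card : ℝ)) =
      ∑ x ∈ V, (F.mu ∅ x * Real.log (F.N (insert x ∅)) +
        F.mu ∅ x * (Real.log V.card - Real.log t - Real.log (F.N ∅))) := by
    unfold kl
    refine sum_congr rfl fun x _ => ?_
    rcases (F.mu_nonneg ∅ x).eq_or_lt with h3 | h3
    · rw [← h3]; simp
    · have p1 := F.mu_pos_iff.1 h3
      have e1 : Real.log (F.mu ∅ x) =
          Real.log (F.N (insert x ∅)) - (Real.log t + Real.log (F.N ∅)) := by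
        unfold mu
        rw [Real.log_div p1.ne' (by positivity), Real.log_mul ht.ne' h.ne']
      rw [Real.log_div h3.ne' (by positivity), e1, one_div, Real.log_inv]
      ring
  rw [h2, sum_add_distrib, ← sum_mul, F.sum_mu h] at hk
  have := Real.log_nonneg ht1
  unfold a
  rw [hL1, F.L_zero h]
  unfold l1
  linarith

lemma L_sub (i m : ℕ) : F.L (i + m) = F.L i - ∑ j ∈ range m, F.a (i + j) := by
  induction m with
  | zero => simp
  | succ m ih => rw [sum_range_succ, ← add_assoc]; unfold a at *; linarith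

lemma L_ge (h : 0 < F.N ∅) (i : ℕ) : Real.log (F.N ∅) - i * Real.log V.card ≤ F.L i := by
  have h1 := F.L_sub 0 i
  have h2 : ∑ j ∈ range i, F.a (0 + j) ≤ ∑ _j ∈ range i, Real.log V.card :=
    sum_le_sum fun j _ => (F.a_anti' (Nat.zero_le _)).trans (F.a_zero_le h)
  rw [zero_add, F.L_zero h] at h1
  simp only [sum_const, card_range, nsmul_eq_mul] at h2
  linarith

lemma exists_time (h : 0 < F.N ∅) (J m : ℕ) (hJ : 0 < J) :
    ∃ i, J ≤ i ∧ i < 2 * J ∧ F.a i - F.a (i + m) ≤ m * Real.log V.card / J := by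
  by_contra hn
  push Not at hn
  have h1 : ∑ j ∈ range J, (m * Real.log V.card / J : ℝ) <
      ∑ j ∈ range J, (F.a (J + j) - F.a (J + j + m)) :=
    sum_lt_sum_of_nonempty ⟨0, mem_range.2 hJ⟩ fun j hj =>
      hn (J + j) (by omega) (by have := mem_range.1 hj; omega)
  have hJ' : (0 : ℝ) < J := by exact_mod_cast hJ
  rw [sum_const, card_range, nsmul_eq_mul, mul_div_cancel₀ _ hJ'.ne', sum_sub_distrib] at h1
  have e1 := F.L_sub J J
  have e2 := F.L_sub (J + m) J
  have e3 := F.L_sub J m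
  have e4 := F.L_sub (J + J) m
  have e5 : ∑ j ∈ range J, F.a (J + j + m) = ∑ j ∈ range J, F.a (J + m + j) :=
    sum_congr rfl fun j _ => by rw [add_right_comm]
  have e6 : J + m + J = J + J + m := by ring
  have h2 : ∑ j ∈ range m, F.a (J + j) ≤ ∑ _j ∈ range m, Real.log V.card :=
    sum_le_sum fun j _ => (F.a_anti' (Nat.zero_le _)).trans (F.a_zero_le h)
  have h3 : 0 ≤ ∑ j ∈ range m, F.a (J + J + j) := sum_nonneg fun j _ => F.a_nonneg _
  simp only [sum_const, card_range, nsmul_eq_mul] at h2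
  rw [e6] at e2
  linarith

lemma Ex_KLb_le {ι κ : Type} [Fintype ι] [DecidableEq ι] [Fintype κ] [DecidableEq κ] (D : ℝ)
    (hD : ∀ j < Fintype.card κ, F.a (Fintype.card ι) - F.a (Fintype.card ι + j) ≤ D) :
    F.Ex ∅ (fun T : ι → ℤ => F.KLb κ (im T)) ≤ Fintype.card κ * D := by
  rw [Ex_KLb, L_sub]
  have h1 : ∑ j ∈ range (Fintype.card κ), (F.a (Fintype.card ι) - F.a (Fintype.card ι + j)) ≤
      ∑ _j ∈ range (Fintype.card κ), D := sum_le_sum fun j hj => hD j (mem_range.1 hj)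
  simp only [sum_sub_distrib, sum_const, card_range, nsmul_eq_mul] at h1
  have : F.a (Fintype.card ι) = F.L (Fintype.card ι) - F.L (Fintype.card ι + 1) := rfl
  rw [this] at h1
  linarith

end Fam

end Pool.Agent.Lib.SidonDis
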