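import Pool.Agent.Lib.MP_ef4e97_co.Dis1

set_option autoImplicit false

open Finset

namespace Pool.Agent.Lib.SidonDis

noncomputable def rr (V : Finset ℤ) (μ : ℤ → ℝ) (h : ℤ) : ℝ :=
  ∑ x ∈ V, μ x * ∑ y ∈ V, μ y * (if x - y = h then 1 else 0)

noncomputable def ss (V : Finset ℤ) (μ : ℤ → ℝ) (σ : ℤ) : ℝ :=
  ∑ x ∈ V, μ x * ∑ y ∈ V, μ y * (if x + y = σ then 1 else 0)

/-- indicator of an unlinked additive quadruple -/
noncomputable def chi (U H Sg : Finset ℤ) (a b c d : ℤ) : ℝ :=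
  if a + b = c + d ∧ a ∉ U ∧ c ∉ U ∧ a - c ∉ H ∧ a - d ∉ H ∧ a + b ∉ Sg then 1 else 0

noncomputable def ee (V U H Sg : Finset ℤ) (μ : ℤ → ℝ) (a c x : ℤ) : ℝ :=
  ∑ b ∈ V, μ b * chi U H Sg a b c x

noncomputable def ff (V U H Sg : Finset ℤ) (μ : ℤ → ℝ) (a c : ℤ) : ℝ :=
  ∑ x ∈ V, μ x * ee V U H Sg μ a c x

noncomputable def EE (V U H Sg : Finset ℤ) (μ : ℤ → ℝ) : ℝ :=
  ∑ a ∈ V, μ a * ∑ c ∈ V, μ c * ff V U H Sg μ a c

lemma chi_nonneg (U H Sg : Finset ℤ) (a b c d : ℤ) : 0 ≤ chi U H Sg a b c d := by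
  unfold chi; split_ifs <;> norm_num

lemma chi_le (U H Sg : Finset ℤ) (a b c d : ℤ) (P : Prop) [Decidable P]
    (h : a + b = c + d → a ∉ U → c ∉ U → a - c ∉ H → a - d ∉ H → a + b ∉ Sg → P) :
    chi U H Sg a b c d ≤ if P then 1 else 0 := by
  unfold chi
  split_ifs with h1 h2
  · exact le_rfl
  · exact absurd (h h1.1 h1.2.1 h1.2.2.1 h1.2.2.2.1 h1.2.2.2.2.1 h1.2.2.2.2.2) h2
  · norm_num
  · exact le_rfl

lemma chi_symm (U H Sg : Finset ℤ) (hs : ∀ h ∈ H, -h ∈ H) (a b c d : ℤ) :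
    chi U H Sg a b c d = chi U H Sg c d a b := by
  have key : ∀ a b c d : ℤ,
      (a + b = c + d ∧ a ∉ U ∧ c ∉ U ∧ a - c ∉ H ∧ a - d ∉ H ∧ a + b ∉ Sg) →
      (c + d = a + b ∧ c ∉ U ∧ a ∉ U ∧ c - a ∉ H ∧ c - b ∉ H ∧ c + d ∉ Sg) := by
    rintro a b c d ⟨h1, h2, h3, h4, h5, h6⟩
    refine ⟨h1.symm, h3, h2, fun h => h4 ?_, ?_, h1 ▸ h6⟩
    · simpa using hs _ h
    · have : c - b = a - d := by linarith
      rwa [this]
  unfold chi
  exact if_congr ⟨key a b c d, key c d a b⟩ rfl rfl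

section W
variable {V U H Sg : Finset ℤ} {μ : ℤ → ℝ} {t τ : ℝ}

lemma ee_nonneg (h0 : ∀ x, 0 ≤ μ x) (a c x : ℤ) : 0 ≤ ee V U H Sg μ a c x :=
  sum_nonneg fun b _ => mul_nonneg (h0 b) (chi_nonneg _ _ _ _ _ _ _)

lemma ff_nonneg (h0 : ∀ x, 0 ≤ μ x) (a c : ℤ) : 0 ≤ ff V U H Sg μ a c :=
  sum_nonneg fun b _ => mul_nonneg (h0 b) (ee_nonneg h0 _ _ _)

lemma EE_nonneg (h0 : ∀ x, 0 ≤ μ x) : 0 ≤ EE V U H Sg μ :=
  sum_nonneg fun a _ => mul_nonneg (h0 a) (sum_nonneg fun c _ => mul_nonneg (h0 c)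
    (ff_nonneg h0 _ _))

lemma ee_le (h0 : ∀ x, 0 ≤ μ x) (h1 : ∀ x, μ x ≤ 1 / t) (a c x : ℤ) :
    ee V U H Sg μ a c x ≤ 1 / t := by
  have ht : 0 ≤ 1 / t := (h0 0).trans (h1 0)
  have : ee V U H Sg μ a c x ≤ ∑ b ∈ V, if b = c + x - a then 1 / t else 0 := by
    refine sum_le_sum fun b _ => ?_
    have := chi_le U H Sg a b c x (b = c + x - a) (fun h _ _ _ _ _ => by linarith)
    split_ifs at this ⊢ with h2
    · nlinarith [h0 b, h1 b, chi_nonneg U H Sg a b c x]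
    · nlinarith [h0 b, chi_nonneg U H Sg a b c x]
  refine this.trans ?_
  rw [sum_ite_eq']
  split_ifs
  · exact le_rfl
  · exact ht

lemma ff_le (h0 : ∀ x, 0 ≤ μ x) (hτ : 0 ≤ τ) (hr : ∀ h ∉ H, rr V μ h ≤ τ) (a c : ℤ) :
    ff V U H Sg μ a c ≤ τ := by
  by_cases h : a - c ∈ H
  · have : ff V U H Sg μ a c = 0 := by
      simp [ff, ee, chi, h]
    rw [this]; exact hτ
  · refine le_trans ?_ (hr _ h)
    refine sum_le_sum fun x _ => mul_le_mul_of_nonneg_left ?_ (h0 x)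
    refine sum_le_sum fun b _ => mul_le_mul_of_nonneg_left ?_ (h0 b)
    exact chi_le _ _ _ _ _ _ _ _ (fun h _ _ _ _ _ => by linarith)

lemma sum_a_ee (h0 : ∀ x, 0 ≤ μ x) (hτ : 0 ≤ τ) (hs : ∀ σ ∉ Sg, ss V μ σ ≤ τ) (c x : ℤ) :
    ∑ a ∈ V, μ a * ee V U H Sg μ a c x ≤ τ := by
  by_cases h : c + x ∈ Sg
  · have : ∀ a b, chi U H Sg a b c x = 0 := by
      intro a b
      unfold chi
      rw [if_neg]
      rintro ⟨h1, -, -, -, -, h2⟩
      exact h2 (h1 ▸ h)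
    simp [ee, this, hτ]
  · refine le_trans ?_ (hs _ h)
    refine sum_le_sum fun a _ => mul_le_mul_of_nonneg_left ?_ (h0 a)
    refine sum_le_sum fun b _ => mul_le_mul_of_nonneg_left ?_ (h0 b)
    exact chi_le _ _ _ _ _ _ _ _ (fun h _ _ _ _ _ => h)

lemma sum_c_ee (h0 : ∀ x, 0 ≤ μ x) (hτ : 0 ≤ τ) (hr : ∀ h ∉ H, rr V μ h ≤ τ) (a x : ℤ) :
    ∑ c ∈ V, μ c * ee V U H Sg μ a c x ≤ τ := by
  by_cases h : a - x ∈ H
  · simp [ee, chi, h, hτ]
  · refine le_trans ?_ (hr _ h)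
    refine sum_le_sum fun c _ => mul_le_mul_of_nonneg_left ?_ (h0 c)
    refine sum_le_sum fun b _ => mul_le_mul_of_nonneg_left ?_ (h0 b)
    exact chi_le _ _ _ _ _ _ _ _ (fun h _ _ _ _ _ => by linarith)

end W

section B
variable {κ : Type} [Fintype κ] [DecidableEq κ]

lemma deg_le (e : κ × κ → ℝ) (t : ℝ) (ht : 0 < t) (e0 : ∀ p, 0 ≤ e p) (e1 : ∀ p, e p ≤ 1 / t) :
    ∑ p ∈ (univ : Finset κ).offDiag, e p ≤ 3 / t + t * ∑ p ∈ (univ : Finset κ).offDiag,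
      ∑ q ∈ (univ : Finset κ).offDiag.filter (fun q => q ≠ p ∧ q ≠ p.swap), e p * e q := by
  set P := (univ : Finset κ).offDiag with hP
  set d := ∑ p ∈ P, e p with hd
  set R := ∑ p ∈ P, ∑ q ∈ P.filter (fun q => q ≠ p ∧ q ≠ p.swap), e p * e q with hR
  have hR0 : 0 ≤ R := sum_nonneg fun p _ => sum_nonneg fun q _ => mul_nonneg (e0 p) (e0 q)
  have hd0 : 0 ≤ d := sum_nonneg fun p _ => e0 p
  have h1 : d * d ≤ R + 2 / t * d := by
    rw [hd, sum_mul, mul_sum, hR, ← sum_add_distrib]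
    refine sum_le_sum fun p _ => ?_
    rw [← mul_sum, ← sum_filter_add_sum_filter_not P (fun q => q ≠ p ∧ q ≠ p.swap) e]
    have h2 : ∑ q ∈ P.filter (fun q => ¬ (q ≠ p ∧ q ≠ p.swap)), e q ≤ 2 / t := by
      have h3 : P.filter (fun q => ¬ (q ≠ p ∧ q ≠ p.swap)) ⊆ {p, p.swap} := by
        intro q hq
        simp only [mem_filter, mem_insert, mem_singleton] at hq ⊢
        tauto
      refine (sum_le_sum_of_subset_of_nonneg h3 fun q _ _ => e0 q).trans ?_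
      refine (sum_le_card_nsmul _ _ (1 / t) fun q _ => e1 q).trans ?_
      have : (({p, p.swap} : Finset (κ × κ)).card : ℝ) ≤ 2 := by exact_mod_cast card_le_two
      rw [nsmul_eq_mul]
      have h4 := mul_le_mul_of_nonneg_right this (by positivity : 0 ≤ 1 / t)
      calc _ ≤ 2 * (1 / t) := h4
        _ = 2 / t := by ring
    nlinarith [e0 p]
  by_cases h : d ≤ 3 / t
  · nlinarith
  · push Not at h
    have h5 : 1 / t ≤ d - 2 / t := by
      have : 3 / t = 1 / t + 2 / t := by ring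
      linarith
    have h6 : d * (1 / t) ≤ R := by nlinarith
    have h7 : d ≤ t * R := by
      have := mul_le_mul_of_nonneg_left h6 ht.le
      have e : t * (d * (1 / t)) = d := by field_simp
      linarith
    have : 0 ≤ 3 / t := by positivity
    linarith

noncomputable def beta (V U H Sg : Finset ℤ) (μ : ℤ → ℝ) (y : κ → ℤ) : ℝ :=
  ∑ p ∈ (univ : Finset κ).offDiag, ff V U H Sg μ (y p.1) (y p.2)

noncomputable def Theta (V U H Sg : Finset ℤ) (μ : ℤ → ℝ) (y : κ → ℤ) : ℝ :=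
  ∑ p ∈ (univ : Finset κ).offDiag,
    ∑ q ∈ (univ : Finset κ).offDiag.filter (fun q => q ≠ p ∧ q ≠ p.swap),
      ∑ x ∈ V, μ x * (ee V U H Sg μ (y p.1) (y p.2) x * ee V U H Sg μ (y q.1) (y q.2) x)

variable {V U H Sg : Finset ℤ} {μ μ' : ℤ → ℝ} {t τ D : ℝ}

lemma beta_nonneg (h0 : ∀ x, 0 ≤ μ x) (y : κ → ℤ) : 0 ≤ beta V U H Sg μ y :=
  sum_nonneg fun _ _ => ff_nonneg h0 _ _

lemma Theta_nonneg (h0 : ∀ x, 0 ≤ μ x) (y : κ → ℤ) : 0 ≤ Theta V U H Sg μ y :=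
  sum_nonneg fun _ _ => sum_nonneg fun _ _ => sum_nonneg fun x _ =>
    mul_nonneg (h0 x) (mul_nonneg (ee_nonneg h0 _ _ _) (ee_nonneg h0 _ _ _))

lemma beta_le (ht : 0 < t) (h0 : ∀ x, 0 ≤ μ x) (h1 : ∀ x, μ x ≤ 1 / t) (h0' : ∀ x, 0 ≤ μ' x)
    (hs : ∀ h ∈ H, -h ∈ H)
    (hD : ∑ x ∈ V, (Real.sqrt (μ' x) - Real.sqrt (μ x)) ^ 2 ≤ D) (y : κ → ℤ) :
    beta V U H Sg μ y ≤ 16 * beta V U H Sg μ' y + 24 / t * D + 2 * t * Theta V U H Sg μ y := by
  set P := (univ : Finset κ).offDiag with hP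
  let K : ℤ → ℝ := fun x => if 4 * μ' x < μ x then 1 else 0
  have K0 : ∀ x, 0 ≤ K x := fun x => by simp only [K]; split_ifs <;> norm_num
  have K1 : ∀ x, K x ≤ 1 := fun x => by simp only [K]; split_ifs <;> norm_num
  have hK : ∑ x ∈ V, K x * μ x ≤ 4 * D := by
    refine le_trans ?_ (mul_le_mul_of_nonneg_left hD (by norm_num))
    rw [mul_sum]
    refine sum_le_sum fun x _ => ?_
    have := le_two_hel (h0' x) (h0 x)
    simp only [K]
    split_ifs with h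
    · linarith
    · have := sq_nonneg (Real.sqrt (μ' x) - Real.sqrt (μ x)); linarith
  have hpt : ∀ d b, μ d * μ b ≤ 16 * (μ' d * μ' b) + K d * (μ d * μ b) + K b * (μ d * μ b) := by
    intro d b
    have p1 := mul_nonneg (h0 d) (h0 b)
    have p2 := mul_nonneg (h0' d) (h0' b)
    simp only [K]
    split_ifs with a1 a2 a2
    · linarith
    · linarith
    · linarith
    · push Not at a1 a2
      have := mul_le_mul a1 a2 (h0 b) (by linarith [h0' d])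
      linarith
  let G : ℤ → ℤ → ℝ := fun a c => ∑ x ∈ V, K x * μ x * ee V U H Sg μ a c x
  have hff : ∀ a c, ff V U H Sg μ a c ≤ 16 * ff V U H Sg μ' a c + G a c + G c a := by
    intro a c
    have e1 : G c a = ∑ d ∈ V, ∑ b ∈ V, K b * (μ d * μ b) * chi U H Sg a b c d := by
      rw [sum_comm]
      refine sum_congr rfl fun b _ => ?_
      unfold ee
      rw [mul_sum]
      refine sum_congr rfl fun d _ => ?_
      rw [chi_symm U H Sg hs a b c d]; ring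
    have e2 : G a c = ∑ d ∈ V, ∑ b ∈ V, K d * (μ d * μ b) * chi U H Sg a b c d := by
      refine sum_congr rfl fun d _ => ?_
      unfold ee
      rw [mul_sum]
      exact sum_congr rfl fun b _ => by ring
    rw [e1, e2]
    unfold ff ee
    simp only [mul_sum, ← sum_add_distrib]
    refine sum_le_sum fun d _ => sum_le_sum fun b _ => ?_
    have := mul_le_mul_of_nonneg_right (hpt d b) (chi_nonneg U H Sg a b c d)
    linarith
  have hsw : ∑ p ∈ P, G (y p.2) (y p.1) = ∑ p ∈ P, G (y p.1) (y p.2) := by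
    refine sum_nbij' Prod.swap Prod.swap ?_ ?_ ?_ ?_ ?_
    · intro p hp; simp only [hP, mem_offDiag, mem_univ, true_and] at hp ⊢; exact hp.symm
    · intro p hp; simp only [hP, mem_offDiag, mem_univ, true_and] at hp ⊢; exact hp.symm
    · intro p _; rfl
    · intro p _; rfl
    · intro p _; rfl
  have hG : ∑ p ∈ P, G (y p.1) (y p.2) ≤ 12 / t * D + t * Theta V U H Sg μ y := by
    have e1 : ∑ p ∈ P, G (y p.1) (y p.2) =
        ∑ x ∈ V, K x * μ x * ∑ p ∈ P, ee V U H Sg μ (y p.1) (y p.2) x := by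
      simp only [G, mul_sum]; rw [sum_comm]
    have e2 : Theta V U H Sg μ y = ∑ x ∈ V, μ x * ∑ p ∈ P,
        ∑ q ∈ P.filter (fun q => q ≠ p ∧ q ≠ p.swap),
          ee V U H Sg μ (y p.1) (y p.2) x * ee V U H Sg μ (y q.1) (y q.2) x := by
      unfold Theta
      simp only [mul_sum]
      rw [sum_comm (s := V)]
      refine sum_congr rfl fun p _ => ?_
      rw [sum_comm]
    have e3 : 12 / t * D = 3 / t * (4 * D) := by ring
    rw [e1, e2, e3]
    refine le_trans ?_ (add_le_add_left (mul_le_mul_of_nonneg_left hK (by positivity)) _)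
    rw [mul_sum, mul_sum, ← sum_add_distrib]
    refine sum_le_sum fun x _ => ?_
    have d1 := deg_le (fun p : κ × κ => ee V U H Sg μ (y p.1) (y p.2) x) t ht
      (fun p => ee_nonneg h0 _ _ _) (fun p => ee_le h0 h1 _ _ _)
    set R := ∑ p ∈ P, ∑ q ∈ P.filter (fun q => q ≠ p ∧ q ≠ p.swap),
          ee V U H Sg μ (y p.1) (y p.2) x * ee V U H Sg μ (y q.1) (y q.2) x with hR
    have hR0 : 0 ≤ R := sum_nonneg fun p _ => sum_nonneg fun q _ =>
      mul_nonneg (ee_nonneg h0 _ _ _) (ee_nonneg h0 _ _ _)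
    have d2 := mul_le_mul_of_nonneg_left d1 (mul_nonneg (K0 x) (h0 x))
    have d3 := mul_le_mul_of_nonneg_right (K1 x) (mul_nonneg (h0 x) (mul_nonneg ht.le hR0))
    nlinarith
  have hb : beta V U H Sg μ y ≤ 16 * beta V U H Sg μ' y + ∑ p ∈ P, G (y p.1) (y p.2) +
      ∑ p ∈ P, G (y p.2) (y p.1) := by
    unfold beta
    rw [mul_sum, ← sum_add_distrib, ← sum_add_distrib]
    exact sum_le_sum fun p _ => hff _ _
  rw [hsw] at hb
  have e4 : 24 / t * D = 2 * (12 / t * D) := by ring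
  rw [e4]; linarith

lemma beta_le_card (h0 : ∀ x, 0 ≤ μ x) (hτ : 0 ≤ τ) (hr : ∀ h ∉ H, rr V μ h ≤ τ) (y : κ → ℤ) :
    beta V U H Sg μ y ≤ (univ : Finset κ).offDiag.card * τ := by
  have := sum_le_card_nsmul (univ : Finset κ).offDiag
    (fun p => ff V U H Sg μ (y p.1) (y p.2)) τ fun p _ => ff_le h0 hτ hr _ _
  rwa [nsmul_eq_mul] at this

lemma sum_filter_le_card (g : κ × κ → κ × κ → ℝ) (c : ℝ) (hc : 0 ≤ c)
    (h : ∀ p ∈ (univ : Finset κ).offDiag,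
      ∀ q ∈ (univ : Finset κ).offDiag.filter (fun q => q ≠ p ∧ q ≠ p.swap), g p q ≤ c) :
    ∑ p ∈ (univ : Finset κ).offDiag,
      ∑ q ∈ (univ : Finset κ).offDiag.filter (fun q => q ≠ p ∧ q ≠ p.swap), g p q ≤
      ((univ : Finset κ).offDiag.card : ℝ) ^ 2 * c := by
  have h1 : ∀ p ∈ (univ : Finset κ).offDiag,
      ∑ q ∈ (univ : Finset κ).offDiag.filter (fun q => q ≠ p ∧ q ≠ p.swap), g p q ≤
      ((univ : Finset κ).offDiag.card : ℝ) * c := by
    intro p hp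
    refine (sum_le_card_nsmul _ _ c (h p hp)).trans ?_
    rw [nsmul_eq_mul]
    exact mul_le_mul_of_nonneg_right (by exact_mod_cast card_filter_le _ _) hc
  refine (sum_le_card_nsmul _ _ _ h1).trans (le_of_eq ?_)
  rw [nsmul_eq_mul]; ring

lemma Theta_le_card (h0 : ∀ x, 0 ≤ μ x) (h1 : ∀ x, μ x ≤ 1 / t) (hτ : 0 ≤ τ)
    (hr : ∀ h ∉ H, rr V μ h ≤ τ) (y : κ → ℤ) :
    Theta V U H Sg μ y ≤ ((univ : Finset κ).offDiag.card : ℝ) ^ 2 * (τ * (1 / t)) := by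
  have ht : 0 ≤ 1 / t := (h0 0).trans (h1 0)
  refine sum_filter_le_card _ _ (mul_nonneg hτ ht) fun p _ q _ => ?_
  refine le_trans ?_ (mul_le_mul_of_nonneg_right
    (ff_le (U := U) (Sg := Sg) h0 hτ hr (y p.1) (y p.2)) ht)
  unfold ff
  rw [sum_mul]
  refine sum_le_sum fun x _ => ?_
  rw [mul_assoc]
  exact mul_le_mul_of_nonneg_left
    (mul_le_mul_of_nonneg_left (ee_le h0 h1 _ _ _) (ee_nonneg h0 _ _ _)) (h0 x)

lemma PE_beta (hμ : ∑ x ∈ V, μ x = 1) :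
    PE V μ (beta V U H Sg μ : (κ → ℤ) → ℝ) = (univ : Finset κ).offDiag.card * EE V U H Sg μ := by
  unfold beta
  rw [PE_sum, sum_congr rfl fun p hp => PE_two V μ hμ (mem_offDiag.1 hp).2.2 (ff V U H Sg μ)]
  rw [sum_const, nsmul_eq_mul]
  rfl

lemma PE_Theta (h0 : ∀ x, 0 ≤ μ x) (hμ : ∑ x ∈ V, μ x = 1) (hτ : 0 ≤ τ)
    (hr : ∀ h ∉ H, rr V μ h ≤ τ) (hs : ∀ σ ∉ Sg, ss V μ σ ≤ τ) :
    PE V μ (Theta V U H Sg μ : (κ → ℤ) → ℝ) ≤
      ((univ : Finset κ).offDiag.card : ℝ) ^ 2 * (τ * EE V U H Sg μ) := by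
  unfold Theta
  rw [PE_sum]
  simp only [PE_sum V μ (filter _ _)]
  refine sum_filter_le_card _ _ (mul_nonneg hτ (EE_nonneg h0)) fun p hp q hq => ?_
  have hp' := (mem_offDiag.1 hp).2.2
  obtain ⟨hq1, hq2, hq3⟩ := mem_filter.1 hq
  have hq' := (mem_offDiag.1 hq1).2.2
  have fin : PE V μ (fun z : κ → ℤ => τ * ff V U H Sg μ (z p.1) (z p.2)) = τ * EE V U H Sg μ := by
    rw [PE_mul, PE_two V μ hμ hp' (ff V U H Sg μ)]; rfl
  have step : ∀ (w : ℤ → ℤ → ℝ) (a c : ℤ), (∀ x, ∑ u ∈ V, μ u * w u x ≤ τ) →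
      ∑ u ∈ V, μ u * ∑ x ∈ V, μ x * (ee V U H Sg μ a c x * w u x) ≤ τ * ff V U H Sg μ a c := by
    intro w a c hw
    unfold ff
    simp only [mul_sum]
    rw [sum_comm]
    refine sum_le_sum fun x _ => ?_
    have e : ∑ u ∈ V, μ u * (μ x * (ee V U H Sg μ a c x * w u x)) =
        (μ x * ee V U H Sg μ a c x) * ∑ u ∈ V, μ u * w u x := by
      rw [mul_sum]; exact sum_congr rfl fun u _ => by ring
    rw [e, mul_comm τ]
    exact mul_le_mul_of_nonneg_left (hw x) (mul_nonneg (h0 x) (ee_nonneg h0 _ _ _))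
  by_cases c1 : q.1 ≠ p.1 ∧ q.1 ≠ p.2
  · rw [PE_resample V μ hμ q.1, ← fin]
    refine PE_mono V μ (fun x _ => h0 x) fun z _ => ?_
    simp only [Function.update_self, Function.update_of_ne c1.1.symm,
      Function.update_of_ne c1.2.symm, Function.update_of_ne hq'.symm]
    exact step (fun u x => ee V U H Sg μ u (z q.2) x) _ _ fun x => sum_a_ee h0 hτ hs _ _
  · have c2 : q.2 ≠ p.1 ∧ q.2 ≠ p.2 := by
      rw [not_and_or, not_not, not_not] at c1
      constructor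
      · intro h
        rcases c1 with c | c
        · exact hq' (c.trans h.symm)
        · exact hq3 (Prod.ext c h)
      · intro h
        rcases c1 with c | c
        · exact hq2 (Prod.ext c h)
        · exact hq' (c.trans h.symm)
    rw [PE_resample V μ hμ q.2, ← fin]
    refine PE_mono V μ (fun x _ => h0 x) fun z _ => ?_
    simp only [Function.update_self, Function.update_of_ne c2.1.symm,
      Function.update_of_ne c2.2.symm, Function.update_of_ne hq']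
    exact step (fun u x => ee V U H Sg μ (z q.1) u x) _ _ fun x => sum_c_ee h0 hτ hr _ _

open Classical in
noncomputable def ind (y : κ → ℤ) : ℝ := if Function.Injective y then 1 else 0

lemma ind_nonneg (y : κ → ℤ) : 0 ≤ ind y := by unfold ind; split_ifs <;> norm_num

lemma ind_le (y : κ → ℤ) : ind y ≤ 1 := by unfold ind; split_ifs <;> norm_num

lemma PE_ind_beta (h0 : ∀ x, 0 ≤ μ x) (h1 : ∀ x, μ x ≤ 1 / t) (hμ : ∑ x ∈ V, μ x = 1)
    (hτ : 0 ≤ τ) (hr : ∀ h ∉ H, rr V μ h ≤ τ) :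
    ((univ : Finset κ).offDiag.card : ℝ) * EE V U H Sg μ -
      ((univ : Finset κ).offDiag.card : ℝ) ^ 2 * (τ * (1 / t)) ≤
      PE V μ (fun y : κ → ℤ => ind y * beta V U H Sg μ y) := by
  set P := (univ : Finset κ).offDiag with hP
  have hpt : ∀ y : κ → ℤ, beta V U H Sg μ y - (P.card * τ) *
      ∑ p ∈ P, (if y p.1 = y p.2 then (1 : ℝ) else 0) ≤ ind y * beta V U H Sg μ y := by
    intro y
    have s0 : 0 ≤ ∑ p ∈ P, (if y p.1 = y p.2 then (1 : ℝ) else 0) :=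
      sum_nonneg fun p _ => by split_ifs <;> norm_num
    have c0 : 0 ≤ (P.card : ℝ) * τ := by positivity
    unfold ind
    split_ifs with hi
    · nlinarith
    · obtain ⟨j, l, h2, h3⟩ := Function.not_injective_iff.1 hi
      have s1 : (1 : ℝ) ≤ ∑ p ∈ P, (if y p.1 = y p.2 then (1 : ℝ) else 0) := by
        have := single_le_sum (f := fun p : κ × κ => if y p.1 = y p.2 then (1 : ℝ) else 0)
          (fun p _ => by split_ifs <;> norm_num)
          (show (j, l) ∈ P from mem_offDiag.2 ⟨mem_univ _, mem_univ _, h3⟩)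
        simpa [h2] using this
      have := beta_le_card (U := U) (Sg := Sg) h0 hτ hr y
      nlinarith
  refine le_trans ?_ (PE_mono V μ (fun x _ => h0 x) fun y _ => hpt y)
  rw [PE_sub, PE_mul, PE_sum, PE_beta hμ]
  have h2 : ∀ p ∈ P, PE V μ (fun y : κ → ℤ => if y p.1 = y p.2 then (1 : ℝ) else 0) ≤ 1 / t := by
    intro p hp
    rw [PE_two V μ hμ (mem_offDiag.1 hp).2.2 (fun a c => if a = c then (1 : ℝ) else 0)]
    have : ∀ a ∈ V, μ a * ∑ c ∈ V, μ c * (if a = c then (1 : ℝ) else 0) ≤ μ a * (1 / t) := by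
      intro a ha
      refine mul_le_mul_of_nonneg_left ?_ (h0 a)
      simp only [mul_ite, mul_one, mul_zero, sum_ite_eq, ha, if_true]
      exact h1 a
    refine (sum_le_sum this).trans ?_
    rw [← sum_mul, hμ, one_mul]
  have h3 := sum_le_card_nsmul _ _ _ h2
  rw [nsmul_eq_mul] at h3
  have h4 := mul_le_mul_of_nonneg_left h3 (by positivity : 0 ≤ (P.card : ℝ) * τ)
  nlinarith

end B

end Pool.Agent.Lib.SidonDis
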