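import Pool.Agent.Lib.MP_ef4e97_co.Dis3
import Pool.Agent.Lib.MP_ef4e97_co.Dis4

set_option autoImplicit false

open Finset

namespace Pool.Agent.Lib.SidonDis

noncomputable def HH (V : Finset ℤ) (μ : ℤ → ℝ) (τ : ℝ) : Finset ℤ :=
  insert 0 (((V ×ˢ V).image (fun p => p.1 - p.2)).filter (fun h => τ ≤ rr V μ h))

noncomputable def SS (V : Finset ℤ) (μ : ℤ → ℝ) (τ : ℝ) : Finset ℤ :=
  ((V ×ˢ V).image (fun p => p.1 + p.2)).filter (fun σ => τ ≤ ss V μ σ)

lemma rr_neg (V : Finset ℤ) (μ : ℤ → ℝ) (h : ℤ) : rr V μ (-h) = rr V μ h := by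
  unfold rr
  simp only [mul_sum]
  rw [sum_comm]
  refine sum_congr rfl fun x _ => sum_congr rfl fun y _ => ?_
  have : (y - x = -h) ↔ (x - y = h) := ⟨fun h => by linarith, fun h => by linarith⟩
  simp only [this]; ring

lemma HH_symm (V : Finset ℤ) (μ : ℤ → ℝ) (τ : ℝ) : ∀ h ∈ HH V μ τ, -h ∈ HH V μ τ := by
  intro h hh
  simp only [HH, mem_insert, mem_filter, mem_image, mem_product] at hh ⊢
  rcases hh with h0 | ⟨⟨p, hp, rfl⟩, h2⟩
  · left; simp [h0]
  · right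
    exact ⟨⟨(p.2, p.1), ⟨hp.2, hp.1⟩, by ring⟩, by rwa [rr_neg]⟩

lemma rr_le (V : Finset ℤ) (μ : ℤ → ℝ) {τ : ℝ} (hτ : 0 ≤ τ) :
    ∀ h ∉ HH V μ τ, rr V μ h ≤ τ := by
  intro h hh
  by_cases hd : h ∈ (V ×ˢ V).image (fun p => p.1 - p.2)
  · by_contra hc
    exact hh (mem_insert_of_mem (mem_filter.2 ⟨hd, (not_le.1 hc).le⟩))
  · have : rr V μ h = 0 := by
      refine sum_eq_zero fun x hx => ?_
      rw [sum_eq_zero, mul_zero]
      intro y hy
      rw [if_neg, mul_zero]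
      intro e
      exact hd (mem_image.2 ⟨(x, y), mem_product.2 ⟨hx, hy⟩, e⟩)
    rw [this]; exact hτ

lemma ss_le (V : Finset ℤ) (μ : ℤ → ℝ) {τ : ℝ} (hτ : 0 ≤ τ) :
    ∀ h ∉ SS V μ τ, ss V μ h ≤ τ := by
  intro h hh
  by_cases hd : h ∈ (V ×ˢ V).image (fun p => p.1 + p.2)
  · by_contra hc
    exact hh (mem_filter.2 ⟨hd, (not_le.1 hc).le⟩)
  · have : ss V μ h = 0 := by
      refine sum_eq_zero fun x hx => ?_
      rw [sum_eq_zero, mul_zero]
      intro y hy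
      rw [if_neg, mul_zero]
      intro e
      exact hd (mem_image.2 ⟨(x, y), mem_product.2 ⟨hx, hy⟩, e⟩)
    rw [this]; exact hτ

open Classical in
noncomputable def uniq {ι : Type} (y : ι → ℤ) (a : ι) : ℝ :=
  if ∀ j, y j = y a → j = a then 1 else 0

lemma uniq_nonneg {ι : Type} (y : ι → ℤ) (a : ι) : 0 ≤ uniq y a := by
  unfold uniq; split_ifs <;> norm_num

lemma uniq_equiv {ι : Type} (e : ι ≃ ι) (y : ι → ℤ) (a : ι) : uniq (y ∘ e) a = uniq y (e a) := by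
  classical
  unfold uniq
  refine if_congr ⟨fun h j hj => ?_, fun h j hj => ?_⟩ rfl rfl
  · have := h (e.symm j) (by simpa using hj)
    rw [← this]; simp
  · exact e.injective (h (e j) hj)

namespace Fam

variable {V : Finset ℤ} {t : ℕ} (F : Fam V t)

noncomputable def E' (τ : ℝ) (U : Finset ℤ) : ℝ :=
  EE V U (HH V (F.mu U) τ) (SS V (F.mu U) τ) (F.mu U)

noncomputable def Psi {ι : Type} [Fintype ι] (y : ι → ℤ) (a b : ι) : ℝ :=
  uniq y a * uniq y b * ∑ d ∈ V, F.mu (im y) d * ∑ b' ∈ V, F.mu (im y) b' *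
    (if d - b' = y a - y b ∧ d ≠ y a then 1 else 0)

lemma Psi_nonneg {ι : Type} [Fintype ι] (y : ι → ℤ) (a b : ι) : 0 ≤ F.Psi y a b :=
  mul_nonneg (mul_nonneg (uniq_nonneg _ _) (uniq_nonneg _ _)) (sum_nonneg fun _ _ =>
    mul_nonneg (F.mu_nonneg _ _) (sum_nonneg fun _ _ => mul_nonneg (F.mu_nonneg _ _)
      (by split_ifs <;> norm_num)))

lemma sum_Psi_le {ι : Type} [Fintype ι] [DecidableEq ι] (y : ι → ℤ) (h : 0 < F.N (im y)) :
    ∑ p ∈ (univ : Finset ι).offDiag, F.Psi y p.1 p.2 ≤ 2 * F.KLb (Fin 2) (im y) := by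
  let g : ℤ → ℤ → ℝ := fun d b => if F.N (im y ∪ {d, b}) = 0 then 1 else 0
  have h01 : (0 : Fin 2) ≠ 1 := by decide
  have h1 := F.transfer1 (κ := Fin 2) h (fun z => g (z 0) (z 1)) 1 zero_le_one
    (fun z _ => by simp only [g]; split_ifs <;> norm_num)
    (fun z _ => by simp only [g]; split_ifs <;> norm_num)
  have h2 : F.Ex (im y) (fun z : Fin 2 → ℤ => g (z 0) (z 1)) = 0 := by
    rw [F.Ex_congr (im y) (H := fun _ => 0), F.Ex_const h]
    intro z _ h0
    have : im z = {z 0, z 1} := by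
      ext x; simp [im, Fin.exists_fin_two, eq_comm]
    simp only [g]
    rw [if_neg]
    rw [← this]; exact h0.ne'
  rw [h2, PE_two V _ (F.sum_mu h) h01 g] at h1
  refine le_trans ?_ (h1.trans (le_of_eq (by ring)))
  have h3 : ∀ d b, ∑ p ∈ (univ : Finset ι).offDiag, uniq y p.1 * uniq y p.2 *
      (if d - b = y p.1 - y p.2 ∧ d ≠ y p.1 then (1 : ℝ) else 0) ≤ g d b := by
    intro d b
    obtain ⟨A, hA, hy⟩ := F.exists_of_N_pos h
    have hS := F.sid A hA
    have ym : ∀ j, y j ∈ F.S A := im_subset.1 hy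
    by_cases hex : ∃ p ∈ (univ : Finset ι).offDiag, (∀ j, y j = y p.1 → j = p.1) ∧
        (∀ j, y j = y p.2 → j = p.2) ∧ d - b = y p.1 - y p.2 ∧ d ≠ y p.1
    · obtain ⟨p, hp, u1, u2, e1, e2⟩ := hex
      have hp' := (mem_offDiag.1 hp).2.2
      have hne : y p.1 ≠ y p.2 := fun e => hp' (u2 _ e)
      have hg : g d b = 1 := by
        simp only [g]
        rw [if_pos]
        by_contra hc
        obtain ⟨A', hA', hy'⟩ := F.exists_of_N_pos ((F.N_nonneg _).lt_of_ne' hc)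
        have m1 : y p.1 ∈ F.S A' := hy' (mem_union_left _ (mem_im y _))
        have m2 : y p.2 ∈ F.S A' := hy' (mem_union_left _ (mem_im y _))
        have m3 : d ∈ F.S A' := hy' (mem_union_right _ (by simp))
        have m4 : b ∈ F.S A' := hy' (mem_union_right _ (by simp))
        rcases F.sid A' hA' d m3 (y p.2) m2 (y p.1) m1 b m4 (by linarith) with c | c
        · exact e2 c.1
        · exact hne c.2.symm
      rw [hg, sum_eq_single p]
      · have a1 : uniq y p.1 ≤ 1 := by unfold uniq; split_ifs <;> norm_num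
        have a2 : uniq y p.2 ≤ 1 := by unfold uniq; split_ifs <;> norm_num
        rw [if_pos ⟨e1, e2⟩]
        nlinarith [uniq_nonneg y p.1, uniq_nonneg y p.2]
      · intro q _ hq
        by_cases c : d - b = y q.1 - y q.2 ∧ d ≠ y q.1
        · exfalso
          rcases hS (y q.1) (ym _) (y p.2) (ym _) (y p.1) (ym _) (y q.2) (ym _)
            (by linarith [c.1]) with c2 | c2
          · exact hq (Prod.ext (u1 _ c2.1) (u2 _ c2.2.symm))
          · exact hne c2.2.symm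
        · rw [if_neg c, mul_zero]
      · intro hn; exact absurd hp hn
    · have : ∀ p ∈ (univ : Finset ι).offDiag, uniq y p.1 * uniq y p.2 *
          (if d - b = y p.1 - y p.2 ∧ d ≠ y p.1 then (1 : ℝ) else 0) = 0 := by
        intro p hp
        unfold uniq
        split_ifs with c1 c2 c3 <;> try simp
        exact hex ⟨p, hp, c1, c2, c3⟩
      rw [sum_eq_zero this]
      simp only [g]; split_ifs <;> norm_num
  have h4 : ∑ p ∈ (univ : Finset ι).offDiag, F.Psi y p.1 p.2 =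
      ∑ d ∈ V, F.mu (im y) d * ∑ b ∈ V, F.mu (im y) b * ∑ p ∈ (univ : Finset ι).offDiag,
        uniq y p.1 * uniq y p.2 *
        (if d - b = y p.1 - y p.2 ∧ d ≠ y p.1 then (1 : ℝ) else 0) := by
    unfold Psi
    simp only [mul_sum]
    rw [sum_comm]
    refine sum_congr rfl fun d _ => ?_
    rw [sum_comm]
    refine sum_congr rfl fun b _ => sum_congr rfl fun p _ => by ring
  rw [h4]
  exact sum_le_sum fun d _ => mul_le_mul_of_nonneg_left (sum_le_sum fun b _ =>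
    mul_le_mul_of_nonneg_left (h3 d b) (F.mu_nonneg _ _)) (F.mu_nonneg _ _)

lemma Ex_Psi_eq {ι : Type} [Fintype ι] [DecidableEq ι] {a b a' b' : ι} (h : a ≠ b)
    (h' : a' ≠ b') :
    F.Ex ∅ (fun y : ι → ℤ => F.Psi y a b) = F.Ex ∅ (fun y : ι → ℤ => F.Psi y a' b') := by
  obtain ⟨e, e1, e2⟩ : ∃ e : ι ≃ ι, e a = a' ∧ e b = b' := by
    have hc : Equiv.swap a a' b ≠ a' := by
      intro hc
      apply h
      apply (Equiv.swap a a').injective
      rw [hc, Equiv.swap_apply_left]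
    refine ⟨(Equiv.swap a a').trans (Equiv.swap (Equiv.swap a a' b) b'), ?_, ?_⟩
    · simp only [Equiv.trans_apply, Equiv.swap_apply_left]
      exact Equiv.swap_apply_of_ne_of_ne hc.symm h'
    · simp only [Equiv.trans_apply, Equiv.swap_apply_left]
  rw [← F.Ex_equiv ∅ e (fun y : ι → ℤ => F.Psi y a b)]
  congr 1
  funext z
  unfold Psi
  simp only [im_equiv, uniq_equiv, Function.comp, e1, e2]

lemma Ex_Psi_le {ι : Type} [Fintype ι] [DecidableEq ι] {a b : ι} (h : a ≠ b) :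
    ((univ : Finset ι).offDiag.card : ℝ) * F.Ex ∅ (fun y : ι → ℤ => F.Psi y a b) ≤
      2 * F.Ex ∅ (fun y : ι → ℤ => F.KLb (Fin 2) (im y)) := by
  rw [← Ex_mul F ∅ 2]
  refine le_trans (le_of_eq ?_) (F.Ex_mono ∅ fun y _ h0 => F.sum_Psi_le y (by simpa using h0))
  rw [Ex_sum, sum_congr rfl fun p hp => F.Ex_Psi_eq (mem_offDiag.1 hp).2.2 h, sum_const,
    nsmul_eq_mul]

lemma ind_beta_le {ι κ : Type} [Fintype ι] [DecidableEq ι] [Fintype κ] [DecidableEq κ]
    (y : ι ⊕ κ → ℤ) (H Sg : Finset ℤ) (h0 : (0 : ℤ) ∈ H) :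
    ind (y ∘ Sum.inr) * beta V (im (y ∘ Sum.inl)) H Sg
      (F.mu (im (y ∘ Sum.inl) ∪ im (y ∘ Sum.inr))) (y ∘ Sum.inr) ≤
      ∑ p ∈ (univ : Finset κ).offDiag, F.Psi y (Sum.inr p.1) (Sum.inr p.2) := by
  rw [← im_sum]
  unfold ind
  split_ifs with hi
  · rw [one_mul]
    refine sum_le_sum fun p _ => ?_
    have hu : ∀ j : κ, y (Sum.inr j) ∉ im (y ∘ Sum.inl) → uniq y (Sum.inr j) = 1 := by
      intro j hj
      unfold uniq
      rw [if_pos]
      rintro (i | i) hi2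
      · exact absurd (hi2 ▸ mem_im (y ∘ Sum.inl) i) hj
      · exact congrArg _ (hi hi2)
    by_cases c : y (Sum.inr p.1) ∉ im (y ∘ Sum.inl) ∧ y (Sum.inr p.2) ∉ im (y ∘ Sum.inl)
    · unfold Psi
      rw [hu _ c.1, hu _ c.2, one_mul, one_mul]
      refine sum_le_sum fun d _ => mul_le_mul_of_nonneg_left (sum_le_sum fun b _ =>
        mul_le_mul_of_nonneg_left ?_ (F.mu_nonneg _ _)) (F.mu_nonneg _ _)
      refine chi_le _ _ _ _ _ _ _ _ fun e _ _ _ e2 _ => ⟨?_, fun e3 => e2 ?_⟩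
      · simp only [Function.comp] at e; linarith
      · simp only [Function.comp, e3, sub_self]; exact h0
    · refine le_trans (le_of_eq ?_) (F.Psi_nonneg _ _ _)
      refine sum_eq_zero fun d _ => ?_
      have : ee V (im (y ∘ Sum.inl)) H Sg (F.mu (im y)) ((y ∘ Sum.inr) p.1)
          ((y ∘ Sum.inr) p.2) d = 0 := by
        refine sum_eq_zero fun b _ => ?_
        unfold chi
        rw [if_neg, mul_zero]
        exact fun e => c ⟨e.2.1, e.2.2.1⟩
      rw [this, mul_zero]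
  · rw [zero_mul]
    exact sum_nonneg fun p _ => F.Psi_nonneg _ _ _

lemma core_U (κ : Type) [Fintype κ] [DecidableEq κ] {U : Finset ℤ} (h : 0 < F.N U) {τ : ℝ}
    (hτ : 0 ≤ τ) (hs : t * ((univ : Finset κ).offDiag.card : ℝ) * τ ≤ 1 / 16) :
    ((univ : Finset κ).offDiag.card : ℝ) / 2 * F.E' τ U ≤
      ((univ : Finset κ).offDiag.card : ℝ) ^ 2 * (τ * (1 / t)) +
      32 * F.Ex U (fun Y : κ → ℤ => ind Y * beta V U (HH V (F.mu U) τ) (SS V (F.mu U) τ)
        (F.mu (U ∪ im Y)) Y) +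
      48 / t * F.Ex U (fun Y : κ → ℤ => F.KL1 U (im Y)) +
      10 * ((univ : Finset κ).offDiag.card : ℝ) ^ 2 * τ * F.KLb κ U := by
  set H := HH V (F.mu U) τ with hH
  set Sg := SS V (F.mu U) τ with hSg
  have ht := F.tpos'
  have m0 := F.mu_nonneg U
  have m1 := F.mu_le U
  have hr := rr_le V (F.mu U) hτ
  have hss := ss_le V (F.mu U) hτ
  have a1 := PE_ind_beta (κ := κ) (U := U) (Sg := Sg) m0 m1 (F.sum_mu h) hτ hr
  have a2 := F.transfer1 h (fun Y : κ → ℤ => ind Y * beta V U H Sg (F.mu U) Y)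
    (((univ : Finset κ).offDiag.card : ℝ) * τ) (by positivity)
    (fun Y _ => mul_nonneg (ind_nonneg Y) (beta_nonneg m0 Y))
    (fun Y _ => by
      have := mul_le_mul_of_nonneg_right (ind_le Y) (beta_nonneg (V := V) (U := U) (H := H)
        (Sg := Sg) m0 Y)
      have := beta_le_card (U := U) (Sg := Sg) m0 hτ hr Y
      linarith)
  have a3 : F.Ex U (fun Y : κ → ℤ => ind Y * beta V U H Sg (F.mu U) Y) ≤
      F.Ex U (fun Y : κ → ℤ => 16 * (ind Y * beta V U H Sg (F.mu (U ∪ im Y)) Y) +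
        24 / t * F.KL1 U (im Y) + 2 * t * Theta V U H Sg (F.mu U) Y) := by
    refine F.Ex_mono U fun Y _ h0 => ?_
    have b1 := beta_le (U := U) (Sg := Sg) ht m0 m1 (F.mu_nonneg (U ∪ im Y))
      (HH_symm V (F.mu U) τ) (F.hel_KL1 h0) Y
    have b2 : 0 ≤ F.KL1 U (im Y) := le_trans (sum_nonneg fun _ _ => sq_nonneg _) (F.hel_KL1 h0)
    have b3 := Theta_nonneg (V := V) (U := U) (H := H) (Sg := Sg) m0 Y
    have b4 : 0 ≤ 24 / t * F.KL1 U (im Y) + 2 * t * Theta V U H Sg (F.mu U) Y := by positivity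
    have b5 := mul_le_mul_of_nonneg_left b1 (ind_nonneg Y)
    have b6 := mul_le_mul_of_nonneg_right (ind_le Y) b4
    nlinarith
  rw [Ex_add, Ex_add, Ex_mul, Ex_mul, Ex_mul] at a3
  have a4 := F.transfer2 h (Theta V U H Sg (F.mu U) : (κ → ℤ) → ℝ)
    (((univ : Finset κ).offDiag.card : ℝ) ^ 2 * (τ * (1 / t))) (by positivity)
    (fun Y _ => Theta_nonneg m0 Y) (fun Y _ => Theta_le_card m0 m1 hτ hr Y)
  have a5 := PE_Theta (κ := κ) (U := U) m0 (F.sum_mu h) hτ hr hss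
  have a6 := F.KLb_nonneg (κ := κ) h
  have a7 : 0 ≤ EE V U H Sg (F.mu U) := EE_nonneg m0
  unfold E'
  rw [← hH, ← hSg]
  have hc : ((univ : Finset κ).offDiag.card : ℝ) ≤ ((univ : Finset κ).offDiag.card : ℝ) ^ 2 := by
    exact_mod_cast Nat.le_self_pow two_ne_zero _
  set P := ((univ : Finset κ).offDiag.card : ℝ) with hP
  have hP0 : 0 ≤ P := Nat.cast_nonneg _
  set E := EE V U H Sg (F.mu U)
  set K := F.KLb κ U
  set Th := F.Ex U (Theta V U H Sg (F.mu U) : (κ → ℤ) → ℝ)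
  have c1 : Th ≤ 2 * (P ^ 2 * (τ * E)) + 2 * (P ^ 2 * (τ * (1 / t))) * K := by linarith
  have c2 : t * Th ≤ 2 * (t * P * τ) * (P * E) + 2 * (P ^ 2 * τ * K) := by
    have := mul_le_mul_of_nonneg_left c1 ht.le
    have e : t * (2 * (P ^ 2 * (τ * E)) + 2 * (P ^ 2 * (τ * (1 / t))) * K) =
        2 * (t * P * τ) * (P * E) + 2 * (P ^ 2 * τ * K) := by field_simp
    linarith
  have c3 : (t * P * τ) * (P * E) ≤ 1 / 16 * (P * E) :=
    mul_le_mul_of_nonneg_right hs (mul_nonneg hP0 a7)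
  have c4 : P * (τ * K) ≤ P ^ 2 * (τ * K) := mul_le_mul_of_nonneg_right hc (mul_nonneg hτ a6)
  have e48 : 48 / (t : ℝ) = 2 * (24 / t) := by ring
  rw [e48]
  nlinarith

lemma core_avg (ι κ : Type) [Fintype ι] [DecidableEq ι] [Fintype κ] [DecidableEq κ]
    (h : 0 < F.N ∅) {τ D Q : ℝ} (hτ : 0 ≤ τ)
    (hs : t * ((univ : Finset κ).offDiag.card : ℝ) * τ ≤ 1 / 16)
    (hD : F.a (Fintype.card ι) - F.a (Fintype.card ι + (Fintype.card κ + 1)) ≤ D)
    (hQ0 : 0 < Q) (hQ : Q ≤ ((univ : Finset (ι ⊕ κ)).offDiag.card : ℝ)) :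
    ((univ : Finset κ).offDiag.card : ℝ) / 2 * F.Ex ∅ (fun T : ι → ℤ => F.E' τ (im T)) ≤
      ((univ : Finset κ).offDiag.card : ℝ) ^ 2 * (τ * (1 / t)) +
      32 * (((univ : Finset κ).offDiag.card : ℝ) * (4 * D / Q)) + 48 / t * D +
      10 * ((univ : Finset κ).offDiag.card : ℝ) ^ 2 * τ * (Fintype.card κ * D) := by
  have ht := F.tpos'
  have hD' : ∀ i j, Fintype.card ι ≤ i → i ≤ j → j ≤ Fintype.card ι + (Fintype.card κ + 1) →
      F.a i - F.a j ≤ D := fun i j h1 _ h3 => by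
    have := F.a_anti' h1
    have := F.a_anti' h3
    linarith
  have hD0 : 0 ≤ D := by simpa using hD' _ _ le_rfl le_rfl (by omega)
  have b1 := F.Ex_mono ∅ (κ := ι) fun T _ h0 => F.core_U κ (U := im T) (by simpa using h0) hτ hs
  rw [Ex_mul, Ex_add, Ex_add, Ex_add, F.Ex_const h, Ex_mul, Ex_mul, Ex_mul, Ex_KL1] at b1
  have b2 := F.Ex_KLb_le (ι := ι) (κ := κ) D fun j hj => hD' _ _ le_rfl (by omega) (by omega)
  have b3 : F.L (Fintype.card ι + Fintype.card κ + 1) - F.L (Fintype.card ι + Fintype.card κ) -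
      F.L (Fintype.card ι + 1) + F.L (Fintype.card ι) ≤ D := by
    have := hD' (Fintype.card ι) (Fintype.card ι + Fintype.card κ) le_rfl (by omega) (by omega)
    unfold a at this
    linarith
  have b4 := F.tower (ι := ι) (κ := κ) ∅ (fun T Y => ind Y * beta V (im T)
    (HH V (F.mu (im T)) τ) (SS V (F.mu (im T)) τ) (F.mu (im T ∪ im Y)) Y)
  simp only [empty_union] at b4
  rw [← b4] at b1
  have b5 := F.Ex_mono ∅ (κ := ι ⊕ κ) fun y _ _ => F.ind_beta_le y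
    (HH V (F.mu (im (y ∘ Sum.inl))) τ) (SS V (F.mu (im (y ∘ Sum.inl))) τ) (mem_insert_self _ _)
  rw [Ex_sum] at b5
  have b6 := F.Ex_KLb_le (ι := ι ⊕ κ) (κ := Fin 2) D fun j hj => by
    simp only [Fintype.card_sum, Fintype.card_fin] at hj ⊢
    exact hD' _ _ (by omega) (by omega) (by omega)
  simp only [Fintype.card_fin, Nat.cast_ofNat] at b6
  have b7 : ∀ p ∈ (univ : Finset κ).offDiag,
      F.Ex ∅ (fun y : ι ⊕ κ → ℤ => F.Psi y (Sum.inr p.1) (Sum.inr p.2)) ≤ 4 * D / Q := by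
    intro p hp
    have c1 := F.Ex_Psi_le (ι := ι ⊕ κ) (a := Sum.inr p.1) (b := Sum.inr p.2)
      (fun e => (mem_offDiag.1 hp).2.2 (Sum.inr_injective e))
    have c2 : 0 ≤ F.Ex ∅ (fun y : ι ⊕ κ → ℤ => F.Psi y (Sum.inr p.1) (Sum.inr p.2)) :=
      F.Ex_nonneg ∅ fun y _ _ => F.Psi_nonneg _ _ _
    rw [le_div_iff₀ hQ0]
    nlinarith
  have b8 := sum_le_card_nsmul _ _ _ b7
  rw [nsmul_eq_mul] at b8
  have b9 := mul_le_mul_of_nonneg_left b3 (by positivity : 0 ≤ 48 / (t : ℝ))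
  have b10 := mul_le_mul_of_nonneg_left b2
    (by positivity : 0 ≤ 10 * ((univ : Finset κ).offDiag.card : ℝ) ^ 2 * τ)
  linarith

end Fam

end Pool.Agent.Lib.SidonDis
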