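import Mathlib

set_option autoImplicit false

open Finset

namespace Pool.Agent.Lib.SidonDis

lemma cube_half (V : Finset ℤ) {u : ℤ} (hu : u ∈ V) (G : Finset ℤ → ℝ)
    (hG : ∀ A, G (insert u A) = G A) :
    ∑ A ∈ V.powerset, (if u ∉ A then 1 else 0) * G A = 1 / 2 * ∑ A ∈ V.powerset, G A := by
  rw [← insert_erase hu, sum_powerset_insert (notMem_erase u V),
    sum_powerset_insert (notMem_erase u V)]
  have h1 : ∑ A ∈ (V.erase u).powerset, (if u ∉ A then 1 else 0) * G A =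
      ∑ A ∈ (V.erase u).powerset, G A := by
    refine sum_congr rfl fun A hA => ?_
    rw [if_pos, one_mul]
    exact fun h => notMem_erase u V (mem_powerset.1 hA h)
  rw [h1]
  simp only [hG, mem_insert_self, not_true, if_false, zero_mul, sum_const_zero]
  ring

lemma cube_block (V B : Finset ℤ) (hB : B ⊆ V) (G : Finset ℤ → ℝ)
    (hG : ∀ u ∈ B, ∀ A, G (insert u A) = G A) :
    ∑ A ∈ V.powerset, (if Disjoint A B then 1 else 0) * G A =
      (1 / 2) ^ B.card * ∑ A ∈ V.powerset, G A := by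
  induction B using Finset.induction_on with
  | empty => simp
  | insert u B hu ih =>
    have h1 := cube_half V (hB (mem_insert_self u B))
      (fun A => (if Disjoint A B then 1 else 0) * G A) (fun A => by
        simp only [disjoint_insert_left, hu, not_false_eq_true, true_and,
          hG u (mem_insert_self u B)])
    rw [card_insert_of_notMem hu, pow_succ, mul_comm _ (1 / 2 : ℝ), mul_assoc,
      ← ih ((subset_insert u B).trans hB) fun v hv => hG v (mem_insert_of_mem hv), ← h1]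
    refine sum_congr rfl fun A _ => ?_
    simp only [disjoint_insert_right]
    by_cases c1 : u ∈ A <;> by_cases c2 : Disjoint A B <;> simp [c1, c2]

lemma cube_prod (V : Finset ℤ) (β : ℝ) (𝓑 : Finset (Finset ℤ)) (hV : ∀ B ∈ 𝓑, B ⊆ V)
    (hd : ∀ B ∈ 𝓑, ∀ C ∈ 𝓑, B ≠ C → Disjoint B C) :
    ∑ A ∈ V.powerset, ∏ B ∈ 𝓑, (1 - β * (if Disjoint A B then 1 else 0)) =
      2 ^ V.card * ∏ B ∈ 𝓑, (1 - β * (1 / 2) ^ B.card) := by
  induction 𝓑 using Finset.induction_on with
  | empty => simp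
  | insert B 𝓑 hB ih =>
    have ih' := ih (fun C hC => hV C (mem_insert_of_mem hC))
      (fun C hC D hD => hd C (mem_insert_of_mem hC) D (mem_insert_of_mem hD))
    have h1 := cube_block V B (hV B (mem_insert_self _ _))
      (fun A => ∏ C ∈ 𝓑, (1 - β * (if Disjoint A C then 1 else 0))) (fun u hu A => by
        refine prod_congr rfl fun C hC => ?_
        have : u ∉ C := disjoint_left.1 (hd B (mem_insert_self _ _) C (mem_insert_of_mem hC)
          (fun e => hB (e ▸ hC))) hu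
        simp only [disjoint_insert_left, this, not_false_eq_true, true_and])
    simp only [prod_insert hB]
    have h2 : ∀ A : Finset ℤ, (1 - β * (if Disjoint A B then 1 else 0)) *
        ∏ C ∈ 𝓑, (1 - β * (if Disjoint A C then (1 : ℝ) else 0)) =
        ∏ C ∈ 𝓑, (1 - β * (if Disjoint A C then (1 : ℝ) else 0)) -
        β * ((if Disjoint A B then 1 else 0) *
          ∏ C ∈ 𝓑, (1 - β * (if Disjoint A C then (1 : ℝ) else 0))) := fun A => by ring
    simp only [h2]
    rw [sum_sub_distrib, ← mul_sum, h1, ih']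
    ring

lemma cube_count (V : Finset ℤ) (𝓕 : Finset (Finset ℤ)) (hF : 𝓕 ⊆ V.powerset)
    (hne : 𝓕.Nonempty) {η : ℝ} (h0 : 0 < η) (h1 : η ≤ 1) (𝓑 : Finset (Finset ℤ))
    (hV : ∀ B ∈ 𝓑, B ⊆ V) (hn : ∀ B ∈ 𝓑, B.Nonempty)
    (hd : ∀ B ∈ 𝓑, ∀ C ∈ 𝓑, B ≠ C → Disjoint B C)
    (hdev : ∀ B ∈ 𝓑, ∑ A ∈ 𝓕, (if Disjoint A B then (1 : ℝ) else 0) ≤
      ((1 / 2) ^ B.card - η) * 𝓕.card) :
    η ^ 2 * 𝓑.card ≤ 2 * (V.card * Real.log 2 - Real.log 𝓕.card) := by
  have hf : (0 : ℝ) < 𝓕.card := by exact_mod_cast hne.card_pos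
  set β := 1 - Real.exp (-η) with hβ
  have hβ0 : 0 ≤ β := by
    have := Real.exp_le_one_iff.2 (by linarith : -η ≤ 0); linarith
  have hβ1 : β ≤ 1 := by have := Real.exp_pos (-η); linarith
  have hβ2 : η - η ^ 2 ≤ β := by
    have := Real.abs_exp_sub_one_sub_id_le (x := -η) (by rw [abs_neg, abs_of_pos h0]; exact h1)
    have := (abs_le.1 this).2
    nlinarith
  let m : Finset ℤ → ℝ := fun A => ∑ B ∈ 𝓑, (if Disjoint A B then (1 : ℝ) else 0)
  have hw : ∀ A, ∏ B ∈ 𝓑, (1 - β * (if Disjoint A B then (1 : ℝ) else 0)) =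
      Real.exp (-η * m A) := by
    intro A
    simp only [m]
    rw [mul_sum, Real.exp_sum]
    refine prod_congr rfl fun B _ => ?_
    split_ifs <;> simp [hβ]
  set σ := ∑ B ∈ 𝓑, (1 / 2 : ℝ) ^ B.card with hσ
  have hσ1 : σ ≤ 𝓑.card * (1 / 2) := by
    have := sum_le_card_nsmul 𝓑 (fun B => (1 / 2 : ℝ) ^ B.card) (1 / 2) fun B hB =>
      pow_le_of_le_one (by norm_num) (by norm_num) (hn B hB).card_pos.ne'
    rwa [nsmul_eq_mul] at this
  have hσ0 : 0 ≤ σ := sum_nonneg fun B _ => by positivity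
  have e1 : ∑ A ∈ 𝓕, Real.exp (-η * m A) ≤ 2 ^ V.card * Real.exp (-β * σ) := by
    refine (sum_le_sum_of_subset_of_nonneg hF fun A _ _ => (Real.exp_pos _).le).trans ?_
    simp only [← hw]
    rw [cube_prod V β 𝓑 hV hd]
    refine mul_le_mul_of_nonneg_left ?_ (by positivity)
    rw [hσ, mul_sum, Real.exp_sum]
    refine prod_le_prod (fun B _ => ?_) fun B _ => ?_
    · have : (1 / 2 : ℝ) ^ B.card ≤ 1 := pow_le_one₀ (by norm_num) (by norm_num)
      nlinarith [mul_le_mul hβ1 this (by positivity) zero_le_one]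
    · have := Real.add_one_le_exp (-β * (1 / 2) ^ B.card); linarith
  set s := (∑ A ∈ 𝓕, -η * m A) / 𝓕.card with hs
  have e2 : Real.exp s * 𝓕.card ≤ ∑ A ∈ 𝓕, Real.exp (-η * m A) := by
    have : ∑ A ∈ 𝓕, Real.exp s * (1 + (-η * m A - s)) ≤ ∑ A ∈ 𝓕, Real.exp (-η * m A) := by
      refine sum_le_sum fun A _ => ?_
      have a1 := Real.add_one_le_exp (-η * m A - s)
      have a2 : Real.exp (-η * m A) = Real.exp s * Real.exp (-η * m A - s) := by
        rw [← Real.exp_add]; congr 1; ring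
      rw [a2]
      exact mul_le_mul_of_nonneg_left (by linarith) (Real.exp_pos _).le
    refine le_trans (le_of_eq ?_) this
    rw [← mul_sum, sum_add_distrib, sum_sub_distrib]
    simp only [sum_const, nsmul_eq_mul, mul_one]
    rw [hs]
    field_simp
    ring
  have e3 : s + Real.log 𝓕.card ≤ V.card * Real.log 2 + -β * σ := by
    have := Real.log_le_log (by positivity) (e2.trans e1)
    rwa [Real.log_mul (by positivity) hf.ne', Real.log_mul (by positivity) (by positivity),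
      Real.log_exp, Real.log_exp, Real.log_pow] at this
  have e4 : -η * (σ - η * 𝓑.card) ≤ s := by
    rw [hs, le_div_iff₀ hf, ← mul_sum]
    have : ∑ A ∈ 𝓕, m A ≤ (σ - η * 𝓑.card) * 𝓕.card := by
      simp only [m]
      rw [sum_comm]
      refine (sum_le_sum hdev).trans (le_of_eq ?_)
      rw [← sum_mul, sum_sub_distrib, sum_const, nsmul_eq_mul]
      ring
    nlinarith
  have e5 := mul_le_mul_of_nonneg_right hβ2 hσ0
  have e6 := mul_le_mul_of_nonneg_left hσ1 (sq_nonneg η)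
  nlinarith

lemma cube_cover (V : Finset ℤ) (𝓕 : Finset (Finset ℤ)) (hF : 𝓕 ⊆ V.powerset)
    (hne : 𝓕.Nonempty) {η : ℝ} (h0 : 0 < η) (h1 : η ≤ 1) :
    ∃ X : Finset ℤ, η ^ 2 * X.card ≤ 4 * (V.card * Real.log 2 - Real.log 𝓕.card) ∧
      ∀ B ⊆ V, B.Nonempty → B.card ≤ 2 → Disjoint B X →
        ((1 / 2) ^ B.card - η) * 𝓕.card ≤ ∑ A ∈ 𝓕, (if Disjoint A B then (1 : ℝ) else 0) := by
  classical
  let good : Finset (Finset ℤ) → Prop := fun 𝓑 =>
    (∀ B ∈ 𝓑, B.Nonempty ∧ B.card ≤ 2 ∧ ∑ A ∈ 𝓕, (if Disjoint A B then (1 : ℝ) else 0) ≤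
      ((1 / 2) ^ B.card - η) * 𝓕.card) ∧ ∀ B ∈ 𝓑, ∀ C ∈ 𝓑, B ≠ C → Disjoint B C
  obtain ⟨𝓑, h𝓑, hmax⟩ := exists_max_image (V.powerset.powerset.filter good) card
    ⟨∅, by simp [good]⟩
  obtain ⟨hsub, hg1, hg2⟩ := mem_filter.1 h𝓑
  have hV : ∀ B ∈ 𝓑, B ⊆ V := fun B hB => mem_powerset.1 (mem_powerset.1 hsub hB)
  refine ⟨𝓑.biUnion id, ?_, ?_⟩
  · have a1 := cube_count V 𝓕 hF hne h0 h1 𝓑 hV (fun B hB => (hg1 B hB).1) hg2
      (fun B hB => (hg1 B hB).2.2)
    have a2 : ((𝓑.biUnion id).card : ℝ) ≤ 𝓑.card * 2 := by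
      exact_mod_cast card_biUnion_le_card_mul 𝓑 id 2 fun B hB => (hg1 B hB).2.1
    nlinarith [sq_nonneg η]
  · intro B hB hn hc hdis
    by_contra hlt
    push Not at hlt
    have hdB : ∀ C ∈ 𝓑, Disjoint B C := fun C hC =>
      hdis.mono_right (subset_biUnion_of_mem id hC)
    have hnot : B ∉ 𝓑 := fun h => hn.ne_empty (disjoint_self.1 (hdB B h))
    have : insert B 𝓑 ∈ V.powerset.powerset.filter good := by
      refine mem_filter.2 ⟨mem_powerset.2 (insert_subset (mem_powerset.2 hB)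
        (mem_powerset.1 hsub)), ?_, ?_⟩
      · intro C hC
        rcases mem_insert.1 hC with rfl | hC
        · exact ⟨hn, hc, hlt.le⟩
        · exact hg1 C hC
      · intro C hC D hD hne
        rcases mem_insert.1 hC with hC1 | hC1
        · rcases mem_insert.1 hD with hD1 | hD1
          · exact absurd (hC1.trans hD1.symm) hne
          · exact hC1 ▸ hdB D hD1
        · rcases mem_insert.1 hD with hD1 | hD1
          · exact hD1 ▸ (hdB C hC1).symm
          · exact hg2 C hC1 D hD1 hne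
    have := hmax _ this
    rw [card_insert_of_notMem hnot] at this
    omega

end Pool.Agent.Lib.SidonDis
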