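import Pool.Agent.Lib.MP_ef4e97_co.Dis1

set_option autoImplicit false

open Finset

namespace Pool.Agent.Lib.SidonDis

lemma sq_sum_le (Q : Finset ℤ) (ν : ℤ → ℝ) (h0 : ∀ u, 0 ≤ ν u) (h1 : ∀ u ∈ Q, ν u ≤ 51 / 100)
    (h2 : ∀ u ∈ Q, ∀ v ∈ Q, u ≠ v → ν u + ν v ≤ 76 / 100) (h3 : ∑ u ∈ Q, ν u ≤ 101 / 100) :
    ∑ u ∈ Q, ν u ^ 2 ≤ 39 / 100 := by
  by_cases h : ∀ u ∈ Q, ν u ≤ 38 / 100
  · have : ∑ u ∈ Q, ν u ^ 2 ≤ ∑ u ∈ Q, 38 / 100 * ν u :=
      sum_le_sum fun u hu => by nlinarith [h u hu, h0 u]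
    rw [← mul_sum] at this
    linarith
  · push Not at h
    obtain ⟨u, hu, hlt⟩ := h
    rw [← add_sum_erase Q _ hu] at h3 ⊢
    have a1 : ∑ v ∈ Q.erase u, ν v ^ 2 ≤ ∑ v ∈ Q.erase u, (76 / 100 - ν u) * ν v :=
      sum_le_sum fun v hv => by
        have := h2 u hu v (mem_of_mem_erase hv) (ne_of_mem_erase hv).symm
        nlinarith [h0 v]
    rw [← mul_sum] at a1
    have a2 := h1 u hu
    have a3 : (76 / 100 - ν u) * ∑ v ∈ Q.erase u, ν v ≤ (76 / 100 - ν u) * (101 / 100 - ν u) :=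
      mul_le_mul_of_nonneg_left (by linarith) (by linarith)
    nlinarith

lemma card_diff_le {S : Finset ℤ} (hS : Sid S) (H : Finset ℤ) (h0 : (0 : ℤ) ∉ H) :
    ((S ×ˢ S).filter (fun p => p.1 - p.2 ∈ H)).card ≤ H.card := by
  refine card_le_card_of_injOn (fun p => p.1 - p.2) (fun p hp => (mem_filter.1 hp).2) ?_
  intro p hp q hq e
  simp only [coe_filter, mem_product, Set.mem_ofPred_eq] at hp hq e
  rcases hS p.1 hp.1.1 q.2 hq.1.2 q.1 hq.1.1 p.2 hp.1.2 (by linarith) with c | c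
  · exact Prod.ext c.1 c.2.symm
  · exact absurd (by rw [c.1, sub_self] at hp; exact hp.2) h0

lemma card_sum_le {S : Finset ℤ} (hS : Sid S) (H : Finset ℤ) :
    ((S ×ˢ S).filter (fun p => p.1 + p.2 ∈ H)).card ≤ H.card * 2 := by
  have : (H ×ˢ (univ : Finset Bool)).card = H.card * 2 := by simp
  rw [← this]
  refine card_le_card_of_injOn (fun p => (p.1 + p.2, decide (p.1 < p.2)))
    (fun p hp => mem_product.2 ⟨(mem_filter.1 hp).2, mem_univ _⟩) ?_
  intro p hp q hq e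
  simp only [coe_filter, mem_product, Set.mem_ofPred_eq, Prod.mk.injEq, decide_eq_decide] at hp hq e
  rcases hS p.1 hp.1.1 p.2 hp.1.2 q.1 hq.1.1 q.2 hq.1.2 e.1 with c | c
  · exact Prod.ext c.1 c.2
  · have := e.2
    refine Prod.ext ?_ ?_ <;> omega

lemma card_triple_le {S : Finset ℤ} (hS : Sid S) (V P P' : Finset ℤ) (ε ε' : ℤ)
    (hε : ε = 1 ∨ ε = -1) (hε' : ε' = 1 ∨ ε' = -1) :
    ((V ×ˢ S.offDiag).filter (fun p => p.2.1 + ε * p.1 ∈ P ∧ p.2.2 + ε' * p.1 ∈ P')).card ≤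
      P.card * P'.card * 2 := by
  have : ((P ×ˢ P') ×ˢ (univ : Finset Bool)).card = P.card * P'.card * 2 := by simp
  rw [← this]
  refine card_le_card_of_injOn
    (fun p => ((p.2.1 + ε * p.1, p.2.2 + ε' * p.1), decide (p.2.1 < p.2.2)))
    (fun p hp => mem_product.2 ⟨mem_product.2 (mem_filter.1 hp).2, mem_univ _⟩) ?_
  rintro ⟨x, u, v⟩ hp ⟨x', u', v'⟩ hq e
  simp only [coe_filter, mem_product, Set.mem_ofPred_eq, Prod.mk.injEq, decide_eq_decide,
    mem_offDiag] at hp hq e ⊢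
  obtain ⟨⟨-, hu, hv, huv⟩, -⟩ := hp
  obtain ⟨⟨-, hu', hv', huv'⟩, -⟩ := hq
  obtain ⟨⟨e1, e2⟩, e3⟩ := e
  rcases hε with rfl | rfl <;> rcases hε' with rfl | rfl
  · have := hS u hu v' hv' u' hu' v hv (by linarith); omega
  · have := hS u hu v hv u' hu' v' hv' (by linarith); omega
  · have := hS u hu v hv u' hu' v' hv' (by linarith); omega
  · have := hS u hu v' hv' u' hu' v hv (by linarith); omega

section ET
variable (G H Sg : Finset ℤ) (ν : ℤ → ℝ)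

noncomputable def WW (h : ℤ) : ℝ := ∑ x ∈ G, ∑ y ∈ G, (if x - y = h then 1 else 0) * (ν x * ν y)

noncomputable def UU (h : ℤ) : ℝ := ∑ c ∈ G, ∑ b ∈ G, ∑ a ∈ G, ∑ d ∈ G,
  (if a + b = c + d ∧ a - c ∉ H ∧ a - d ∉ H ∧ a + b ∉ Sg ∧ a - d = h then 1 else 0) *
    (ν a * ν b * ν c * ν d)

noncomputable def phi (x : ℤ) : ℝ :=
  ∑ u ∈ G, (if u - x ∈ H then 1 else 0) * ν u ^ 2 + ∑ u ∈ G, (if u + x ∈ Sg then 1 else 0) * ν u ^ 2

variable {G H Sg ν}

lemma sum_pair_fst (h : ℤ) (g : ℤ → ℝ) (hg : ∀ x, 0 ≤ g x) :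
    ∑ x ∈ G, ∑ y ∈ G, (if x - y = h then 1 else 0) * g x ≤ ∑ x ∈ G, g x := by
  refine sum_le_sum fun x _ => ?_
  have : ∀ y, (x - y = h) ↔ (y = x - h) := fun y => ⟨fun e => by linarith, fun e => by linarith⟩
  simp only [this, ite_mul, one_mul, zero_mul, sum_ite_eq']
  split_ifs
  · exact le_rfl
  · exact hg x

lemma sum_pair_snd (h : ℤ) (g : ℤ → ℝ) (hg : ∀ x, 0 ≤ g x) :
    ∑ x ∈ G, ∑ y ∈ G, (if x - y = h then 1 else 0) * g y ≤ ∑ x ∈ G, g x := by
  rw [sum_comm]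
  refine sum_le_sum fun y _ => ?_
  have : ∀ x, (x - y = h) ↔ (x = y + h) := fun y => ⟨fun e => by linarith, fun e => by linarith⟩
  simp only [this, ite_mul, one_mul, zero_mul, sum_ite_eq']
  split_ifs
  · exact le_rfl
  · exact hg y

lemma WW_nonneg (h0 : ∀ u, 0 ≤ ν u) (h : ℤ) : 0 ≤ WW G ν h :=
  sum_nonneg fun x _ => sum_nonneg fun y _ =>
    mul_nonneg (by split_ifs <;> norm_num) (mul_nonneg (h0 x) (h0 y))

lemma UU_nonneg (h0 : ∀ u, 0 ≤ ν u) (h : ℤ) : 0 ≤ UU G H Sg ν h :=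
  sum_nonneg fun _ _ => sum_nonneg fun _ _ => sum_nonneg fun _ _ => sum_nonneg fun _ _ =>
    mul_nonneg (by split_ifs <;> norm_num)
      (mul_nonneg (mul_nonneg (mul_nonneg (h0 _) (h0 _)) (h0 _)) (h0 _))

lemma WW_le_sum (h0 : ∀ u, 0 ≤ ν u) (h1 : ∀ u, ν u ≤ 1) (h : ℤ) : WW G ν h ≤ ∑ x ∈ G, ν x := by
  refine le_trans ?_ (sum_pair_fst h ν h0)
  refine sum_le_sum fun x _ => sum_le_sum fun y _ => ?_
  refine mul_le_mul_of_nonneg_left ?_ (by split_ifs <;> norm_num)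
  nlinarith [h0 x, h1 y]

lemma WW_le_local (h0 : ∀ u, 0 ≤ ν u) {θ : ℝ} (hφ : ∀ x ∈ G, phi G H Sg ν x ≤ θ) {h : ℤ}
    (hh : h ∉ H) {c b : ℤ} (hc : c ∈ G) (hb : b ∈ G) (e : c - b = h) :
    WW G ν h ≤ θ + ∑ a ∈ G, ∑ d ∈ G,
      (if a + b = c + d ∧ a - c ∉ H ∧ a - d ∉ H ∧ a + b ∉ Sg ∧ a - d = h then 1 else 0) *
        (ν a * ν d) := by
  have i0 : ∀ (P : Prop) [Decidable P] (u : ℤ), 0 ≤ (if P then (1 : ℝ) else 0) * ν u ^ 2 :=
    fun P _ u => mul_nonneg (by split_ifs <;> norm_num) (sq_nonneg _)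
  have s1 := sum_pair_fst (G := G) h (fun u => (if u - c ∈ H then 1 else 0) * ν u ^ 2)
    fun u => i0 _ u
  have s2 := sum_pair_snd (G := G) h (fun u => (if u - b ∈ H then 1 else 0) * ν u ^ 2)
    fun u => i0 _ u
  have s3 := sum_pair_snd (G := G) h (fun u => (if u + c ∈ Sg then 1 else 0) * ν u ^ 2)
    fun u => i0 _ u
  have s4 := sum_pair_fst (G := G) h (fun u => (if u + b ∈ Sg then 1 else 0) * ν u ^ 2)
    fun u => i0 _ u
  have p1 := hφ c hc
  have p2 := hφ b hb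
  unfold phi at p1 p2
  have key : 2 * WW G ν h ≤
      ∑ x ∈ G, ∑ y ∈ G, (if x - y = h then 1 else 0) * ((if x - c ∈ H then 1 else 0) * ν x ^ 2) +
      ∑ x ∈ G, ∑ y ∈ G, (if x - y = h then 1 else 0) * ((if y - b ∈ H then 1 else 0) * ν y ^ 2) +
      ∑ x ∈ G, ∑ y ∈ G, (if x - y = h then 1 else 0) * ((if y + c ∈ Sg then 1 else 0) * ν y ^ 2) +
      ∑ x ∈ G, ∑ y ∈ G, (if x - y = h then 1 else 0) * ((if x + b ∈ Sg then 1 else 0) * ν x ^ 2) +
      2 * ∑ a ∈ G, ∑ d ∈ G,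
      (if a + b = c + d ∧ a - c ∉ H ∧ a - d ∉ H ∧ a + b ∉ Sg ∧ a - d = h then 1 else 0) *
        (ν a * ν d) := by
    unfold WW
    simp only [mul_sum, ← sum_add_distrib]
    refine sum_le_sum fun x _ => sum_le_sum fun y _ => ?_
    by_cases e1 : x - y = h
    · have e2 : y - b = x - c := by linarith
      have e3 : y + c = x + b := by linarith
      have e4 : x + b = c + y := by linarith
      have q1 := sq_nonneg (ν x - ν y)
      have q2 := sq_nonneg (ν x)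
      have q3 := sq_nonneg (ν y)
      have q4 := mul_nonneg (h0 x) (h0 y)
      rw [e2, e3, if_pos e1]
      by_cases c1 : x - c ∈ H <;> by_cases c2 : x + b ∈ Sg
      · rw [if_pos c1, if_pos c2, if_neg (fun z => z.2.1 c1)]; nlinarith
      · rw [if_pos c1, if_neg c2, if_neg (fun z => z.2.1 c1)]; nlinarith
      · rw [if_neg c1, if_pos c2, if_neg (fun z => z.2.2.2.1 c2)]; nlinarith
      · rw [if_neg c1, if_neg c2, if_pos ⟨e4, c1, e1 ▸ hh, c2, e1⟩]; nlinarith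
    · simp [e1]
  linarith

lemma WW_le (h0 : ∀ u, 0 ≤ ν u) {θ ζ : ℝ} (hθ : 0 ≤ θ) (hζ : 0 < ζ)
    (hφ : ∀ x ∈ G, phi G H Sg ν x ≤ θ) {h : ℤ} (hh : h ∉ H) :
    WW G ν h ≤ θ + ζ + UU G H Sg ν h / ζ := by
  have hW := WW_nonneg (G := G) h0 h
  have hU := UU_nonneg (G := G) (H := H) (Sg := Sg) h0 h
  have key : WW G ν h * WW G ν h ≤ WW G ν h * θ + UU G H Sg ν h := by
    nth_rewrite 1 [WW]
    nth_rewrite 2 [WW]
    unfold UU
    simp only [sum_mul, ← sum_add_distrib]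
    refine sum_le_sum fun c hc => sum_le_sum fun b hb => ?_
    by_cases e : c - b = h
    · have := mul_le_mul_of_nonneg_left (WW_le_local h0 hφ hh hc hb e) (mul_nonneg (h0 c) (h0 b))
      rw [if_pos e, one_mul]
      refine this.trans (le_of_eq ?_)
      rw [mul_add]
      congr 1
      simp only [mul_sum]
      exact sum_congr rfl fun a _ => sum_congr rfl fun d _ => by ring
    · rw [if_neg e]
      simp only [zero_mul, zero_add]
      exact sum_nonneg fun _ _ => sum_nonneg fun _ _ => mul_nonneg (by split_ifs <;> norm_num)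
        (mul_nonneg (mul_nonneg (mul_nonneg (h0 _) (h0 _)) (h0 _)) (h0 _))
  by_cases c : WW G ν h ≤ θ + ζ
  · have : 0 ≤ UU G H Sg ν h / ζ := by positivity
    linarith
  · push Not at c
    have : WW G ν h ≤ UU G H Sg ν h / ζ := by
      rw [le_div_iff₀ hζ]
      nlinarith
    linarith

lemma erdos_turan (n w : ℕ) (hG : G ⊆ Ico (0 : ℤ) n) (h0 : ∀ u, 0 ≤ ν u) (h1 : ∀ u, ν u ≤ 1)
    {θ ζ 𝒰 t : ℝ} (hθ : 0 ≤ θ) (hζ : 0 < ζ) (hφ : ∀ x ∈ G, phi G H Sg ν x ≤ θ)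
    (ht : ∑ x ∈ G, ν x ≤ t)
    (hU : ∑ c ∈ G, ∑ b ∈ G, ∑ a ∈ G, ∑ d ∈ G,
      (if a + b = c + d ∧ a - c ∉ H ∧ a - d ∉ H ∧ a + b ∉ Sg then 1 else 0) *
        (ν a * ν b * ν c * ν d) ≤ 𝒰) :
    (w * ∑ x ∈ G, ν x) ^ 2 ≤ (n + w) * (w * (w * (θ + ζ) + 𝒰 / ζ + H.card * t)) := by
  let m : ℤ → ℝ := fun z => ∑ j ∈ range w, ∑ x ∈ G, (if x + j = z then 1 else 0) * ν x
  have ht0 : 0 ≤ t := (sum_nonneg fun x _ => h0 x).trans ht
  have a1 : ∑ z ∈ Ico (0 : ℤ) (n + w), m z = w * ∑ x ∈ G, ν x := by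
    simp only [m]
    rw [sum_comm]
    have : ∀ j ∈ range w, ∑ z ∈ Ico (0 : ℤ) (n + w), ∑ x ∈ G,
        (if x + j = z then (1 : ℝ) else 0) * ν x = ∑ x ∈ G, ν x := by
      intro j hj
      rw [sum_comm]
      refine sum_congr rfl fun x hx => ?_
      have hx' := mem_Ico.1 (hG hx)
      have hj' := mem_range.1 hj
      simp only [ite_mul, one_mul, zero_mul, sum_ite_eq]
      rw [if_pos (mem_Ico.2 ⟨by omega, by omega⟩)]
    rw [sum_congr rfl this, sum_const, card_range, nsmul_eq_mul]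
  have a2 : ∑ z ∈ Ico (0 : ℤ) (n + w), m z ^ 2 ≤
      ∑ j ∈ range w, ∑ l ∈ range w, WW G ν ((l : ℤ) - j) := by
    have b1 : ∀ z, m z ^ 2 = ∑ j ∈ range w, ∑ l ∈ range w, ∑ x ∈ G, ∑ y ∈ G,
        ((if x + j = z then (1 : ℝ) else 0) * ν x) * ((if y + l = z then (1 : ℝ) else 0) * ν y) := by
      intro z
      simp only [m, sq]
      rw [sum_mul_sum]
      exact sum_congr rfl fun j _ => sum_congr rfl fun l _ => sum_mul_sum _ _ _ _
    simp only [b1]
    rw [sum_comm]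
    refine sum_le_sum fun j _ => ?_
    rw [sum_comm]
    refine sum_le_sum fun l _ => ?_
    rw [sum_comm]
    refine sum_le_sum fun x _ => ?_
    rw [sum_comm]
    refine sum_le_sum fun y _ => ?_
    simp only [ite_mul, one_mul, zero_mul, sum_ite_eq]
    have q := mul_nonneg (h0 x) (h0 y)
    split_ifs with c1 c2 c3 c4 c5
    · exact le_rfl
    · exact absurd (by linarith) c3
    · simpa using q
    · simp
    · exact q
    · exact le_rfl
  have a3 : ∀ j ∈ range w, ∑ l ∈ range w, WW G ν ((l : ℤ) - j) ≤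
      w * (θ + ζ) + 𝒰 / ζ + H.card * t := by
    intro j _
    have b1 : ∀ l ∈ range w, WW G ν ((l : ℤ) - j) ≤ (θ + ζ) + UU G H Sg ν ((l : ℤ) - j) / ζ +
        (if (l : ℤ) - j ∈ H then 1 else 0) * t := by
      intro l _
      have hU0 : 0 ≤ UU G H Sg ν ((l : ℤ) - j) / ζ := div_nonneg (UU_nonneg h0 _) hζ.le
      split_ifs with c
      · have := WW_le_sum (G := G) h0 h1 ((l : ℤ) - j); linarith
      · have := WW_le h0 hθ hζ hφ c; linarith
    refine (sum_le_sum b1).trans ?_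
    rw [sum_add_distrib, sum_add_distrib, sum_const, card_range, nsmul_eq_mul, ← sum_div,
      ← sum_mul, sum_boole]
    have b2 : (((range w).filter (fun l : ℕ => (l : ℤ) - j ∈ H)).card : ℝ) ≤ H.card := by
      exact_mod_cast card_le_card_of_injOn (fun l : ℕ => (l : ℤ) - j)
        (fun l hl => (mem_filter.1 hl).2) (fun l _ l' _ e => by simp only at e; omega)
    have b3 : ∑ l ∈ range w, UU G H Sg ν ((l : ℤ) - j) ≤ 𝒰 := by
      refine le_trans ?_ hU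
      unfold UU
      rw [sum_comm]
      refine sum_le_sum fun c _ => ?_
      rw [sum_comm]
      refine sum_le_sum fun b _ => ?_
      rw [sum_comm]
      refine sum_le_sum fun a _ => ?_
      rw [sum_comm]
      refine sum_le_sum fun d _ => ?_
      rw [← sum_mul]
      refine mul_le_mul_of_nonneg_right ?_
        (mul_nonneg (mul_nonneg (mul_nonneg (h0 _) (h0 _)) (h0 _)) (h0 _))
      split_ifs with c1
      · rw [sum_boole]
        have : ((range w).filter (fun l : ℕ => a + b = c + d ∧ a - c ∉ H ∧ a - d ∉ H ∧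
            a + b ∉ Sg ∧ a - d = (l : ℤ) - j)).card ≤ 1 := by
          refine card_le_one.2 fun l hl l' hl' => ?_
          have e1 := (mem_filter.1 hl).2.2.2.2.2
          have e2 := (mem_filter.1 hl').2.2.2.2.2
          omega
        exact_mod_cast this
      · refine (sum_eq_zero fun l _ => ?_).le
        rw [if_neg]
        exact fun z => c1 ⟨z.1, z.2.1, z.2.2.1, z.2.2.2.1⟩
    have b4 := div_le_div_of_nonneg_right b3 hζ.le
    have b5 := mul_le_mul_of_nonneg_right b2 ht0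
    linarith
  have a4 := sum_le_card_nsmul _ _ _ a3
  rw [card_range, nsmul_eq_mul] at a4
  have a5 := sq_sum_le_card_mul_sum_sq (s := Ico (0 : ℤ) (n + w)) (f := m)
  have a6 : ((Ico (0 : ℤ) (n + w)).card : ℝ) = n + w := by
    rw [Int.card_Ico, sub_zero]
    have : ((n : ℤ) + w).toNat = n + w := by omega
    rw [this]; push_cast; ring
  rw [a1, a6] at a5
  exact a5.trans (mul_le_mul_of_nonneg_left (a2.trans a4) (by positivity))

end ET

end Pool.Agent.Lib.SidonDis
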