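import Pool.Agent.Lib.MP_ef4e97_co.Dis5
import Pool.Agent.Lib.MP_ef4e97_co.Dis6
import Pool.Agent.Lib.MP_ef4e97_co.Dis7

set_option autoImplicit false

open Finset

namespace Pool.Agent.Lib.SidonDis

namespace Fam

variable {V : Finset ℤ} {t : ℕ} (F : Fam V t)

lemma pop_le {U : Finset ℤ} (h : 0 < F.N U) {τ : ℝ} (hτ : 8 ≤ τ * (t : ℝ) ^ 2)
    (f : ℤ → ℤ → ℤ) (P : Finset ℤ)
    (hP : ∀ s ∈ P, τ ≤ ∑ x ∈ V, F.mu U x * ∑ y ∈ V, F.mu U y * (if f x y = s then 1 else 0))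
    (hc : ∀ A ∈ F.Ω, ((F.S A ×ˢ F.S A).filter (fun p => f p.1 p.2 ∈ P)).card ≤ P.card * 2) :
    τ * P.card ≤ 4 * F.KLb (Fin 2) U := by
  have ht := F.tpos'
  let g : ℤ → ℤ → ℝ := fun a c => if f a c ∈ P then 1 else 0
  have h01 : (0 : Fin 2) ≠ 1 := by decide
  have h1 := F.transfer1 (κ := Fin 2) h (fun z => g (z 0) (z 1)) 1 zero_le_one
    (fun z _ => by simp only [g]; split_ifs <;> norm_num)
    (fun z _ => by simp only [g]; split_ifs <;> norm_num)
  rw [PE_two V _ (F.sum_mu h) h01 g] at h1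
  have h2 : τ * P.card ≤ ∑ a ∈ V, F.mu U a * ∑ c ∈ V, F.mu U c * g a c := by
    have := card_nsmul_le_sum P _ τ hP
    rw [nsmul_eq_mul, mul_comm] at this
    refine this.trans (le_of_eq ?_)
    rw [sum_comm]
    refine sum_congr rfl fun a _ => ?_
    rw [← mul_sum, sum_comm]
    congr 1
    refine sum_congr rfl fun c _ => ?_
    rw [← mul_sum, sum_ite_eq]
  have h3 : F.Ex U (fun z : Fin 2 → ℤ => g (z 0) (z 1)) ≤ P.card * 2 / (t : ℝ) ^ 2 := by
    unfold Ex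
    rw [div_le_iff₀ h]
    have : ∀ A ∈ F.Om U, PE (F.S A) (fun _ => (1 / t : ℝ)) (fun z : Fin 2 → ℤ => g (z 0) (z 1)) ≤
        P.card * 2 / (t : ℝ) ^ 2 := by
      intro A hA
      have hA' := (F.mem_Om.1 hA).1
      rw [PE_two _ _ (F.hsum hA') h01 g]
      have e : ∑ a ∈ F.S A, (1 / t : ℝ) * ∑ c ∈ F.S A, (1 / t : ℝ) * g a c =
          (((F.S A ×ˢ F.S A).filter (fun p => f p.1 p.2 ∈ P)).card : ℝ) / (t : ℝ) ^ 2 := by
        rw [← sum_boole, sum_product, sum_div]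
        refine sum_congr rfl fun a _ => ?_
        rw [← mul_sum]
        simp only [g]
        field_simp
      rw [e]
      exact div_le_div_of_nonneg_right (by exact_mod_cast hc A hA') (by positivity)
    have := sum_le_card_nsmul _ _ _ this
    rw [nsmul_eq_mul, mul_comm] at this
    exact this
  have h4 : (P.card : ℝ) * 2 / (t : ℝ) ^ 2 ≤ τ * P.card / 4 := by
    rw [div_le_div_iff₀ (by positivity) (by norm_num)]
    have := mul_le_mul_of_nonneg_left hτ (Nat.cast_nonneg (α := ℝ) P.card)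
    nlinarith
  linarith

lemma card_HS {U : Finset ℤ} (h : 0 < F.N U) {τ : ℝ} (hτ0 : 0 < τ) (hτ : 8 ≤ τ * (t : ℝ) ^ 2) :
    ((HH V (F.mu U) τ).card : ℝ) + (SS V (F.mu U) τ).card ≤ 1 + 8 * F.KLb (Fin 2) U / τ := by
  have h1 := F.pop_le h hτ (fun x y => x - y) ((HH V (F.mu U) τ).erase 0)
    (fun s hs => by
      obtain ⟨a, b⟩ := mem_erase.1 hs
      rcases mem_insert.1 b with c | c
      · exact absurd c a
      · exact (mem_filter.1 c).2)
    (fun A hA => (card_diff_le (F.sid A hA) _ (notMem_erase _ _)).trans (by omega))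
  have h2 := F.pop_le h hτ (fun x y => x + y) (SS V (F.mu U) τ)
    (fun s hs => (mem_filter.1 hs).2) (fun A hA => card_sum_le (F.sid A hA) _)
  have h3 : ((HH V (F.mu U) τ).card : ℝ) = ((HH V (F.mu U) τ).erase 0).card + 1 := by
    exact_mod_cast (card_erase_add_one (mem_insert_self _ _)).symm
  have h4 : (((HH V (F.mu U) τ).erase 0).card : ℝ) + (SS V (F.mu U) τ).card ≤
      8 * F.KLb (Fin 2) U / τ := by
    rw [le_div_iff₀ hτ0]; nlinarith
  linarith

noncomputable def nu (U : Finset ℤ) (x : ℤ) : ℝ := F.N (insert x U) / F.N U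

lemma nu_eq (U : Finset ℤ) (x : ℤ) : F.nu U x = t * F.mu U x := by
  have ht := F.tpos'
  unfold nu mu
  rw [← div_div, mul_div_assoc', mul_div_cancel₀ _ ht.ne']

lemma nu_nonneg (U : Finset ℤ) (x : ℤ) : 0 ≤ F.nu U x :=
  div_nonneg (F.N_nonneg _) (F.N_nonneg _)

lemma nu_le (U : Finset ℤ) (x : ℤ) : F.nu U x ≤ 1 :=
  div_le_one_of_le₀ (F.N_anti (subset_insert _ _)) (F.N_nonneg _)

lemma sum_nu {U : Finset ℤ} (h : 0 < F.N U) : ∑ x ∈ V, F.nu U x = t := by
  simp only [nu_eq]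
  rw [← mul_sum, F.sum_mu h, mul_one]

lemma nu_eq_sum (U : Finset ℤ) (x : ℤ) :
    F.nu U x = (∑ A ∈ F.Om U, if x ∈ F.S A then (1 : ℝ) else 0) / F.N U := by
  unfold nu
  rw [insert_eq, union_comm, N_union]
  simp only [singleton_subset_iff]

noncomputable def kap (U H Sg : Finset ℤ) (x : ℤ) : ℝ :=
  (∑ A ∈ F.Om U, (((F.S A).offDiag.filter (fun p => (p.1 - x ∈ H ∨ p.1 + x ∈ Sg) ∧
    (p.2 - x ∈ H ∨ p.2 + x ∈ Sg))).card : ℝ)) / F.N U

lemma kap_nonneg (U H Sg : Finset ℤ) (x : ℤ) : 0 ≤ F.kap U H Sg x :=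
  div_nonneg (sum_nonneg fun _ _ => Nat.cast_nonneg _) (F.N_nonneg _)

lemma sum_kap {U : Finset ℤ} (h : 0 < F.N U) (H Sg : Finset ℤ) :
    ∑ x ∈ V, F.kap U H Sg x ≤ 2 * ((H.card : ℝ) + Sg.card) ^ 2 := by
  unfold kap
  rw [← sum_div, div_le_iff₀ h, sum_comm]
  have : ∀ A ∈ F.Om U, ∑ x ∈ V, (((F.S A).offDiag.filter (fun p => (p.1 - x ∈ H ∨ p.1 + x ∈ Sg) ∧
      (p.2 - x ∈ H ∨ p.2 + x ∈ Sg))).card : ℝ) ≤ 2 * ((H.card : ℝ) + Sg.card) ^ 2 := by
    intro A hA
    have hS := F.sid A (F.mem_Om.1 hA).1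
    have e : ∑ x ∈ V, (((F.S A).offDiag.filter (fun p => (p.1 - x ∈ H ∨ p.1 + x ∈ Sg) ∧
        (p.2 - x ∈ H ∨ p.2 + x ∈ Sg))).card : ℝ) =
        (((V ×ˢ (F.S A).offDiag).filter (fun p => (p.2.1 - p.1 ∈ H ∨ p.2.1 + p.1 ∈ Sg) ∧
          (p.2.2 - p.1 ∈ H ∨ p.2.2 + p.1 ∈ Sg))).card : ℝ) := by
      rw [← sum_boole, sum_product]
      exact sum_congr rfl fun x _ => by rw [sum_boole]
    rw [e]
    have c1 := card_triple_le hS V H H (-1) (-1) (Or.inr rfl) (Or.inr rfl)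
    have c2 := card_triple_le hS V H Sg (-1) 1 (Or.inr rfl) (Or.inl rfl)
    have c3 := card_triple_le hS V Sg H 1 (-1) (Or.inl rfl) (Or.inr rfl)
    have c4 := card_triple_le hS V Sg Sg 1 1 (Or.inl rfl) (Or.inl rfl)
    simp only [neg_one_mul, one_mul, ← sub_eq_add_neg] at c1 c2 c3 c4
    have c5 : ((V ×ˢ (F.S A).offDiag).filter (fun p => (p.2.1 - p.1 ∈ H ∨ p.2.1 + p.1 ∈ Sg) ∧
          (p.2.2 - p.1 ∈ H ∨ p.2.2 + p.1 ∈ Sg))).card ≤
        H.card * H.card * 2 + H.card * Sg.card * 2 + Sg.card * H.card * 2 +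
          Sg.card * Sg.card * 2 := by
      refine le_trans (card_le_card ?_) ((card_union_le _ _).trans (add_le_add
        ((card_union_le _ _).trans (add_le_add ((card_union_le _ _).trans (add_le_add c1 c2)) c3))
        c4))
      intro p hp
      simp only [mem_union, mem_filter] at hp ⊢
      tauto
    have c6 : ((H.card * H.card * 2 + H.card * Sg.card * 2 + Sg.card * H.card * 2 +
          Sg.card * Sg.card * 2 : ℕ) : ℝ) = 2 * ((H.card : ℝ) + Sg.card) ^ 2 := by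
      push_cast; ring
    rw [← c6]
    exact_mod_cast c5
  have := sum_le_card_nsmul _ _ _ this
  rw [nsmul_eq_mul, mul_comm] at this
  exact this

lemma phi_le {U : Finset ℤ} (h : 0 < F.N U) (H Sg X G : Finset ℤ) (hG : G ⊆ V)
    (hGX : Disjoint G X)
    (hX : ∀ B ⊆ V, B.Nonempty → B.card ≤ 2 → Disjoint B X →
      ((1 / 2) ^ B.card - 1 / 200) * ((F.Om U).card : ℝ) ≤
        ∑ A ∈ F.Om U, (if Disjoint A B then (1 : ℝ) else 0))
    {x : ℤ} (hx2 : ∀ η ∈ H, 2 * x + η ∉ Sg) (hx3 : F.kap U H Sg x ≤ 1 / 200) :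
    phi G H Sg (F.nu U) x ≤ 39 / 100 := by
  set Q := G.filter (fun u => u - x ∈ H ∨ u + x ∈ Sg) with hQ
  have e1 : phi G H Sg (F.nu U) x = ∑ u ∈ Q, F.nu U u ^ 2 := by
    unfold phi
    rw [← sum_add_distrib, hQ, sum_filter]
    refine sum_congr rfl fun u _ => ?_
    by_cases c1 : u - x ∈ H <;> by_cases c2 : u + x ∈ Sg
    · exact absurd (by have : 2 * x + (u - x) = u + x := by ring
                       rwa [this]) (hx2 _ c1)
    · simp [c1, c2]
    · simp [c1, c2]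
    · simp [c1, c2]
  have hN : ((F.Om U).card : ℝ) = F.N U := rfl
  have hN1 : ∑ _A ∈ F.Om U, (1 : ℝ) = F.N U := by simp [hN]
  unfold kap at hx3
  rw [div_le_iff₀ h] at hx3
  rw [e1]
  refine sq_sum_le Q _ (F.nu_nonneg U) ?_ ?_ ?_
  · intro u hu
    have hu' := (mem_filter.1 hu).1
    have a1 := hX {u} (singleton_subset_iff.2 (hG hu')) (singleton_nonempty u) (by simp)
      (hGX.mono_left (singleton_subset_iff.2 hu'))
    rw [card_singleton, hN] at a1
    have a2 : ∑ A ∈ F.Om U, (if u ∈ F.S A then (1 : ℝ) else 0) ≤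
        ∑ A ∈ F.Om U, (1 - if Disjoint A {u} then (1 : ℝ) else 0) := by
      refine sum_le_sum fun A hA => ?_
      have := F.sub A (F.mem_Om.1 hA).1
      simp only [disjoint_singleton_right]
      by_cases c : u ∈ F.S A
      · simp [c, this c]
      · simp only [c, if_false]; split_ifs <;> norm_num
    rw [sum_sub_distrib, hN1] at a2
    rw [nu_eq_sum, div_le_iff₀ h]
    linarith
  · intro u hu v hv huv
    have hu' := (mem_filter.1 hu).1
    have hv' := (mem_filter.1 hv).1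
    have hs : ({u, v} : Finset ℤ) ⊆ G := insert_subset hu' (singleton_subset_iff.2 hv')
    have a1 := hX {u, v} (hs.trans hG) (insert_nonempty _ _) card_le_two (hGX.mono_left hs)
    rw [card_pair huv, hN] at a1
    have a2 : ∑ A ∈ F.Om U, ((if u ∈ F.S A then (1 : ℝ) else 0) +
        (if v ∈ F.S A then (1 : ℝ) else 0)) ≤
        ∑ A ∈ F.Om U, ((1 - if Disjoint A {u, v} then (1 : ℝ) else 0) +
          (((F.S A).offDiag.filter (fun p => (p.1 - x ∈ H ∨ p.1 + x ∈ Sg) ∧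
            (p.2 - x ∈ H ∨ p.2 + x ∈ Sg))).card : ℝ)) := by
      refine sum_le_sum fun A hA => ?_
      have hsub := F.sub A (F.mem_Om.1 hA).1
      have z0 : (0 : ℝ) ≤ (((F.S A).offDiag.filter (fun p => (p.1 - x ∈ H ∨ p.1 + x ∈ Sg) ∧
            (p.2 - x ∈ H ∨ p.2 + x ∈ Sg))).card : ℝ) := Nat.cast_nonneg _
      simp only [disjoint_insert_right, disjoint_singleton_right]
      by_cases c1 : u ∈ F.S A <;> by_cases c2 : v ∈ F.S A
      · have : 1 ≤ ((F.S A).offDiag.filter (fun p => (p.1 - x ∈ H ∨ p.1 + x ∈ Sg) ∧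
            (p.2 - x ∈ H ∨ p.2 + x ∈ Sg))).card :=
          card_pos.2 ⟨(u, v), mem_filter.2 ⟨mem_offDiag.2 ⟨c1, c2, huv⟩,
            (mem_filter.1 hu).2, (mem_filter.1 hv).2⟩⟩
        have z1 : (1 : ℝ) ≤ (((F.S A).offDiag.filter (fun p => (p.1 - x ∈ H ∨ p.1 + x ∈ Sg) ∧
            (p.2 - x ∈ H ∨ p.2 + x ∈ Sg))).card : ℝ) := by exact_mod_cast this
        rw [if_pos c1, if_pos c2, if_neg (fun z => z.1 (hsub c1))]; linarith
      · rw [if_pos c1, if_neg c2, if_neg (fun z => z.1 (hsub c1))]; linarith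
      · rw [if_neg c1, if_pos c2, if_neg (fun z => z.2 (hsub c2))]; linarith
      · rw [if_neg c1, if_neg c2]; split_ifs <;> linarith
    rw [sum_add_distrib, sum_add_distrib, sum_sub_distrib, hN1] at a2
    rw [nu_eq_sum, nu_eq_sum, ← add_div, div_le_iff₀ h]
    linarith
  · simp only [nu_eq_sum]
    rw [← sum_div, div_le_iff₀ h, sum_comm]
    have a2 : ∑ A ∈ F.Om U, ∑ u ∈ Q, (if u ∈ F.S A then (1 : ℝ) else 0) ≤
        ∑ A ∈ F.Om U, (1 + (((F.S A).offDiag.filter (fun p => (p.1 - x ∈ H ∨ p.1 + x ∈ Sg) ∧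
            (p.2 - x ∈ H ∨ p.2 + x ∈ Sg))).card : ℝ)) := by
      refine sum_le_sum fun A _ => ?_
      rw [sum_boole]
      have b1 : (Q.filter (fun u => u ∈ F.S A)).offDiag ⊆
          (F.S A).offDiag.filter (fun p => (p.1 - x ∈ H ∨ p.1 + x ∈ Sg) ∧
            (p.2 - x ∈ H ∨ p.2 + x ∈ Sg)) := by
        intro p hp
        simp only [hQ, mem_offDiag, mem_filter] at hp ⊢
        tauto
      have b2 := card_le_card b1
      rw [offDiag_card] at b2
      have b3 : ∀ m : ℕ, m ≤ 1 + (m * m - m) := by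
        intro m
        rcases m with _ | m
        · simp
        · have : (m + 1) * (m + 1) = m * m + 2 * m + 1 := by ring
          omega
      exact_mod_cast (b3 _).trans (Nat.add_le_add_left b2 1)
    rw [sum_add_distrib, hN1] at a2
    linarith

lemma quad_le {U : Finset ℤ} (H Sg G : Finset ℤ) (hG : G ⊆ V) (hGU : Disjoint G U) :
    ∑ c ∈ G, ∑ b ∈ G, ∑ a ∈ G, ∑ d ∈ G,
      (if a + b = c + d ∧ a - c ∉ H ∧ a - d ∉ H ∧ a + b ∉ Sg then 1 else 0) *
        (F.nu U a * F.nu U b * F.nu U c * F.nu U d) ≤ (t : ℝ) ^ 4 * EE V U H Sg (F.mu U) := by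
  have n0 := F.nu_nonneg U
  have p0 : ∀ a b c d, 0 ≤ chi U H Sg a b c d * (F.nu U a * F.nu U b * F.nu U c * F.nu U d) :=
    fun a b c d => mul_nonneg (chi_nonneg _ _ _ _ _ _ _)
      (mul_nonneg (mul_nonneg (mul_nonneg (n0 _) (n0 _)) (n0 _)) (n0 _))
  have e1 : (t : ℝ) ^ 4 * EE V U H Sg (F.mu U) = ∑ c ∈ V, ∑ b ∈ V, ∑ a ∈ V, ∑ d ∈ V,
      chi U H Sg a b c d * (F.nu U a * F.nu U b * F.nu U c * F.nu U d) := by
    unfold EE ff ee
    simp only [mul_sum, nu_eq]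
    rw [sum_comm]
    refine sum_congr rfl fun c _ => ?_
    rw [sum_comm (s := V) (t := V) (f := fun b a => ∑ d ∈ V, chi U H Sg a b c d *
      (t * F.mu U a * (t * F.mu U b) * (t * F.mu U c) * (t * F.mu U d)))]
    refine sum_congr rfl fun a _ => ?_
    rw [sum_comm]
    exact sum_congr rfl fun b _ => sum_congr rfl fun d _ => by ring
  rw [e1]
  refine le_trans (sum_le_sum fun c hc => ?_) (sum_le_sum_of_subset_of_nonneg hG fun c _ _ =>
    sum_nonneg fun b _ => sum_nonneg fun a _ => sum_nonneg fun d _ => p0 _ _ _ _)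
  refine le_trans (sum_le_sum fun b _ => ?_) (sum_le_sum_of_subset_of_nonneg hG fun b _ _ =>
    sum_nonneg fun a _ => sum_nonneg fun d _ => p0 _ _ _ _)
  refine le_trans (sum_le_sum fun a ha => ?_) (sum_le_sum_of_subset_of_nonneg hG fun a _ _ =>
    sum_nonneg fun d _ => p0 _ _ _ _)
  refine le_trans (sum_le_sum fun d _ => le_of_eq ?_)
    (sum_le_sum_of_subset_of_nonneg hG fun d _ _ => p0 _ _ _ _)
  have a1 : a ∉ U := disjoint_left.1 hGU ha
  have c1 : c ∉ U := disjoint_left.1 hGU hc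
  unfold chi
  simp only [a1, c1, not_false_eq_true, true_and]

end Fam

lemma final_U {V : Finset ℤ} {n t : ℕ} (hV : V = Ico (0 : ℤ) n) (F : Fam V t) (w : ℕ) {U : Finset ℤ} (h : 0 < F.N U)
    {τ L C Γ b : ℝ} (hτ0 : 0 < τ) (hτ : 8 ≤ τ * (t : ℝ) ^ 2)
    (hL : 1 + 8 * F.KLb (Fin 2) U / τ ≤ L) (hC : n * Real.log 2 - Real.log (F.N U) ≤ C)
    (hΓ : F.E' τ U ≤ Γ) (hb : U.card + 160000 * C + 401 * L ^ 2 ≤ b) (hbt : b ≤ t) :
    (w * (t - b)) ^ 2 ≤ (n + w) * (w * (w * (40 / 100) + 100 * ((t : ℝ) ^ 4 * Γ) + L * t)) := by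
  have hL' := (F.card_HS h hτ0 hτ).trans hL
  unfold Fam.E' at hΓ
  generalize HH V (F.mu U) τ = H at hL' hΓ
  generalize SS V (F.mu U) τ = Sg at hL' hΓ
  have ht := F.tpos'
  have hH0 : (0 : ℝ) ≤ H.card := Nat.cast_nonneg _
  have hS0 : (0 : ℝ) ≤ Sg.card := Nat.cast_nonneg _
  have hL2 : ((H.card : ℝ) + Sg.card) ^ 2 ≤ L ^ 2 := pow_le_pow_left₀ (by positivity) hL' 2
  have hVc : V.card = n := by simp [hV]
  obtain ⟨X, hX1, hX2⟩ := cube_cover V (F.Om U)
    (fun A hA => mem_powerset.2 (F.subV A (F.mem_Om.1 hA).1))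
    (card_pos.1 (by unfold Fam.N at h; exact_mod_cast h)) (η := 1 / 200) (by norm_num) (by norm_num)
  have hXc : (X.card : ℝ) ≤ 160000 * C := by
    rw [hVc] at hX1
    have : Real.log ((F.Om U).card : ℝ) = Real.log (F.N U) := rfl
    linarith
  set X2 := V.filter (fun x => ∃ η ∈ H, 2 * x + η ∈ Sg) with hX2d
  set X3 := V.filter (fun x => 1 / 200 < F.kap U H Sg x) with hX3d
  have hX2c : (X2.card : ℝ) ≤ L ^ 2 := by
    have a1 : X2 ⊆ (H ×ˢ Sg).image (fun p => (p.2 - p.1) / 2) := by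
      intro x hx
      obtain ⟨η, h1, h2⟩ := (mem_filter.1 hx).2
      exact mem_image.2 ⟨(η, 2 * x + η), mem_product.2 ⟨h1, h2⟩, by simp⟩
    have a2 := (card_le_card a1).trans card_image_le
    rw [card_product] at a2
    have a3 : (X2.card : ℝ) ≤ H.card * Sg.card := by exact_mod_cast a2
    nlinarith
  have hX3c : (X3.card : ℝ) ≤ 400 * L ^ 2 := by
    have a1 := card_nsmul_le_sum X3 (F.kap U H Sg) (1 / 200) fun x hx => (mem_filter.1 hx).2.le
    have a2 : ∑ x ∈ X3, F.kap U H Sg x ≤ ∑ x ∈ V, F.kap U H Sg x :=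
      sum_le_sum_of_subset_of_nonneg (filter_subset _ _) fun x _ _ => F.kap_nonneg _ _ _ _
    have a3 := F.sum_kap h H Sg
    rw [nsmul_eq_mul] at a1
    linarith
  set B := U ∪ X ∪ X2 ∪ X3 with hB
  set G := V \ B with hG
  have hBc : (B.card : ℝ) ≤ b := by
    have : B.card ≤ U.card + X.card + X2.card + X3.card :=
      (card_union_le _ _).trans (Nat.add_le_add_right ((card_union_le _ _).trans
        (Nat.add_le_add_right (card_union_le _ _) _)) _)
    have : (B.card : ℝ) ≤ U.card + X.card + X2.card + X3.card := by exact_mod_cast this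
    linarith
  have hGV : G ⊆ V := sdiff_subset
  have hGB : Disjoint G B := sdiff_disjoint
  have hmass : t - b ≤ ∑ x ∈ G, F.nu U x := by
    have a1 := F.sum_nu h
    rw [← sum_sdiff (inter_subset_left : V ∩ B ⊆ V), sdiff_inter_self_left] at a1
    have a2 := sum_le_card_nsmul (V ∩ B) (F.nu U) 1 fun x _ => F.nu_le U x
    have a3 : ((V ∩ B).card : ℝ) ≤ B.card := by exact_mod_cast card_le_card inter_subset_right
    rw [nsmul_eq_mul] at a2
    linarith
  have hmass2 : ∑ x ∈ G, F.nu U x ≤ t := by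
    rw [← F.sum_nu h]
    exact sum_le_sum_of_subset_of_nonneg hGV fun x _ _ => F.nu_nonneg U x
  have hφ : ∀ x ∈ G, phi G H Sg (F.nu U) x ≤ 39 / 100 := by
    intro x hx
    have hxB := (mem_sdiff.1 hx).2
    refine F.phi_le h H Sg X G hGV (hGB.mono_right ?_) hX2 ?_ ?_
    · intro y hy; simp [hB, hy]
    · intro η h1 h2
      exact hxB (mem_union_left _ (mem_union_right _ (mem_filter.2 ⟨hGV hx, η, h1, h2⟩)))
    · by_contra hc
      exact hxB (mem_union_right _ (mem_filter.2 ⟨hGV hx, not_le.1 hc⟩))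
  have hq := F.quad_le (U := U) H Sg G hGV (hGB.mono_right fun y hy => by simp [hB, hy])
  have hq2 : (t : ℝ) ^ 4 * EE V U H Sg (F.mu U) ≤ (t : ℝ) ^ 4 * Γ :=
    mul_le_mul_of_nonneg_left hΓ (by positivity)
  have hE := erdos_turan n w (hV ▸ hGV) (F.nu_nonneg U) (F.nu_le U) (by norm_num)
    (ζ := 1 / 100) (by norm_num) hφ hmass2 (hq.trans hq2)
  have hw : (0 : ℝ) ≤ w := Nat.cast_nonneg _
  refine le_trans (pow_le_pow_left₀ (mul_nonneg hw (by linarith))
    (mul_le_mul_of_nonneg_left hmass hw) 2) (hE.trans ?_)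
  refine mul_le_mul_of_nonneg_left (mul_le_mul_of_nonneg_left ?_ hw) (by positivity)
  have : (H.card : ℝ) * t ≤ L * t := mul_le_mul_of_nonneg_right (by linarith) ht.le
  linarith

end Pool.Agent.Lib.SidonDis
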