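import Pool.Agent.Lib.MP_ef4e97_co.Dis8

set_option autoImplicit false

open Finset

namespace Pool.Agent.Lib.SidonDis

lemma offDiag_bounds (ι : Type) [Fintype ι] (h : 2 ≤ Fintype.card ι) :
    (Fintype.card ι : ℝ) ^ 2 / 2 ≤ ((univ : Finset ι).offDiag.card : ℝ) ∧
      ((univ : Finset ι).offDiag.card : ℝ) ≤ (Fintype.card ι : ℝ) ^ 2 := by
  rw [offDiag_card, card_univ, Nat.cast_sub (Nat.le_mul_self _)]
  have : (2 : ℝ) ≤ Fintype.card ι := by exact_mod_cast h
  push_cast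
  constructor <;> nlinarith

lemma main_param {V : Finset ℤ} {n t : ℕ} (hV : V = Ico (0 : ℤ) n) (F : Fam V t)
    (hΩ : (2 : ℝ) ^ n ≤ 2 * F.N ∅) (J k w : ℕ) (hJ : 2 ≤ J) (hk : 2 ≤ k)
    {τ lam D Γ C L b : ℝ} (hτ0 : 0 < τ) (hτ : 8 ≤ τ * (t : ℝ) ^ 2)
    (hs : t * (k : ℝ) ^ 2 * τ ≤ 1 / 16) (hlam : Real.log n ≤ lam) (hD0 : 0 < D)
    (hD : (k + 1) * lam / J ≤ D)
    (hΓ : 2 * (k : ℝ) ^ 2 * τ / t + 512 * D / (J : ℝ) ^ 2 + 192 * D / (t * (k : ℝ) ^ 2) +
      20 * (k : ℝ) ^ 3 * τ * D ≤ Γ)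
    (hC : 1 + 2 * J * lam ≤ C) (hL : 1 + 48 * D / τ ≤ L)
    (hb : 2 * J + 480000 * C + 401 * L ^ 2 ≤ b) (hbt : b ≤ t) :
    (w * (t - b)) ^ 2 ≤
      (n + w) * (w * (w * (40 / 100) + 100 * ((t : ℝ) ^ 4 * (3 * Γ)) + L * t)) := by
  have ht := F.tpos'
  have h0 : 0 < F.N ∅ := by
    have : (0 : ℝ) < 2 ^ n := by positivity
    linarith
  have hVc : V.card = n := by simp [hV]
  have hJ' : (2 : ℝ) ≤ J := by exact_mod_cast hJ
  have hk' : (2 : ℝ) ≤ k := by exact_mod_cast hk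
  have hlog : 0 ≤ Real.log (n : ℝ) := Real.log_natCast_nonneg n
  have hlam0 : 0 ≤ lam := hlog.trans hlam
  obtain ⟨i, hi1, hi2, hi3⟩ := F.exists_time h0 J (k + 1) (by omega)
  have hi4 : F.a i - F.a (i + (k + 1)) ≤ D := by
    refine hi3.trans (le_trans ?_ hD)
    rw [hVc]
    push_cast
    exact div_le_div_of_nonneg_right (mul_le_mul_of_nonneg_left hlam (by positivity))
      (by positivity)
  obtain ⟨p1, p2⟩ := offDiag_bounds (Fin k) (by simpa using hk)
  obtain ⟨q1, -⟩ := offDiag_bounds (Fin i ⊕ Fin k) (by simp; omega)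
  simp only [Fintype.card_fin, Fintype.card_sum] at p1 p2 q1
  have hQ : (J : ℝ) ^ 2 / 2 ≤ ((univ : Finset (Fin i ⊕ Fin k)).offDiag.card : ℝ) := by
    refine le_trans ?_ q1
    have : (J : ℝ) ≤ ((i + k : ℕ) : ℝ) := by exact_mod_cast (by omega : J ≤ i + k)
    have := pow_le_pow_left₀ (by positivity) this 2
    linarith
  have c1 := F.core_avg (Fin i) (Fin k) h0 (τ := τ) (D := D) hτ0.le
    (le_trans (mul_le_mul_of_nonneg_right (mul_le_mul_of_nonneg_left p2 ht.le) hτ0.le) hs)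
    (by simpa using hi4) (by positivity) hQ
  simp only [Fintype.card_fin] at c1
  set P := ((univ : Finset (Fin k)).offDiag.card : ℝ) with hP
  have hP0 : 0 < P := lt_of_lt_of_le (by positivity) p1
  have hΓ0 : 0 < Γ := lt_of_lt_of_le (by positivity) hΓ
  have hC0 : 0 < C := lt_of_lt_of_le (by positivity) hC
  have c2 : F.Ex ∅ (fun T : Fin i → ℤ => F.E' τ (im T)) ≤ Γ := by
    refine le_trans ?_ hΓ
    have d1 : P ^ 2 * (τ * (1 / t)) ≤ P / 2 * (2 * (k : ℝ) ^ 2 * τ / t) := by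
      have : P * (P * (τ / t)) ≤ P * ((k : ℝ) ^ 2 * (τ / t)) :=
        mul_le_mul_of_nonneg_left (mul_le_mul_of_nonneg_right p2 (by positivity)) hP0.le
      calc _ = P * (P * (τ / t)) := by ring
        _ ≤ _ := this
        _ = _ := by ring
    have d2 : 32 * (P * (4 * D / ((J : ℝ) ^ 2 / 2))) = P / 2 * (512 * D / (J : ℝ) ^ 2) := by
      field_simp; ring
    have d3 : 48 / t * D ≤ P / 2 * (192 * D / (t * (k : ℝ) ^ 2)) := by
      have : (k : ℝ) ^ 2 / 2 / 2 * (192 * D / (t * (k : ℝ) ^ 2)) ≤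
          P / 2 * (192 * D / (t * (k : ℝ) ^ 2)) :=
        mul_le_mul_of_nonneg_right (by linarith) (by positivity)
      refine le_trans (le_of_eq ?_) this
      field_simp; ring
    have d4 : 10 * P ^ 2 * τ * (k * D) ≤ P / 2 * (20 * (k : ℝ) ^ 3 * τ * D) := by
      have : P * (P * (10 * τ * k * D)) ≤ P * ((k : ℝ) ^ 2 * (10 * τ * k * D)) :=
        mul_le_mul_of_nonneg_left (mul_le_mul_of_nonneg_right p2 (by positivity)) hP0.le
      calc _ = P * (P * (10 * τ * k * D)) := by ring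
        _ ≤ _ := this
        _ = _ := by ring
    refine le_of_mul_le_mul_left ?_ (by positivity : 0 < P / 2)
    rw [mul_add, mul_add, mul_add]
    linarith
  have c3 := F.Ex_KLb_le (ι := Fin i) (κ := Fin 2) D fun j hj => by
    simp only [Fintype.card_fin] at hj ⊢
    have := F.a_anti' (show i + j ≤ i + (k + 1) by omega)
    linarith
  simp only [Fintype.card_fin, Nat.cast_ofNat] at c3
  have c4 : F.Ex ∅ (fun T : Fin i → ℤ => n * Real.log 2 - Real.log (F.N (im T))) ≤ C := by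
    rw [Fam.Ex_sub, F.Ex_const h0, Fam.L_eq, Fintype.card_fin]
    have e1 := F.L_ge h0 i
    have e2 := Real.log_le_log (by positivity) hΩ
    rw [Real.log_pow, Real.log_mul (by norm_num) h0.ne'] at e2
    have e3 : Real.log 2 ≤ 1 := by
      have := Real.log_le_sub_one_of_pos (show (0 : ℝ) < 2 by norm_num); linarith
    have e4 : (i : ℝ) ≤ 2 * J := by exact_mod_cast hi2.le
    rw [hVc] at e1
    have e5 : (i : ℝ) * Real.log n ≤ 2 * J * lam := mul_le_mul e4 hlam hlog (by positivity)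
    linarith
  obtain ⟨T, hT, hZ⟩ := F.exists_le h0 (fun T : Fin i → ℤ => 1 / Γ * F.E' τ (im T) +
    1 / (2 * D) * F.KLb (Fin 2) (im T) + 1 / C * (n * Real.log 2 - Real.log (F.N (im T)))) 3 (by
      rw [Fam.Ex_add, Fam.Ex_add, Fam.Ex_mul, Fam.Ex_mul, Fam.Ex_mul]
      have u1 := mul_le_mul_of_nonneg_left c2 (by positivity : 0 ≤ 1 / Γ)
      have u2 := mul_le_mul_of_nonneg_left c3 (by positivity : 0 ≤ 1 / (2 * D))
      have u3 := mul_le_mul_of_nonneg_left c4 (by positivity : 0 ≤ 1 / C)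
      rw [one_div_mul_cancel hΓ0.ne'] at u1
      rw [one_div_mul_cancel (by positivity)] at u2
      rw [one_div_mul_cancel hC0.ne'] at u3
      linarith)
  rw [empty_union] at hT
  have z1 : 0 ≤ F.E' τ (im T) := EE_nonneg (F.mu_nonneg _)
  have z2 : 0 ≤ F.KLb (Fin 2) (im T) := F.KLb_nonneg hT
  have z3 : 0 ≤ n * Real.log 2 - Real.log (F.N (im T)) := by
    have : F.N (im T) ≤ 2 ^ n := by
      have := card_le_card (show F.Om (im T) ⊆ V.powerset from
        fun A hA => mem_powerset.2 (F.subV A (F.mem_Om.1 hA).1))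
      rw [card_powerset, hVc] at this
      unfold Fam.N
      exact_mod_cast this
    have := Real.log_le_log hT this
    rw [Real.log_pow] at this
    linarith
  have y1 : 0 ≤ 1 / Γ * F.E' τ (im T) := by positivity
  have y2 : 0 ≤ 1 / (2 * D) * F.KLb (Fin 2) (im T) := by positivity
  have y3 : 0 ≤ 1 / C * (n * Real.log 2 - Real.log (F.N (im T))) := by positivity
  have x1 : F.E' τ (im T) ≤ 3 * Γ := by
    have : 1 / Γ * F.E' τ (im T) ≤ 3 := by linarith
    rwa [one_div_mul_eq_div, div_le_iff₀ hΓ0] at this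
  have x2 : F.KLb (Fin 2) (im T) ≤ 3 * (2 * D) := by
    have : 1 / (2 * D) * F.KLb (Fin 2) (im T) ≤ 3 := by linarith
    rwa [one_div_mul_eq_div, div_le_iff₀ (by positivity)] at this
  have x3 : n * Real.log 2 - Real.log (F.N (im T)) ≤ 3 * C := by
    have : 1 / C * (n * Real.log 2 - Real.log (F.N (im T))) ≤ 3 := by linarith
    rwa [one_div_mul_eq_div, div_le_iff₀ hC0] at this
  refine final_U hV F w hT hτ0 hτ (le_trans ?_ hL) x3 x1 (le_trans ?_ hb) hbt
  · have := div_le_div_of_nonneg_right (show 8 * F.KLb (Fin 2) (im T) ≤ 48 * D by linarith) hτ0.le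
    linarith
  · have e1 := card_im_le T
    rw [Fintype.card_fin] at e1
    have : ((im T).card : ℝ) ≤ 2 * J := by exact_mod_cast (by omega : (im T).card ≤ 2 * J)
    linarith

lemma no_family (M : ℕ) (hM : 10 ^ 12 ≤ M) {V : Finset ℤ}
    (hV : V = Ico (0 : ℤ) (900 * M ^ 120 : ℕ)) (F : Fam V (20 * M ^ 60))
    (hΩ : (2 : ℝ) ^ (900 * M ^ 120) ≤ 2 * F.N ∅) : False := by
  have hx : (10 : ℝ) ^ 12 ≤ M := by exact_mod_cast hM
  have key := main_param hV F hΩ (M ^ 58) (M ^ 4) (18 * M ^ 120)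
    (le_trans (by omega) (Nat.le_self_pow (by norm_num) M))
    (le_trans (by omega) (Nat.le_self_pow (by norm_num) M))
    (τ := 1 / (M : ℝ) ^ 80) (lam := M) (D := 2 / (M : ℝ) ^ 53) (Γ := 200 / (M : ℝ) ^ 121)
    (C := 3 * (M : ℝ) ^ 59) (L := 97 * (M : ℝ) ^ 27) (b := (M : ℝ) ^ 60 / 5)
  push_cast at key
  generalize (M : ℝ) = x at hx key
  have x1 : 1 ≤ x := le_trans (by norm_num) hx
  have x0 : 0 < x := by linarith
  have pw : ∀ a b : ℕ, a ≤ b → x ^ a ≤ x ^ b := fun a b h => pow_le_pow_right₀ x1 h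
  have pw' : ∀ a b : ℕ, a < b → 10 ^ 12 * x ^ a ≤ x ^ b := fun a b h => by
    have := pw (a + 1) b h
    rw [pow_succ] at this
    nlinarith [pow_pos x0 a]
  have k2 := key (by positivity) ?_ ?_ ?_ (by positivity) ?_ ?_ ?_ ?_ ?_ ?_
  · have e1 : 100 * ((20 * x ^ 60) ^ 4 * (3 * (200 / x ^ 121))) = 9600000000 * x ^ 119 := by
      field_simp; ring
    have e2 : 97 * x ^ 27 * (20 * x ^ 60) = 1940 * x ^ 87 := by ring
    have e3 : (18 * x ^ 120 * (20 * x ^ 60 - x ^ 60 / 5)) ^ 2 =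
        (18 * x ^ 120 * x ^ 120) * (176418 / 25 * x ^ 120) := by ring
    rw [e1, e2, e3] at k2
    have e4 : (900 * x ^ 120 + 18 * x ^ 120) * (18 * x ^ 120 * (18 * x ^ 120 * (40 / 100) +
        9600000000 * x ^ 119 + 1940 * x ^ 87)) = (18 * x ^ 120 * x ^ 120) *
        (918 * (18 * x ^ 120 * (40 / 100) + 9600000000 * x ^ 119 + 1940 * x ^ 87)) := by ring
    rw [e4] at k2
    have k3 := le_of_mul_le_mul_left k2 (by positivity)
    have := pw' 119 120 (by norm_num)
    have := pw' 87 120 (by norm_num)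
    have := pow_pos x0 120
    linarith
  · have : 1 / x ^ 80 * (20 * x ^ 60) ^ 2 = 400 * x ^ 40 := by field_simp; ring
    have := pw 0 40 (by norm_num)
    rw [pow_zero] at this
    linarith
  · have e : 20 * x ^ 60 * (x ^ 4) ^ 2 * (1 / x ^ 80) = 20 / x ^ 12 := by field_simp
    rw [e, div_le_div_iff₀ (by positivity) (by norm_num)]
    have := pw' 0 12 (by norm_num)
    rw [pow_zero] at this
    linarith
  · rw [Real.log_mul (by norm_num) (by positivity), Real.log_pow]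
    have l1 := Real.log_le_sub_one_of_pos (show (0 : ℝ) < 900 by norm_num)
    have l2 := Real.log_le_sub_one_of_pos (Real.sqrt_pos.2 x0)
    rw [Real.log_sqrt x0.le] at l2
    have l3 : (10 : ℝ) ^ 6 ≤ Real.sqrt x := Real.le_sqrt_of_sq_le (by linarith)
    have l4 := Real.mul_self_sqrt x0.le
    push_cast
    nlinarith
  · rw [div_le_div_iff₀ (by positivity) (by positivity)]
    have := pw 54 58 (by norm_num)
    calc (x ^ 4 + 1) * x * x ^ 53 = x ^ 58 + x ^ 54 := by ring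
      _ ≤ _ := by linarith
  · have e1 : 2 * (x ^ 4) ^ 2 * (1 / x ^ 80) / (20 * x ^ 60) = 1 / (10 * x ^ 132) := by
      field_simp; ring
    have e2 : 512 * (2 / x ^ 53) / (x ^ 58) ^ 2 = 1024 / x ^ 169 := by field_simp; ring
    have e3 : 192 * (2 / x ^ 53) / (20 * x ^ 60 * (x ^ 4) ^ 2) = 96 / 5 * (1 / x ^ 121) := by
      field_simp; ring
    have e4 : 20 * (x ^ 4) ^ 3 * (1 / x ^ 80) * (2 / x ^ 53) = 40 * (1 / x ^ 121) := by
      field_simp; ring
    have e5 : 200 / x ^ 121 = 200 * (1 / x ^ 121) := by ring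
    have f1 : 1 / (10 * x ^ 132) ≤ 1 / x ^ 121 := by
      refine one_div_le_one_div_of_le (by positivity) ?_
      have := pw 121 132 (by norm_num)
      have := pow_pos x0 132
      linarith
    have f2 : 1024 / x ^ 169 ≤ 1 / x ^ 121 := by
      rw [div_le_div_iff₀ (by positivity) (by positivity)]
      have := pw' 121 169 (by norm_num)
      have := pow_pos x0 121
      linarith
    have f3 : 0 < 1 / x ^ 121 := by positivity
    rw [e1, e2, e3, e4, e5]
    linarith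
  · have := pw 0 59 (by norm_num)
    rw [pow_zero] at this
    calc 1 + 2 * x ^ 58 * x = 1 + 2 * x ^ 59 := by ring
      _ ≤ _ := by linarith
  · have e : 48 * (2 / x ^ 53) / (1 / x ^ 80) = 96 * x ^ 27 := by field_simp; ring
    have := pw 0 27 (by norm_num)
    rw [pow_zero] at this
    linarith
  · have e : (97 * x ^ 27) ^ 2 = 9409 * x ^ 54 := by ring
    have := pw' 58 60 (by norm_num)
    have := pw' 59 60 (by norm_num)
    have := pw' 54 60 (by norm_num)
    have := pow_pos x0 60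
    rw [e]
    linarith
  · have := pow_pos x0 60
    linarith

theorem exists_bad_set (M : ℕ) (hM : 10 ^ 12 ≤ M) :
    ∃ A : Finset ℤ, 450 * M ^ 120 ≤ A.card ∧ A.card ≤ 900 * M ^ 120 ∧
      ∀ S ⊆ A, Sid S → S.card < 20 * M ^ 60 := by
  classical
  by_contra hn
  push Not at hn
  obtain ⟨V, hV⟩ : ∃ V : Finset ℤ, V = Ico (0 : ℤ) (900 * M ^ 120 : ℕ) := ⟨_, rfl⟩
  have hVc : V.card = 900 * M ^ 120 := by rw [hV, Int.card_Ico, sub_zero, Int.toNat_natCast]
  have hex : ∀ A ∈ V.powerset.filter (fun A => 450 * M ^ 120 ≤ A.card),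
      ∃ S, S ⊆ A ∧ S.card = 20 * M ^ 60 ∧ Sid S := by
    intro A hA
    obtain ⟨h1, h2⟩ := mem_filter.1 hA
    obtain ⟨S, hS, hsid, hc⟩ := hn A h2 (hVc ▸ card_le_card (mem_powerset.1 h1))
    obtain ⟨S', h3, h4⟩ := exists_subset_card_eq hc
    exact ⟨S', h3.trans hS, h4, fun a ha b hb c hc d hd =>
      hsid a (h3 ha) b (h3 hb) c (h3 hc) d (h3 hd)⟩
  choose! S hS1 hS2 hS3 using hex
  let F : Fam V (20 * M ^ 60) :=
    { Ω := V.powerset.filter (fun A => 450 * M ^ 120 ≤ A.card)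
      S := S
      sub := hS1
      subV := fun A hA => mem_powerset.1 (mem_filter.1 hA).1
      card := hS2
      sid := hS3
      tpos := by have : 0 < M := by omega
                 positivity }
  refine no_family M hM hV F ?_
  have e : F.Om ∅ = F.Ω := by
    ext A; simp [Fam.mem_Om]
  have h1 : V.powerset ⊆ F.Ω ∪ F.Ω.image (fun A => V \ A) := by
    intro A hA
    by_cases c : 450 * M ^ 120 ≤ A.card
    · exact mem_union_left _ (mem_filter.2 ⟨hA, c⟩)
    · refine mem_union_right _ (mem_image.2 ⟨V \ A, mem_filter.2 ⟨mem_powerset.2 sdiff_subset, ?_⟩,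
        Finset.sdiff_sdiff_eq_self (mem_powerset.1 hA)⟩)
      rw [card_sdiff_of_subset (mem_powerset.1 hA), hVc]
      omega
  have h2 := (card_le_card h1).trans ((card_union_le _ _).trans
    (Nat.add_le_add_left card_image_le _))
  rw [card_powerset, hVc] at h2
  unfold Fam.N
  rw [e]
  exact_mod_cast (by omega : 2 ^ (900 * M ^ 120) ≤ 2 * F.Ω.card)

end Pool.Agent.Lib.SidonDis
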