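import Pool.Agent.Lib.MP_ef4e97_co.Pairs
import Pool.Agent.Lib.PNT.Main

set_option autoImplicit false

namespace Pool.Agent.Lib.MP_ef4e97_co

open Finset Filter Topology

lemma table' (A : Finset ℝ) (p : ℕ) (hp : p.Prime) : ∃ cell : ℝ → Bool × ℕ,
    ∑ c ∈ A.image cell, ((A.filter (fun a => cell a = c)).card : ℝ) *
      ((A.filter (fun a => cell a = c)).card - 1) ≤ (A.card : ℝ) ^ 2 / (2 * (p - 1) ^ 2) ∧
    ∀ R ⊆ A, Set.InjOn cell R → Cov (2 * p) R := by
  classical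
  obtain ⟨cell, h1, h2⟩ := table A id (fun _ => 1) (fun _ => zero_le_one) p hp
  refine ⟨cell, le_trans (le_of_eq ?_) (by simpa only [sum_const, nsmul_eq_mul, mul_one] using h1),
    by simpa using h2⟩
  rw [← sum_fiberwise_of_maps_to (s := A) (g := cell) (fun a ha => mem_image_of_mem cell ha)]
  refine sum_congr rfl (fun c _ => ?_)
  rw [← nsmul_eq_mul, ← sum_const]
  refine sum_congr rfl (fun a ha => ?_)
  rw [sum_boole, ← Nat.cast_pred (card_pos.mpr ⟨a, ha⟩), ← card_erase_of_mem ha]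
  congr 2
  ext b
  simp only [mem_erase, mem_filter, id, (mem_filter.mp ha).2]
  tauto

lemma items (F : Finset ℝ) : ∃ J ⊆ F ×ˢ F, Disj J ∧ ∑ z ∈ J, wt z ≤ F.card * (F.card - 1) / 2 ∧
    ∀ B, Sat J B → ∀ x ∈ F \ B, ∀ y ∈ F \ B, x = y := by
  rcases (by omega : F.card ≤ 1 ∨ F.card = 2 ∨ 3 ≤ F.card) with h | h | h
  · refine ⟨∅, by simp, by simp [Disj], ?_, fun B _ x hx y hy =>
      card_le_one.mp h x (mem_sdiff.mp hx).1 y (mem_sdiff.mp hy).1⟩
    rcases (by omega : F.card = 0 ∨ F.card = 1) with h | h <;> simp [h]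
  · obtain ⟨a, b, hab, rfl⟩ := card_eq_two.mp h
    refine ⟨{(a, b)}, by simp, by simp [Disj], by rw [h]; norm_num [wt, hab], fun B hB x hx y hy => ?_⟩
    have := hB (a, b) (by simp)
    grind
  · obtain ⟨r, hr⟩ := card_pos.mp (by omega : 0 < F.card)
    refine ⟨(F.erase r).diag, fun z hz => ?_, fun z hz y hy hne => ?_, ?_, fun B hB x hx y hy => ?_⟩
    · simp only [mem_diag, mem_erase, mem_product] at hz ⊢
      exact ⟨hz.1.2, hz.2 ▸ hz.1.2⟩
    · simp only [mem_diag] at hz hy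
      have : z.1 ≠ y.1 := fun e => hne (Prod.ext e (by rw [← hz.2, ← hy.2, e]))
      rw [← hz.2, ← hy.2]; tauto
    · rw [sum_congr rfl (f := wt) (g := fun _ => (3 / 2 : ℝ)) (fun z hz => if_pos (mem_diag.mp hz).2),
        sum_const, diag_card, card_erase_of_mem hr, nsmul_eq_mul, Nat.cast_pred (by omega)]
      have : (3 : ℝ) ≤ F.card := by exact_mod_cast h
      nlinarith
    · have key : ∀ x ∈ F \ B, x = r := by
        intro x hx
        by_contra hne
        have := hB (x, x) (mem_diag.mpr ⟨mem_erase.mpr ⟨hne, (mem_sdiff.mp hx).1⟩, rfl⟩)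
        exact (mem_sdiff.mp hx).2 (this.elim id id)
      rw [key x hx, key y hy]

lemma first_step (A : Finset ℝ) (p : ℕ) (hp : p.Prime) : ∃ I : Finset (ℝ × ℝ), Disj I ∧
    ∑ z ∈ I, wt z ≤ (A.card : ℝ) ^ 2 / (4 * (p - 1) ^ 2) ∧
    ∀ B, Sat I B → Cov (2 * p) (A \ B) := by
  classical
  obtain ⟨cell, h1, h2⟩ := table' A p hp
  choose J j1 j2 j3 j4 using fun c => items (A.filter (fun a => cell a = c))
  have hc : ∀ c, ∀ z ∈ J c, cell z.1 = c ∧ cell z.2 = c := fun c z hz =>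
    ⟨(mem_filter.mp (mem_product.mp (j1 c hz)).1).2, (mem_filter.mp (mem_product.mp (j1 c hz)).2).2⟩
  refine ⟨(A.image cell).biUnion J, fun z hz y hy hne => ?_, ?_,
    fun B hB => h2 _ sdiff_subset (fun a ha b hb hab => ?_)⟩
  · obtain ⟨c, _, hz⟩ := mem_biUnion.mp hz
    obtain ⟨d, _, hy⟩ := mem_biUnion.mp hy
    by_cases e : c = d
    · subst e; exact j2 c z hz y hy hne
    · have := hc c z hz
      have := hc d y hy
      grind
  · rw [sum_biUnion (fun c _ d _ hne => disjoint_left.mpr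
      (fun z hz hy => hne ((hc c z hz).1.symm.trans (hc d z hy).1)))]
    refine (sum_le_sum (fun c _ => j3 c)).trans ?_
    rw [← sum_div, show (4 : ℝ) * (p - 1) ^ 2 = 2 * (p - 1) ^ 2 * 2 by ring, ← div_div]
    linarith
  · obtain ⟨a1, a2⟩ := mem_sdiff.mp ha
    obtain ⟨b1, b2⟩ := mem_sdiff.mp hb
    exact j4 (cell a) B (fun z hz => hB z (mem_biUnion.mpr ⟨_, mem_image_of_mem _ a1, hz⟩)) a
      (by simp [a1, a2]) b (by simp [b1, b2, hab])

/-- a prime slightly above `l * sqrt t` -/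
lemma prime_near {l η : ℝ} (hl : 0 < l) (hη : 0 < η) : ∀ᶠ t : ℝ in atTop, ∃ p : ℕ, p.Prime ∧
    l ^ 2 * t ≤ ((p : ℝ) - 1) ^ 2 ∧ p ≤ (1 + η) * l * √t := by
  have h1 : Tendsto (fun t : ℝ => l * √t) atTop atTop := Real.tendsto_sqrt_atTop.const_mul_atTop hl
  filter_upwards [(tendsto_atTop_add_const_right _ 1 h1).eventually
    (PNT.exists_prime (half_pos hη)), h1.eventually_ge_atTop ((1 + η / 2) / (η / 2)),
    eventually_ge_atTop 0] with t ⟨p, hp, h2, h3⟩ h4 h5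
  refine ⟨p, hp, ?_, ?_⟩
  · rw [← Real.sq_sqrt h5, ← mul_pow]
    exact pow_le_pow_left₀ (by positivity) (by linarith) 2
  · rw [div_le_iff₀ (half_pos hη)] at h4
    linarith

lemma pairs_cost {η : ℝ} (hη : 0 < η) : ∃ K : ℝ, ∀ I : Finset (ℝ × ℝ), Disj I → ∃ (k : ℕ) (B : Finset ℝ),
    Cov k B ∧ Sat I B ∧ k ≤ 4 * (1 + η) * √(2 / 3) * √(∑ z ∈ I, wt z) + K := by
  obtain ⟨t0, h0⟩ := eventually_atTop.mp ((prime_near (l := √(2 / 3)) (by positivity) hη).and
    (eventually_gt_atTop 0))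
  refine ⟨t0, fun I => ?_⟩
  induction I using Finset.strongInduction with
  | H I ih =>
  intro hI
  set t := ∑ z ∈ I, wt z with ht
  by_cases h : t < t0
  · refine ⟨_, I.image Prod.fst, cov_card _, fun z hz => Or.inl (mem_image_of_mem _ hz), ?_⟩
    have h1 : ((I.image Prod.fst).card : ℝ) ≤ I.card := by exact_mod_cast card_image_le
    have h2 : (I.card : ℝ) ≤ t := by
      rw [card_eq_sum_ones]; push_cast
      exact sum_le_sum (fun z _ => by unfold wt; split_ifs <;> norm_num)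
    have : 0 ≤ 4 * (1 + η) * √(2 / 3) * √t := by positivity
    linarith
  · obtain ⟨⟨p, hp, p1, p2⟩, t1⟩ := h0 t (not_lt.mp h)
    obtain ⟨I', i1, R, i2, i3, i4⟩ := step I hI p hp
    rw [Real.sq_sqrt (by norm_num)] at p1
    have i5 : ∑ z ∈ I', wt z ≤ t / 4 := by
      refine i2.trans ((div_le_div_of_nonneg_left (sq_nonneg _) (by positivity : 0 < 4 * t)
        (by linarith)).trans (le_of_eq ?_))
      rw [← ht]; field_simp
    obtain ⟨k, B, b1, b2, b3⟩ := ih I' (ssubset_of_subset_of_ne i1 (by rintro rfl; linarith))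
      (fun z hz y hy => hI z (i1 hz) y (i1 hy))
    refine ⟨_, _, b1.union i3, fun z hz => ?_, ?_⟩
    · simp only [mem_union]
      by_cases hz' : z ∈ I'
      · have := b2 z hz'; tauto
      · have := i4 z (mem_sdiff.mpr ⟨hz, hz'⟩); tauto
    · have c1 : √(∑ z ∈ I', wt z) ≤ √t / 2 := by
        refine (Real.sqrt_le_sqrt i5).trans (le_of_eq ?_)
        rw [Real.sqrt_div t1.le, show (4 : ℝ) = 2 ^ 2 by norm_num, Real.sqrt_sq (by norm_num)]
      have c2 := mul_le_mul_of_nonneg_left c1 (by positivity : 0 ≤ 4 * (1 + η) * √(2 / 3))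
      push_cast
      linarith

theorem cover_bound {ε : ℝ} (hε : 0 < ε) : ∃ N₀ : ℕ, ∀ A : Finset ℝ, N₀ ≤ A.card →
    ∃ k : ℕ, (k : ℝ) ≤ (4 * √(√(2 / 3)) + ε) * √A.card ∧ Cov k A := by
  set l : ℝ := √(√(2 / 3)) with hl
  have l0 : 0 < l := by positivity
  have l1 : l ≤ 1 := Real.sqrt_le_one.mpr (Real.sqrt_le_one.mpr (by norm_num))
  have l2 : √(2 / 3) = l ^ 2 := (Real.sq_sqrt (by positivity)).symm
  clear_value l
  clear hl
  obtain ⟨K, hK⟩ := pairs_cost (by positivity : 0 < ε / 8)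
  rw [l2] at hK
  clear l2
  obtain ⟨N₀, h0⟩ := eventually_atTop.mp (tendsto_natCast_atTop_atTop.eventually
    ((prime_near l0 (by positivity : 0 < ε / 8)).and ((eventually_gt_atTop 0).and
    ((Real.tendsto_sqrt_atTop.const_mul_atTop (half_pos hε)).eventually_ge_atTop K))))
  refine ⟨N₀, fun A hA => ?_⟩
  obtain ⟨⟨p, hp, p1, p2⟩, n0, n1⟩ := h0 _ hA
  obtain ⟨I, i1, i2, i3⟩ := first_step A p hp
  obtain ⟨k, B, b1, b2, b3⟩ := hK I i1
  refine ⟨_, ?_, (b1.union (i3 B b2)).mono (by intro x hx; simp [hx])⟩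
  have c1 : √(∑ z ∈ I, wt z) ≤ √A.card / (2 * l) := by
    apply Real.sqrt_le_iff.mpr ⟨by positivity, ?_⟩
    refine i2.trans ((div_le_div_of_nonneg_left (sq_nonneg _)
      (by positivity : 0 < 4 * (l ^ 2 * A.card)) (by linarith)).trans (le_of_eq ?_))
    rw [div_pow, Real.sq_sqrt n0.le]; field_simp; norm_num
  have c2 := mul_le_mul_of_nonneg_left c1 (by positivity : 0 ≤ 4 * (1 + ε / 8) * l ^ 2)
  have c3 : 4 * (1 + ε / 8) * l ^ 2 * (√A.card / (2 * l)) = 2 * ((1 + ε / 8) * l * √A.card) := by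
    field_simp; norm_num
  have c4 := mul_le_mul_of_nonneg_right l1 (by positivity : 0 ≤ ε * √A.card)
  push_cast
  linarith

theorem subset_bound {ε : ℝ} (hε : 0 < ε) : ∃ N₀ : ℕ, ∀ A : Finset ℝ, N₀ ≤ A.card →
    ∃ S ⊆ A, Sidon S ∧ (2 / (3 * √3) - ε) * √A.card ≤ S.card := by
  classical
  have s0 : 0 < √3 := by positivity
  have s1 : √3 ^ 2 = 3 := Real.sq_sqrt (by norm_num)
  have s2 : 1 ≤ √3 := Real.one_le_sqrt.mpr (by norm_num)
  obtain ⟨N₀, h0⟩ := eventually_atTop.mp (tendsto_natCast_atTop_atTop.eventually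
    ((prime_near (half_pos s0) hε).and (eventually_gt_atTop 0)))
  refine ⟨N₀, fun A hA => ?_⟩
  obtain ⟨⟨p, hp, p1, p2⟩, n0⟩ := h0 _ hA
  obtain ⟨cell, h1, h2⟩ := table' A p hp
  obtain ⟨R, r1, r2, r3⟩ := exists_subset_injOn_image_eq_of_surjOn (A : Set ℝ) (A.image cell)
    (by simpa using Set.surjOn_image cell A)
  have a1 : 2 / 3 * (A.card : ℝ) ≤ R.card := by
    have b1 : (A.card : ℝ) = ∑ c ∈ A.image cell, ((A.filter (fun a => cell a = c)).card : ℝ) := by
      exact_mod_cast card_eq_sum_card_image cell A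
    have b2 : ∀ n : ℕ, (n : ℝ) ≤ 1 + n * (n - 1) / 2 := by
      intro n
      rcases (by omega : n ≤ 1 ∨ 2 ≤ n) with h | h
      · interval_cases n <;> norm_num
      · have : (2 : ℝ) ≤ n := by exact_mod_cast h
        nlinarith
    have b3 := sum_le_sum (fun c (_ : c ∈ A.image cell) => b2 (A.filter (fun a => cell a = c)).card)
    rw [sum_add_distrib, ← sum_div, sum_const, nsmul_eq_mul, mul_one, ← b1, ← r3,
      card_image_of_injOn r2, r3] at b3
    have b4 : (A.card : ℝ) ^ 2 / (2 * (p - 1) ^ 2) ≤ 2 / 3 * A.card := by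
      rw [div_pow, s1] at p1
      refine (div_le_div_of_nonneg_left (sq_nonneg _) (by positivity : 0 < 3 / 2 * (A.card : ℝ))
        (by linarith)).trans (le_of_eq ?_)
      field_simp
    linarith
  obtain ⟨F, f1, f2, f3⟩ := h2 R r1 r2
  have a2 : R.card ≤ ∑ S ∈ F, (S ∩ A).card := by
    refine le_trans (card_le_card (fun x hx => ?_)) card_biUnion_le
    obtain ⟨S, c1, c2⟩ := f3 x hx
    exact mem_biUnion.mpr ⟨S, c1, mem_inter.mpr ⟨c2, r1 hx⟩⟩
  have hF : F.Nonempty := by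
    obtain ⟨x, hx⟩ := card_pos.mp (show 0 < R.card by exact_mod_cast (by linarith : (0 : ℝ) < R.card))
    obtain ⟨S, c1, _⟩ := f3 x hx
    exact ⟨S, c1⟩
  obtain ⟨S, c1, c2⟩ := exists_max_image F (fun S => (S ∩ A).card) hF
  refine ⟨S ∩ A, inter_subset_right, (f2 S c1).mono inter_subset_left, ?_⟩
  have a3 : R.card ≤ 2 * p * (S ∩ A).card :=
    a2.trans ((sum_le_card_nsmul _ _ _ c2).trans (Nat.mul_le_mul_right _ f1))
  have a4 : (R.card : ℝ) ≤ 2 * p * (S ∩ A).card := by exact_mod_cast a3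
  have a5 := mul_le_mul_of_nonneg_right p2 (by positivity : (0 : ℝ) ≤ (S ∩ A).card)
  have a6 : 0 < √(A.card : ℝ) := by positivity
  have a7 : 2 / 3 * √(A.card : ℝ) ≤ (1 + ε) * √3 * (S ∩ A).card := by
    apply le_of_mul_le_mul_right _ a6
    rw [mul_assoc, Real.mul_self_sqrt n0.le]
    linarith
  apply le_of_mul_le_mul_left _ (by positivity : 0 < (1 + ε) * √3)
  refine le_trans ?_ a7
  rw [← mul_assoc]
  apply mul_le_mul_of_nonneg_right _ a6.le
  have : (1 + ε) * √3 * (2 / (3 * √3) - ε) = (1 + ε) * (2 / 3 - ε * √3) := by field_simp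
  rw [this]
  nlinarith [mul_le_mul_of_nonneg_left s2 hε.le, mul_pos hε (mul_pos hε s0)]

end Pool.Agent.Lib.MP_ef4e97_co
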