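import Pool.Agent.Lib.MP_ef4e97_co.Table

set_option autoImplicit false

namespace Pool.Agent.Lib.MP_ef4e97_co

open Finset

lemma hall_on {α β : Type} [DecidableEq β] [Nonempty β] (I : Finset α) (t : α → Finset β)
    (h : ∀ X ⊆ I, X.card ≤ (X.biUnion t).card) :
    ∃ f : α → β, Set.InjOn f I ∧ ∀ z ∈ I, f z ∈ t z := by
  classical
  obtain ⟨f, h1, h2⟩ := (all_card_le_biUnion_card_iff_exists_injective
    (fun z : I => t z)).mp (fun X => by
      have := h (X.map (Function.Embedding.subtype _)) (fun z hz => by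
        obtain ⟨y, _, rfl⟩ := mem_map.mp hz; exact y.2)
      rw [card_map] at this
      refine this.trans (card_le_card (fun b hb => ?_))
      obtain ⟨z, hz, hb⟩ := mem_biUnion.mp hb
      obtain ⟨y, hy, rfl⟩ := mem_map.mp hz
      exact mem_biUnion.mpr ⟨y, hy, hb⟩)
  refine ⟨fun z => if hz : z ∈ I then f ⟨z, hz⟩ else Classical.arbitrary β, fun z hz y hy e => ?_,
    fun z hz => ?_⟩
  · simp only [dif_pos (mem_coe.mp hz), dif_pos (mem_coe.mp hy)] at e
    exact congrArg Subtype.val (h1 e)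
  · simp only [dif_pos hz]; exact h2 _

/-- the items are pairwise disjoint -/
def Disj (I : Finset (ℝ × ℝ)) : Prop :=
  ∀ z ∈ I, ∀ y ∈ I, z ≠ y → z.1 ≠ y.1 ∧ z.1 ≠ y.2 ∧ z.2 ≠ y.1 ∧ z.2 ≠ y.2

noncomputable def wt (z : ℝ × ℝ) : ℝ := if z.1 = z.2 then 3 / 2 else 1

def Sat (I : Finset (ℝ × ℝ)) (B : Finset ℝ) : Prop := ∀ z ∈ I, z.1 ∈ B ∨ z.2 ∈ B

lemma cell_ineq (i j : ℕ) : ((2 * i + j - 2 : ℕ) : ℝ) / 2 + ((i - 1 : ℕ) : ℝ) / 2 ≤
    ((3 / 2 * i + j / 2) ^ 2 - (9 / 4 * i + j / 4)) / 3 := by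
  have h1 : (0 : ℝ) ≤ j * (j - 1) := by
    rcases j with _ | j
    · simp
    · push_cast; rw [add_sub_cancel_right]; positivity
  rcases i with _ | i
  · rcases le_or_gt j 2 with h | h
    · rw [show 2 * 0 + j - 2 = 0 by omega]; push_cast; linarith
    · rw [show 2 * 0 + j - 2 = j - 2 by omega, Nat.cast_sub h.le]
      have h2 : (0 : ℝ) ≤ (j - 3) * (j - 4) := by
        rcases (by omega : j = 3 ∨ 4 ≤ j) with h | h
        · simp [h]
        · have : (4 : ℝ) ≤ j := by exact_mod_cast h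
          exact mul_nonneg (by linarith) (by linarith)
      push_cast; linarith
  · rw [show 2 * (i + 1) + j - 2 = 2 * i + j by omega, Nat.add_sub_cancel]
    have h2 : (0 : ℝ) ≤ i * (i - 1) := by
      rcases i with _ | i
      · simp
      · push_cast; rw [add_sub_cancel_right]; positivity
    have h3 : (0 : ℝ) ≤ i * j := by positivity
    push_cast; linarith

lemma step (I : Finset (ℝ × ℝ)) (hI : Disj I) (p : ℕ) (hp : p.Prime) :
    ∃ I' ⊆ I, ∃ R : Finset ℝ, ∑ z ∈ I', wt z ≤ (∑ z ∈ I, wt z) ^ 2 / (6 * (p - 1) ^ 2) ∧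
      Cov (2 * p) R ∧ Sat (I \ I') R := by
  classical
  set lab : (ℝ × ℝ) × Bool → ℝ := fun η => if η.2 then η.1.1 else η.1.2 with hlab
  set u : (ℝ × ℝ) × Bool → ℕ := fun η => if η.1.1 = η.1.2 ∧ η.2 then 1 else 0 with hu
  set v : (ℝ × ℝ) × Bool → ℕ := fun η => if η.1.1 = η.1.2 then 0 else 1 with hv
  set w : (ℝ × ℝ) × Bool → ℝ := fun η => 3 / 2 * u η + v η / 2 with hw
  obtain ⟨cell, h1, h2⟩ := table (I ×ˢ univ) lab w (fun _ => by positivity) p hp
  have e1 : ∑ η ∈ I ×ˢ univ, w η = ∑ z ∈ I, wt z := by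
    rw [sum_product]
    refine sum_congr rfl (fun z _ => ?_)
    by_cases h : z.1 = z.2 <;> simp [hw, hu, hv, wt, h]
  set Cs := (I ×ˢ univ).image (fun η => cell (lab η)) with hCs
  set Hc : Bool × ℕ → Finset ((ℝ × ℝ) × Bool) :=
    fun c => (I ×ˢ univ).filter (fun η => cell (lab η) = c) with hHc
  set i : Bool × ℕ → ℕ := fun c => ∑ η ∈ Hc c, u η with hi
  set j : Bool × ℕ → ℕ := fun c => ∑ η ∈ Hc c, v η with hj
  have e2 : ∑ c ∈ Cs, ((3 / 2 * i c + j c / 2) ^ 2 - (9 / 4 * i c + j c / 4) : ℝ) ≤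
      (∑ z ∈ I, wt z) ^ 2 / (2 * (p - 1) ^ 2) := by
    rw [← e1]
    refine le_trans (le_of_eq ?_) h1
    rw [← sum_fiberwise_of_maps_to (s := I ×ˢ univ) (g := fun η => cell (lab η))
      (fun η hη => mem_image_of_mem (fun η => cell (lab η)) hη)]
    refine sum_congr rfl (fun c _ => ?_)
    have a1 : (3 / 2 * i c + j c / 2 : ℝ) = ∑ η ∈ Hc c, w η := by
      simp only [hi, hj, hw, sum_add_distrib, mul_sum, sum_div, Nat.cast_sum]
    have a2 : (9 / 4 * i c + j c / 4 : ℝ) = ∑ η ∈ Hc c, w η * w η := by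
      simp only [hi, hj, mul_sum, sum_div, Nat.cast_sum, ← sum_add_distrib]
      refine sum_congr rfl (fun η _ => ?_)
      by_cases h : η.1.1 = η.1.2 <;> cases hb : η.2 <;> simp [hw, hu, hv, h, hb] <;> norm_num
    rw [a1, a2, sq, sum_mul_sum, ← sum_sub_distrib]
    refine sum_congr rfl (fun η hη => ?_)
    rw [← add_sum_erase _ _ hη, add_sub_cancel_left, ← filter_ne', sum_filter, sum_filter]
    refine sum_congr rfl (fun ζ hζ => ?_)
    obtain ⟨b1, b2⟩ := mem_filter.mp hη
    by_cases c1 : cell (lab ζ) = c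
    · by_cases c2 : ζ = η
      · simp [c2]
      · by_cases c3 : lab η = lab ζ
        · have c4 : η.1 = ζ.1 := by
            by_contra hne
            have := hI _ (mem_product.mp b1).1 _ (mem_product.mp hζ).1 hne
            simp only [hlab] at c3
            split_ifs at c3 <;> tauto
          obtain ⟨z, b⟩ := η
          obtain ⟨y, b'⟩ := ζ
          obtain rfl : z = y := c4
          have c5 : z.1 = z.2 := by
            cases b <;> cases b' <;> simp only [hlab] at c3 <;> simp_all only [not_true_eq_false,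
              Bool.false_eq_true, if_true, if_false]
          cases b <;> cases b' <;> simp [hw, hu, hv, c5, c3] at c2 ⊢
        · simp [c1, c2, c3, b2]
    · have : ¬ (cell (lab η) = cell (lab ζ)) := fun h => c1 (h ▸ b2)
      simp [c1, this]
  set D1 := ∑ c ∈ Cs, (i c - 1) with hD1
  set D := (∑ c ∈ Cs, (2 * i c + j c - 2)) / 2 with hD
  have e3 : D1 ≤ D := by
    rw [hD, Nat.le_div_iff_mul_le two_pos, hD1, sum_mul]
    exact sum_le_sum (fun c _ => by omega)
  have e4 : (D : ℝ) + D1 / 2 ≤ (∑ z ∈ I, wt z) ^ 2 / (6 * (p - 1) ^ 2) := by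
    have a1 : (D : ℝ) ≤ (∑ c ∈ Cs, (2 * i c + j c - 2) : ℕ) / 2 := by
      exact_mod_cast Nat.cast_div_le (α := ℝ)
    have a2 := sum_le_sum (fun c (_ : c ∈ Cs) => cell_ineq (i c) (j c))
    rw [sum_add_distrib, ← sum_div, ← sum_div, ← sum_div] at a2
    rw [show (6 : ℝ) * (p - 1) ^ 2 = 2 * (p - 1) ^ 2 * 3 by ring, ← div_div, hD1]
    push_cast at a1 ⊢
    linarith
  have key : ∀ X ⊆ I, ∀ (g : (ℝ × ℝ) × Bool → ℕ) (n : ℕ), ∑ η ∈ X ×ˢ univ, g η ≤
      n * ((X ×ˢ univ).image (fun η => cell (lab η))).card +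
        ∑ c ∈ Cs, (∑ η ∈ Hc c, g η - n) := by
    intro X hX g n
    have hs : X ×ˢ (univ : Finset Bool) ⊆ I ×ˢ univ := product_subset_product_left hX
    rw [← sum_fiberwise_of_maps_to (s := X ×ˢ univ) (g := fun η => cell (lab η))
      (fun η hη => mem_image_of_mem (fun η => cell (lab η)) hη), mul_comm, ← smul_eq_mul, ← sum_const]
    refine le_trans ?_ (Nat.add_le_add_left (sum_le_sum_of_subset (image_subset_image hs)) _)
    rw [← sum_add_distrib]
    refine sum_le_sum (fun c _ => ?_)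
    have : ∑ η ∈ (X ×ˢ univ).filter (fun η => cell (lab η) = c), g η ≤ ∑ η ∈ Hc c, g η :=
      sum_le_sum_of_subset (filter_subset_filter _ hs)
    omega
  obtain ⟨f, f1, f2⟩ := hall_on I (fun z => ({cell z.1, cell z.2} : Finset (Bool × ℕ)).disjSum
      (range (if z.1 = z.2 then D1 else D))) (by
    intro X hX
    have sub : ∀ z ∈ X, ((X ×ˢ univ).image (fun η => cell (lab η))).card +
        (if z.1 = z.2 then D1 else D) ≤ (X.biUnion (fun z => ({cell z.1, cell z.2} :
        Finset (Bool × ℕ)).disjSum (range (if z.1 = z.2 then D1 else D)))).card := by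
      intro z hz
      rw [← card_range (ite _ _ _), ← card_disjSum]
      apply card_le_card
      rintro (c | n) h
      · obtain ⟨⟨y, b⟩, h3, rfl⟩ := mem_image.mp (inl_mem_disjSum.mp h)
        exact mem_biUnion.mpr ⟨y, (mem_product.mp h3).1, by cases b <;> simp [hlab]⟩
      · exact mem_biUnion.mpr ⟨z, hz, by simpa using h⟩
    by_cases hx : ∃ z ∈ X, z.1 ≠ z.2
    · obtain ⟨z, hz, hne⟩ := hx
      have a1 := sub z hz
      have a2 := key X hX (fun η => 2 * u η + v η) 2
      have a3 : ∑ η ∈ X ×ˢ univ, (2 * u η + v η) = 2 * X.card := by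
        rw [sum_product, mul_comm, ← smul_eq_mul, ← sum_const]
        refine sum_congr rfl (fun y _ => ?_)
        by_cases h : y.1 = y.2 <;> simp [hu, hv, h]
      simp only [sum_add_distrib, ← mul_sum] at a2 a3
      rw [if_neg hne] at a1
      simp only [hi, hj] at hD
      omega
    · rcases X.eq_empty_or_nonempty with rfl | ⟨z, hz⟩
      · simp
      push Not at hx
      have a1 := sub z hz
      have a2 := key X hX u 1
      have a3 : ∑ η ∈ X ×ˢ univ, u η = X.card := by
        rw [sum_product, card_eq_sum_ones]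
        exact sum_congr rfl (fun y hy => by simp [hu, hx y hy])
      rw [if_pos (hx z hz)] at a1
      simp only [hi] at hD1
      omega)
  set I' := I.filter (fun z => (f z).isRight) with hI'
  have cnt : ∀ (J : Finset (ℝ × ℝ)) (n : ℕ), J ⊆ I' → (∀ z ∈ J, (if z.1 = z.2 then D1 else D) ≤ n) →
      J.card ≤ n := by
    intro J n hJ hn
    rw [← card_range n, ← card_map (s := range n) (Function.Embedding.inr (α := Bool × ℕ))]
    apply card_le_card_of_injOn f _ (f1.mono (fun z hz => (mem_filter.mp (hJ hz)).1))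
    intro z hz
    obtain ⟨b1, b2⟩ := mem_filter.mp (hJ hz)
    obtain ⟨k, hk⟩ := Sum.isRight_iff.mp b2
    have := f2 z b1
    rw [hk, inr_mem_disjSum, mem_range] at this
    exact mem_coe.mpr (mem_map.mpr ⟨k, mem_range.mpr (this.trans_le (hn z hz)), hk.symm⟩)
  set e : ℝ × ℝ → ℝ := fun z => if f z = Sum.inl (cell z.1) then z.1 else z.2 with he
  have he' : ∀ z ∈ I \ I', f z = Sum.inl (cell (e z)) := by
    intro z hz
    obtain ⟨b1, b2⟩ := mem_sdiff.mp hz
    have := f2 z b1
    simp only [hI', mem_filter, b1, true_and] at b2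
    simp only [he]
    split_ifs with h
    · exact h
    · rcases hf : f z with c | k
      · rw [hf] at this h
        simp only [inl_mem_disjSum, mem_insert, mem_singleton, Sum.inl.injEq] at this h
        rw [this.resolve_left h]
      · rw [hf] at b2; simp at b2
  refine ⟨I', filter_subset _ _, (I \ I').image e, le_trans ?_ e4, h2 _ (fun a ha => ?_) ?_,
    fun z hz => ?_⟩
  · have a1 : (I'.card : ℝ) ≤ D := by
      exact_mod_cast cnt I' D subset_rfl (fun z _ => by split_ifs <;> omega)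
    have a2 : ((I'.filter (fun z => z.1 = z.2)).card : ℝ) ≤ D1 := by
      exact_mod_cast cnt _ D1 (filter_subset _ _) (fun z hz => by rw [if_pos (mem_filter.mp hz).2])
    have a3 : ∑ z ∈ I', wt z = I'.card + (I'.filter (fun z => z.1 = z.2)).card / 2 := by
      rw [card_filter (fun z : ℝ × ℝ => z.1 = z.2) I', card_eq_sum_ones I']
      push_cast
      rw [sum_div, ← sum_add_distrib]
      exact sum_congr rfl (fun z _ => by unfold wt; split_ifs <;> norm_num)
    linarith
  · obtain ⟨z, hz, rfl⟩ := mem_image.mp ha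
    refine mem_image.mpr ⟨(z, decide (f z = Sum.inl (cell z.1))), 
      mem_product.mpr ⟨(mem_sdiff.mp hz).1, mem_univ _⟩, ?_⟩
    simp [hlab, he]
  · intro a ha b hb hab
    obtain ⟨z, hz, rfl⟩ := mem_image.mp ha
    obtain ⟨y, hy, rfl⟩ := mem_image.mp hb
    rw [f1 (mem_sdiff.mp hz).1 (mem_sdiff.mp hy).1 (by rw [he' z hz, he' y hy, hab])]
  · have := mem_image_of_mem e hz
    simp only [he] at this ⊢
    split_ifs at this
    · exact Or.inl this
    · exact Or.inr this

end Pool.Agent.Lib.MP_ef4e97_co
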