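import Mathlib

set_option autoImplicit false

namespace Pool.Agent.Lib.MP_ef4e97_co

open Finset

def Sidon (S : Finset ℝ) : Prop :=
  ∀ a ∈ S, ∀ b ∈ S, ∀ c ∈ S, ∀ d ∈ S, a + b = c + d → (a = c ∧ b = d) ∨ (a = d ∧ b = c)

lemma Sidon.mono {S T : Finset ℝ} (h : Sidon T) (hS : S ⊆ T) : Sidon S :=
  fun a ha b hb c hc d hd => h a (hS ha) b (hS hb) c (hS hc) d (hS hd)

/-- `B` is covered by at most `k` Sidon sets -/
def Cov (k : ℕ) (B : Finset ℝ) : Prop :=
  ∃ F : Finset (Finset ℝ), F.card ≤ k ∧ (∀ S ∈ F, Sidon S) ∧ ∀ x ∈ B, ∃ S ∈ F, x ∈ S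

lemma Cov.union {k l : ℕ} {A B : Finset ℝ} (h : Cov k A) (h' : Cov l B) : Cov (k + l) (A ∪ B) := by
  obtain ⟨F, h1, h2, h3⟩ := h
  obtain ⟨G, g1, g2, g3⟩ := h'
  refine ⟨F ∪ G, (card_union_le _ _).trans (add_le_add h1 g1), fun S hS => ?_, fun x hx => ?_⟩
  · exact (mem_union.mp hS).elim (h2 S) (g2 S)
  · rcases mem_union.mp hx with h | h
    · obtain ⟨S, a, b⟩ := h3 x h; exact ⟨S, mem_union_left _ a, b⟩
    · obtain ⟨S, a, b⟩ := g3 x h; exact ⟨S, mem_union_right _ a, b⟩

lemma Cov.mono {k : ℕ} {A B : Finset ℝ} (h : Cov k B) (hA : A ⊆ B) : Cov k A := by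
  obtain ⟨F, h1, h2, h3⟩ := h
  exact ⟨F, h1, h2, fun x hx => h3 x (hA hx)⟩

lemma cov_card (A : Finset ℝ) : Cov A.card A := by
  refine ⟨A.image (fun x => {x}), card_image_le, fun S hS => ?_,
    fun x hx => ⟨{x}, mem_image_of_mem _ hx, mem_singleton_self x⟩⟩
  obtain ⟨x, _, rfl⟩ := mem_image.mp hS
  intro a ha b hb c hc d hd _
  simp only [mem_singleton] at ha hb hc hd
  simp [ha, hb, hc, hd]

lemma exists_int_model (A : Finset ℝ) : ∃ φ : ℝ → ℤ, Set.InjOn φ A ∧
    ∀ a ∈ A, ∀ b ∈ A, ∀ c ∈ A, ∀ d ∈ A, a + b = c + d → φ a + φ b = φ c + φ d := by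
  obtain ⟨L, hL⟩ := Module.exists_dual_forall_apply_ne_zero (K := ℚ)
    (fun z : A.offDiag => z.1.1 - z.1.2) (fun z => sub_ne_zero.mpr (mem_offDiag.mp z.2).2.2)
  obtain ⟨⟨D, hD⟩, h⟩ := IsLocalization.exist_integer_multiples (nonZeroDivisors ℤ) A L
  have hD0 : (D : ℚ) ≠ 0 := by exact_mod_cast nonZeroDivisors.ne_zero hD
  have e : ∀ a ∈ A, ((D * L a).num : ℚ) = D * L a := by
    intro a ha
    obtain ⟨n, hn⟩ := h a ha
    have : (D : ℚ) * L a = n := by simpa using hn.symm
    rw [this]; simp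
  refine ⟨fun a => (D * L a).num, fun a ha b hb hab => ?_, fun a ha b hb c hc d hd h => ?_⟩
  · by_contra hne
    apply hL ⟨(a, b), mem_offDiag.mpr ⟨ha, hb, hne⟩⟩
    have h1 : ((D * L a).num : ℚ) = (D * L b).num := by exact_mod_cast hab
    rw [e a ha, e b hb] at h1
    rw [map_sub, mul_left_cancel₀ hD0 h1, sub_self]
  · have h1 := congrArg L h
    rw [map_add, map_add] at h1
    have : ((D * L a).num : ℚ) + (D * L b).num = (D * L c).num + (D * L d).num := by
      rw [e a ha, e b hb, e c hc, e d hd, ← mul_add, ← mul_add, h1]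
    exact_mod_cast this

/-- the cell of a residue -/
def cl (P m x : ℕ) : Bool × ℕ := (decide (2 * x < P), x % m)

lemma cl_count (P m x : ℕ) :
    (((range P).filter (fun y => cl P m y = cl P m x)).card : ℝ) ≤ P / (2 * m) + 2 := by
  have h1 : ((range P).filter (fun y => cl P m y = cl P m x)).card ≤ (range (P / (2 * m) + 2)).card := by
    apply card_le_card_of_injOn (fun y => if 2 * x < P then y / m else (y / m - P / (2 * m)))
    · intro y hy
      simp only [coe_filter, mem_range, cl, Prod.mk.injEq, decide_eq_decide, Set.mem_ofPred_eq,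
        coe_range, Set.mem_Iio] at hy ⊢
      have a1 : P / (2 * m) = P / 2 / m := (Nat.div_div_eq_div_mul _ _ _).symm
      split_ifs with h
      · have : y / m ≤ P / 2 / m := Nat.div_le_div_right (by have := hy.2.1.mpr h; omega)
        omega
      · have a2 : y / m ≤ (P / 2 + P / 2) / m := Nat.div_le_div_right (by omega)
        have a3 := Nat.add_div_le_div_add_div_add_one (P / 2) (P / 2) m
        rw [a1]
        generalize P / 2 / m = e at *
        omega
    · intro y hy z hz e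
      simp only [coe_filter, mem_range, cl, Prod.mk.injEq, decide_eq_decide, Set.mem_ofPred_eq]
        at hy hz e
      have a1 : P / (2 * m) = P / 2 / m := (Nat.div_div_eq_div_mul _ _ _).symm
      have : y / m = z / m := by
        split_ifs at e with h
        · exact e
        · have b1 : P / 2 / m ≤ y / m := Nat.div_le_div_right (by have := hy.2.1; omega)
          have b2 : P / 2 / m ≤ z / m := Nat.div_le_div_right (by have := hz.2.1; omega)
          omega
      rw [← Nat.div_add_mod y m, ← Nat.div_add_mod z m, this, hy.2.2, hz.2.2]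
  rw [card_range] at h1
  have h2 : ((P / (2 * m) : ℕ) : ℝ) ≤ P / (2 * m) := by exact_mod_cast Nat.cast_div_le (α := ℝ)
  have h3 : (((range P).filter (fun y => cl P m y = cl P m x)).card : ℝ) ≤ (P / (2 * m) : ℕ) + 2 := by
    exact_mod_cast h1
  linarith

lemma pair_count (P m : ℕ) [Fact P.Prime] {α β : ZMod P} (h : α ≠ β) :
    ((univ.filter (fun z : ZMod P × ZMod P =>
      cl P m (z.1 * α + z.2).val = cl P m (z.1 * β + z.2).val)).card : ℝ) ≤ P * (P / (2 * m) + 2) := by
  have h1 : (univ.filter (fun z : ZMod P × ZMod P =>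
      cl P m (z.1 * α + z.2).val = cl P m (z.1 * β + z.2).val)).card ≤
      ((range P).sigma (fun x => (range P).filter (fun y => cl P m y = cl P m x))).card := by
    apply card_le_card_of_injOn (fun z => ⟨(z.1 * β + z.2).val, (z.1 * α + z.2).val⟩)
    · intro z hz
      simp only [coe_filter, mem_univ, true_and, Set.mem_ofPred_eq] at hz
      simp [ZMod.val_lt, hz]
    · intro z _ z' _ e
      simp only [Sigma.mk.injEq, heq_eq_eq] at e
      have e1 := ZMod.val_injective P e.1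
      have e2 := ZMod.val_injective P e.2
      have e3 : z.1 = z'.1 := mul_right_cancel₀ (sub_ne_zero.mpr h) (by linear_combination e2 - e1)
      exact Prod.ext e3 (by rw [e3] at e1; exact add_left_cancel e1)
  rw [card_sigma] at h1
  have h2 : ((univ.filter (fun z : ZMod P × ZMod P =>
      cl P m (z.1 * α + z.2).val = cl P m (z.1 * β + z.2).val)).card : ℝ) ≤
      ∑ x ∈ range P, (((range P).filter (fun y => cl P m y = cl P m x)).card : ℝ) := by
    exact_mod_cast h1
  refine h2.trans ((sum_le_sum (fun x _ => cl_count P m x)).trans ?_)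
  rw [sum_const, card_range, nsmul_eq_mul]

lemma cov_of_inj (p P : ℕ) (hp : p.Prime) (R : Finset ℝ) (x : ℝ → ℕ) (hx : ∀ a, x a < P)
    (hadd : ∀ a ∈ R, ∀ b ∈ R, ∀ c ∈ R, ∀ d ∈ R, a + b = c + d → x a + x b ≡ x c + x d [MOD P])
    (hinj : Set.InjOn (fun a => cl P (p * (p - 1)) (x a)) R) : Cov (2 * p) R := by
  classical
  have : Fact p.Prime := ⟨hp⟩
  obtain ⟨g, hg⟩ := IsCyclic.exists_ofOrder_eq_natCard (α := (ZMod p)ˣ)
  rw [Nat.card_eq_fintype_card, ZMod.card_units] at hg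
  set col : ℝ → Bool × ZMod p := fun a => (decide (2 * x a < P), (x a : ZMod p) - (g ^ x a : (ZMod p)ˣ))
    with hcol
  refine ⟨univ.image (fun z => R.filter (fun a => col a = z)), card_image_le.trans (by simp),
    fun S hS => ?_, fun a ha => ⟨_, mem_image_of_mem _ (mem_univ (col a)), mem_filter.mpr ⟨ha, rfl⟩⟩⟩
  obtain ⟨z, _, rfl⟩ := mem_image.mp hS
  have key : ∀ a ∈ R.filter (fun a => col a = z), ∀ c ∈ R.filter (fun a => col a = z),
      ((g ^ x a : (ZMod p)ˣ) : ZMod p) = (g ^ x c : (ZMod p)ˣ) → a = c := by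
    intro a ha c hc e
    obtain ⟨a1, a2⟩ := mem_filter.mp ha
    obtain ⟨c1, c2⟩ := mem_filter.mp hc
    have e1 := a2.trans c2.symm
    simp only [hcol, Prod.mk.injEq, e, sub_left_inj] at e1
    apply hinj a1 c1
    refine Prod.ext e1.1 ?_
    have e2 := pow_eq_pow_iff_modEq.mp (Units.ext e)
    rw [hg] at e2
    exact (Nat.modEq_and_modEq_iff_modEq_mul
      ((Nat.coprime_self_sub_right hp.one_le).mpr (by simp))).mp
      ⟨(ZMod.natCast_eq_natCast_iff _ _ _).mp e1.2, e2⟩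
  intro a ha b hb c hc d hd h
  obtain ⟨a1, a2⟩ := mem_filter.mp ha
  obtain ⟨b1, b2⟩ := mem_filter.mp hb
  obtain ⟨c1, c2⟩ := mem_filter.mp hc
  obtain ⟨d1, d2⟩ := mem_filter.mp hd
  have h1 := hadd a a1 b b1 c c1 d d1 h
  have e1 := a2.trans b2.symm
  have e2 := a2.trans c2.symm
  have e3 := a2.trans d2.symm
  simp only [hcol, Prod.mk.injEq, decide_eq_decide] at e1 e2 e3
  have h2 : x a + x b = x c + x d := by
    have := hx a; have := hx b; have := hx c; have := hx d
    apply h1.eq_of_abs_lt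
    rw [abs_lt]; push_cast; omega
  have h3 : (x a : ZMod p) + x b = x c + x d := by exact_mod_cast congrArg (Nat.cast : ℕ → ZMod p) h2
  have h4 : ((g ^ x a : (ZMod p)ˣ) : ZMod p) * (g ^ x b : (ZMod p)ˣ) =
      (g ^ x c : (ZMod p)ˣ) * (g ^ x d : (ZMod p)ˣ) := by
    rw [← Units.val_mul, ← Units.val_mul, ← pow_add, ← pow_add, h2]
  have h5 : (((g ^ x a : (ZMod p)ˣ) : ZMod p) - (g ^ x c : (ZMod p)ˣ)) *
      (((g ^ x a : (ZMod p)ˣ) : ZMod p) - (g ^ x d : (ZMod p)ˣ)) = 0 := by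
    linear_combination (((g ^ x a : (ZMod p)ˣ) : ZMod p)) * (h3 + e1.2 - e2.2 - e3.2) - h4
  rcases mul_eq_zero.mp h5 with h6 | h6
  · have := key a ha c hc (sub_eq_zero.mp h6)
    exact Or.inl ⟨this, by linarith⟩
  · have := key a ha d hd (sub_eq_zero.mp h6)
    exact Or.inr ⟨this, by linarith⟩

open Classical in
lemma table {ι : Type} (H : Finset ι) (lab : ι → ℝ) (w : ι → ℝ) (hw : ∀ i, 0 ≤ w i) (p : ℕ)
    (hp : p.Prime) : ∃ cell : ℝ → Bool × ℕ,
    (∑ i ∈ H, ∑ j ∈ H, if lab i ≠ lab j ∧ cell (lab i) = cell (lab j) then w i * w j else 0) ≤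
      (∑ i ∈ H, w i) ^ 2 / (2 * (p - 1) ^ 2) ∧
    ∀ R ⊆ H.image lab, Set.InjOn cell R → Cov (2 * p) R := by
  obtain ⟨φ, hφ1, hφ2⟩ := exists_int_model (H.image lab)
  obtain ⟨P, hP1, hP⟩ := Nat.exists_infinite_primes
    (2 * (H.image lab).sup (fun a => (φ a).natAbs) + 4 * p ^ 3 + 1)
  have : Fact P.Prime := ⟨hP⟩
  have hp2 := hp.two_le
  have hinj : ∀ i ∈ H, ∀ j ∈ H, lab i ≠ lab j → (φ (lab i) : ZMod P) ≠ φ (lab j) := by
    intro i hi j hj hne e
    apply hne (hφ1 (mem_image_of_mem _ hi) (mem_image_of_mem _ hj) _)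
    have h1 := le_sup (f := fun a => (φ a).natAbs) (mem_image_of_mem lab hi)
    have h2 := le_sup (f := fun a => (φ a).natAbs) (mem_image_of_mem lab hj)
    have h3 := Int.eq_zero_of_dvd_of_natAbs_lt_natAbs ((ZMod.intCast_eq_intCast_iff_dvd_sub _ _ _).mp e)
      (by simp only [Int.natAbs_natCast] at *; omega)
    omega
  set cell : ZMod P × ZMod P → ℝ → Bool × ℕ :=
    fun z a => cl P (p * (p - 1)) (z.1 * φ a + z.2).val with hcell
  have hsum : ∑ z : ZMod P × ZMod P, (∑ i ∈ H, ∑ j ∈ H,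
      if lab i ≠ lab j ∧ cell z (lab i) = cell z (lab j) then w i * w j else 0) ≤
      ∑ _z : ZMod P × ZMod P, (∑ i ∈ H, w i) ^ 2 / (2 * (p - 1) ^ 2) := by
    have hb : (P : ℝ) * (P / (2 * (p * (p - 1) : ℕ)) + 2) ≤ P * P / (2 * (p - 1) ^ 2) := by
      rw [mul_div_assoc]
      apply mul_le_mul_of_nonneg_left _ (by positivity)
      have h1 : (4 : ℝ) * p ^ 3 ≤ P := by exact_mod_cast (by omega : 4 * p ^ 3 ≤ P)
      have h2 : (2 : ℝ) ≤ p := by exact_mod_cast hp2
      have h3 : (0 : ℝ) < p - 1 := by linarith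
      push_cast [Nat.cast_sub hp.one_le]
      rw [div_add' _ _ _ (by positivity), div_le_div_iff₀ (by positivity) (by positivity)]
      have h4 : 4 * p * (p - 1) ^ 2 ≤ (P : ℝ) := by nlinarith
      nlinarith [mul_le_mul_of_nonneg_left h4 h3.le]
    rw [sum_comm, sum_const, card_univ, Fintype.card_prod, ZMod.card, nsmul_eq_mul, sq (∑ _ ∈ _, _),
      sum_mul_sum, sum_div, mul_sum]
    refine sum_le_sum (fun i hi => ?_)
    rw [sum_comm, sum_div, mul_sum]
    refine sum_le_sum (fun j hj => ?_)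
    have h0 : 0 ≤ w i * w j := mul_nonneg (hw i) (hw j)
    by_cases hne : lab i = lab j
    · simp only [hne, ne_eq, not_true, false_and, if_false, sum_const_zero]; positivity
    · simp only [ne_eq, hne, not_false_eq_true, true_and]
      rw [← sum_filter, sum_const, nsmul_eq_mul]
      refine (mul_le_mul_of_nonneg_right ((pair_count P _ (hinj i hi j hj hne)).trans hb)
        h0).trans (le_of_eq ?_)
      push_cast; ring
  obtain ⟨z, _, hz⟩ := exists_le_of_sum_le univ_nonempty hsum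
  refine ⟨cell z, hz, fun R hR hi => cov_of_inj p P hp R (fun a => (z.1 * φ a + z.2).val)
    (fun a => ZMod.val_lt _) (fun a ha b hb c hc d hd h => ?_) hi⟩
  rw [← ZMod.natCast_eq_natCast_iff]
  have h1 := congrArg (Int.cast : ℤ → ZMod P) (hφ2 a (hR ha) b (hR hb) c (hR hc) d (hR hd) h)
  push_cast [ZMod.natCast_zmod_val] at h1 ⊢
  linear_combination z.1 * h1

end Pool.Agent.Lib.MP_ef4e97_co
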